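import Pool.Agent.Lib.MP_28dde8_gt.Tri.PM2

/-! # Row AN1: angles of the triangles -/

namespace MP28dde8T

open Finset

namespace Surface

variable {D : Type} [Fintype D] [DecidableEq D] {S : Surface D}

private theorem AN1_im (d : D) : 0 < (S.vec (S.rot d) / S.vec d).im := by
  have h1 := S.det_rot_pos d
  have h2 := S.glue (S.nxt (S.nxt d))
  rw [← S.rot_apply] at h2
  have h3 := S.rat_pos (S.nxt (S.nxt d))
  have h4 : 0 < Complex.normSq (S.vec d) := Complex.normSq_pos.mpr (S.vec_ne d)
  have h5 : (S.vec (S.rot d) / S.vec d).im =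
      S.rat (S.nxt (S.nxt d)) * det (S.vec d) (-(S.vec (S.nxt (S.nxt d)))) /
        Complex.normSq (S.vec d) := by
    rw [h2, Complex.div_im]
    unfold det
    simp only [Complex.neg_re, Complex.neg_im, Complex.re_ofReal_mul, Complex.im_ofReal_mul]
    ring
  rw [h5]
  positivity

/-- Row AN1. `vec (rot d) / vec d` is a positive multiple of `-vec (nxt (nxt d)) / vec d`, whose
imaginary part has the sign of `det_rot_pos`. -/
theorem ang_pos (d : D) : 0 < S.ang d := by
  have h1 := AN1_im (S := S) d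
  have h2 : 0 ≤ S.ang d := Complex.arg_nonneg_iff.mpr h1.le
  rcases h2.lt_or_eq with h3 | h3
  · exact h3
  · exfalso
    have h4 := (Complex.arg_eq_zero_iff.mp h3.symm).2
    rw [h4] at h1
    exact lt_irrefl _ h1

/-- Row AN1 -/
theorem ang_lt (d : D) : S.ang d < Real.pi := by
  have h1 := AN1_im (S := S) d
  have h2 : S.ang d ≤ Real.pi := Complex.arg_le_pi _
  rcases h2.lt_or_eq with h3 | h3
  · exact h3
  · exfalso
    have h4 := (Complex.arg_eq_pi_iff.mp h3).2
    rw [h4] at h1
    exact lt_irrefl _ h1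

/-- Row AN1. `vec (rot d)` is `vec d` turned by `ang d` and stretched. -/
theorem vec_rot_eq (d : D) : ∃ r : ℝ, 0 < r ∧
    S.vec (S.rot d) = (r : ℂ) * (Complex.exp (S.ang d * Complex.I) * S.vec d) := by
  refine ⟨‖S.vec (S.rot d) / S.vec d‖, ?_, ?_⟩
  · rw [norm_pos_iff]
    exact div_ne_zero (S.vec_ne _) (S.vec_ne _)
  · have h1 := Complex.norm_mul_exp_arg_mul_I (S.vec (S.rot d) / S.vec d)
    unfold ang
    rw [← mul_assoc, h1, div_mul_cancel₀ _ (S.vec_ne d)]

private theorem AN1_nn (d : D) : ∃ r : ℝ, 0 < r ∧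
    S.vec (S.nxt (S.nxt d)) = -((r : ℂ) * (Complex.exp (S.ang d * Complex.I) * S.vec d)) := by
  obtain ⟨r, hr, h1⟩ := vec_rot_eq (S := S) d
  have h2 := S.glue (S.nxt (S.nxt d))
  rw [← S.rot_apply] at h2
  have h3 := S.rat_pos (S.nxt (S.nxt d))
  refine ⟨r / S.rat (S.nxt (S.nxt d)), by positivity, ?_⟩
  have h4 : (S.rat (S.nxt (S.nxt d)) : ℂ) ≠ 0 := by exact_mod_cast h3.ne'
  rw [h1] at h2
  push_cast
  field_simp
  linear_combination h2

/-- Row AN1. The sum of the angles of a triangle: the product of the three factors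
`exp (ang * I)` is `-1`, and the sum is between `0` and `3 * π`. -/
theorem ang_add (d : D) :
    S.ang d + S.ang (S.nxt d) + S.ang (S.nxt (S.nxt d)) = Real.pi := by
  obtain ⟨a, ha, h1⟩ := AN1_nn (S := S) d
  obtain ⟨b, hb, h2⟩ := AN1_nn (S := S) (S.nxt d)
  obtain ⟨c, hc, h3⟩ := AN1_nn (S := S) (S.nxt (S.nxt d))
  rw [S.nxt_nxt_nxt] at h2 h3
  set x := S.ang d with hx
  set y := S.ang (S.nxt d) with hy
  set z := S.ang (S.nxt (S.nxt d)) with hz
  have hx0 : 0 < x := ang_pos d
  have hy0 : 0 < y := ang_pos (S.nxt d)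
  have hz0 : 0 < z := ang_pos (S.nxt (S.nxt d))
  have hx1 : x < Real.pi := ang_lt d
  have hy1 : y < Real.pi := ang_lt (S.nxt d)
  have hz1 : z < Real.pi := ang_lt (S.nxt (S.nxt d))
  have hE : Complex.exp (((x + y + z : ℝ) : ℂ) * Complex.I) =
      Complex.exp (x * Complex.I) * Complex.exp (y * Complex.I) * Complex.exp (z * Complex.I) := by
    rw [← Complex.exp_add, ← Complex.exp_add]
    congr 1
    push_cast
    ring
  have h4 : S.vec d = -(((a * b * c : ℝ) : ℂ) *
      (Complex.exp (((x + y + z : ℝ) : ℂ) * Complex.I) * S.vec d)) := by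
    rw [hE]
    push_cast
    conv_lhs => rw [h2, h3, h1]
    ring
  have h5 : ((a * b * c : ℝ) : ℂ) * Complex.exp (((x + y + z : ℝ) : ℂ) * Complex.I) = -1 := by
    have h6 := S.vec_ne d
    have h7 : (((a * b * c : ℝ) : ℂ) * Complex.exp (((x + y + z : ℝ) : ℂ) * Complex.I) + 1) *
        S.vec d = 0 := by
      linear_combination h4
    rcases mul_eq_zero.mp h7 with h8 | h8
    · linear_combination h8
    · exact absurd h8 h6
  have habc : 0 < a * b * c := by positivity
  have h6 : Real.sin (x + y + z) = 0 := by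
    have := congrArg Complex.im h5
    rw [Complex.im_ofReal_mul, Complex.exp_ofReal_mul_I_im] at this
    simp only [Complex.neg_im, Complex.one_im, neg_zero] at this
    rcases mul_eq_zero.mp this with h | h
    · exact absurd h habc.ne'
    · exact h
  have h7 : a * b * c * Real.cos (x + y + z) = -1 := by
    have := congrArg Complex.re h5
    rw [Complex.re_ofReal_mul, Complex.exp_ofReal_mul_I_re] at this
    simpa using this
  have h8 : Real.cos (x + y + z) < 0 := by
    by_contra h9
    push Not at h9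
    have := mul_nonneg habc.le h9
    linarith
  obtain ⟨n, hn⟩ := Real.sin_eq_zero_iff.mp h6
  have hpi := Real.pi_pos
  have hn0 : (0 : ℝ) < n := by
    by_contra h9
    push Not at h9
    nlinarith
  have hn3 : (n : ℝ) < 3 := by
    by_contra h9
    push Not at h9
    nlinarith
  have hn0' : 0 < n := by exact_mod_cast hn0
  have hn3' : n < 3 := by exact_mod_cast hn3
  have hn12 : n = 1 ∨ n = 2 := by omega
  rcases hn12 with rfl | rfl
  · rw [← hn]; push_cast; ring
  · exfalso
    rw [← hn] at h8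
    push_cast at h8
    rw [Real.cos_two_pi] at h8
    linarith

/-- Row AN1. Sum over all triangles. -/
theorem sum_ang : ∑ d : D, S.ang d = (Fintype.card D : ℝ) * Real.pi / 3 := by
  have h1 : ∑ d : D, (S.ang d + S.ang (S.nxt d) + S.ang (S.nxt (S.nxt d))) =
      ∑ _d : D, Real.pi := Finset.sum_congr rfl (fun d _ => ang_add d)
  have h2 : ∑ d : D, S.ang (S.nxt d) = ∑ d : D, S.ang d := Equiv.sum_comp S.nxt S.ang
  have h3 : ∑ d : D, S.ang (S.nxt (S.nxt d)) = ∑ d : D, S.ang d := by
    rw [Equiv.sum_comp S.nxt (fun d => S.ang (S.nxt d))]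
    exact h2
  rw [Finset.sum_add_distrib, Finset.sum_add_distrib, h2, h3, Finset.sum_const, Finset.card_univ,
    nsmul_eq_mul] at h1
  linarith

end Surface

end MP28dde8T
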