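import Pool.Agent.Lib.MP_28dde8_gt.Tri.AN1

/-! # Row AN2: turning around a vertex -/

namespace MP28dde8T

open Finset

namespace Surface

variable {D : Type} [Fintype D] [DecidableEq D] {S : Surface D}

variable (S) in
/-- The angle swept when turning `n` times around the initial point, starting at `d`. -/
noncomputable def turn (d : D) (n : ℕ) : ℝ := ∑ i ∈ range n, S.ang ((S.rot ^ i) d)

theorem turn_zero (d : D) : S.turn d 0 = 0 := by simp [turn]

/-- Row AN2 -/
theorem turn_add (d : D) (m n : ℕ) :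
    S.turn d (m + n) = S.turn d m + S.turn ((S.rot ^ m) d) n := by
  unfold turn
  rw [Finset.sum_range_add]
  congr 1
  refine Finset.sum_congr rfl fun i _ => ?_
  rw [add_comm m i, pow_add, Equiv.Perm.mul_apply]

/-- Row AN2 -/
theorem turn_strictMono (d : D) : StrictMono (S.turn d) := by
  refine strictMono_nat_of_lt_succ fun n => ?_
  unfold turn
  rw [Finset.sum_range_succ]
  have := ang_pos (S := S) ((S.rot ^ n) d)
  linarith

/-- Row AN2 -/
theorem V_turn {sc : D → ℝ} (h : S.IsScale sc) (d : D) (n : ℕ) : ∃ r : ℝ, 0 < r ∧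
    S.V sc ((S.rot ^ n) d) = (r : ℂ) * (Complex.exp (S.turn d n * Complex.I) * S.V sc d) := by
  induction n with
  | zero => exact ⟨1, one_pos, by simp [turn_zero]⟩
  | succ n ih =>
    obtain ⟨r, hr, h1⟩ := ih
    obtain ⟨r', hr', h2⟩ := vec_rot_eq (S := S) ((S.rot ^ n) d)
    have hc := h.pos ((S.rot ^ n) d)
    have hc' := h.pos (S.rot ((S.rot ^ n) d))
    have hcC : (sc ((S.rot ^ n) d) : ℂ) ≠ 0 := by exact_mod_cast hc.ne'
    refine ⟨sc (S.rot ((S.rot ^ n) d)) * r' / sc ((S.rot ^ n) d) * r, by positivity, ?_⟩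
    have h3 : S.turn d (n + 1) = S.turn d n + S.ang ((S.rot ^ n) d) := by
      unfold turn
      rw [Finset.sum_range_succ]
    have h4 : (S.rot ^ (n + 1)) d = S.rot ((S.rot ^ n) d) := by
      rw [pow_succ', Equiv.Perm.mul_apply]
    have h5 : S.vec ((S.rot ^ n) d) = (sc ((S.rot ^ n) d) : ℂ)⁻¹ * S.V sc ((S.rot ^ n) d) := by
      unfold V
      rw [inv_mul_cancel_left₀ hcC]
    rw [h4, V, h2, h5, h1, h3]
    push_cast
    rw [add_mul, Complex.exp_add]
    field_simp

/-- Row AN2 -/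
theorem det_V_turn {sc : D → ℝ} (h : S.IsScale sc) (d : D) (n : ℕ) : ∃ r : ℝ, 0 < r ∧
    det (S.V sc d) (S.V sc ((S.rot ^ n) d)) = r * Real.sin (S.turn d n) := by
  obtain ⟨r, hr, h1⟩ := V_turn h d n
  refine ⟨r * Complex.normSq (S.V sc d), mul_pos hr (Complex.normSq_pos.2 (h.V_ne d)), ?_⟩
  rw [h1, det_smul_right, Complex.exp_mul_I, ← Complex.ofReal_cos, ← Complex.ofReal_sin]
  unfold det
  simp only [Complex.mul_re, Complex.mul_im, Complex.add_re, Complex.add_im, Complex.ofReal_re,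
    Complex.ofReal_im, Complex.I_re, Complex.I_im, Complex.normSq_apply]
  ring

/-- Row AN2. The two ends of a side which is a loop have opposite directions (`IsScale.V_opp`). -/
theorem turn_opp {sc : D → ℝ} (h : S.IsScale sc) {d : D} {n : ℕ} (hn : (S.rot ^ n) d = S.opp d) :
    ∃ k : ℤ, S.turn d n = Real.pi + 2 * Real.pi * k := by
  obtain ⟨r, hr, h1⟩ := V_turn h d n
  rw [hn, h.V_opp] at h1
  have hc := h.pos d
  have hc' := h.pos (S.nxt d)
  have hv := S.vec_ne d
  have h2 : (r : ℂ) * Complex.exp (S.turn d n * Complex.I) * (sc d : ℂ) = -(sc (S.nxt d) : ℂ) := by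
    have h3 : ((r : ℂ) * Complex.exp (S.turn d n * Complex.I) * (sc d : ℂ) +
        (sc (S.nxt d) : ℂ)) * S.vec d = 0 := by
      unfold V at h1
      linear_combination -h1
    rcases mul_eq_zero.mp h3 with h4 | h4
    · linear_combination h4
    · exact absurd h4 hv
  have h3 : ‖(r : ℂ) * Complex.exp (S.turn d n * Complex.I) * (sc d : ℂ)‖ = sc (S.nxt d) := by
    rw [h2, norm_neg, Complex.norm_real, Real.norm_of_nonneg hc'.le]
  rw [norm_mul, norm_mul, Complex.norm_exp_ofReal_mul_I, Complex.norm_real, Complex.norm_real,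
    Real.norm_of_nonneg hr.le, Real.norm_of_nonneg hc.le, mul_one] at h3
  have h4 : Complex.exp (S.turn d n * Complex.I) = Complex.exp (Real.pi * Complex.I) := by
    rw [Complex.exp_pi_mul_I]
    have h5 : ((r * sc d : ℝ) : ℂ) ≠ 0 := by
      have : (0 : ℝ) < r * sc d := by positivity
      exact_mod_cast this.ne'
    apply mul_left_cancel₀ h5
    have h6 : ((r * sc d : ℝ) : ℂ) = (sc (S.nxt d) : ℂ) := by rw [h3]
    push_cast at h6 ⊢
    linear_combination h2 + h6
  rw [Complex.exp_eq_exp_iff_exists_int] at h4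
  obtain ⟨k, hk⟩ := h4
  refine ⟨k, ?_⟩
  have h5 : ((S.turn d n : ℝ) : ℂ) = ((Real.pi + 2 * Real.pi * k : ℝ) : ℂ) := by
    push_cast
    apply mul_right_cancel₀ Complex.I_ne_zero
    linear_combination hk
  exact_mod_cast h5

/-- Row AN2. A full turn. -/
theorem turn_full {K : Finset D} {d : D} (hK : ∀ e, e ∈ K ↔ S.rot.SameCycle d e) :
    ∃ N : ℕ, 0 < N ∧ (S.rot ^ N) d = d ∧ (∀ m, (S.rot ^ m) d = d → N ∣ m) ∧
      (∀ e ∈ K, ∃ i < N, (S.rot ^ i) d = e) ∧ S.turn d N = ∑ e ∈ K, S.ang e := by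
  obtain ⟨N, h1, h2, h3, h4, h5⟩ := sum_cycle S.rot d
  exact ⟨N, h1, h2, h3, fun e he => h4 e ((hK e).mp he), (h5 S.ang K hK).symm⟩

/-- Row AN2. Two ends of a loop at a vertex of cone angle `Θ`: the angle from `d` to `opp d` and the
angle from `opp d` to `d`. If `opp d` is in the cycle `K` of `d`, let `n < N` with
`(rot ^ n) d = opp d` (`turn_full`), `n' = N - n`. -/
theorem exists_turn {K : Finset D} {d : D} (hK : ∀ e, e ∈ K ↔ S.rot.SameCycle d e)
    (hd : S.opp d ∈ K) : ∃ n n' : ℕ, 0 < n ∧ 0 < n' ∧ (S.rot ^ n) d = S.opp d ∧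
      (S.rot ^ n') (S.opp d) = d ∧ S.turn d n + S.turn (S.opp d) n' = ∑ e ∈ K, S.ang e ∧
      (∀ m, 0 < m → (S.rot ^ m) d = S.opp d → n ≤ m) ∧
      ∀ m, 0 < m → (S.rot ^ m) (S.opp d) = d → n' ≤ m := by
  obtain ⟨N, hN, h1, h2, h3, h4⟩ := turn_full hK
  obtain ⟨n, hnN, hn⟩ := h3 _ hd
  have hn0 : 0 < n := by
    rcases Nat.eq_zero_or_pos n with h0 | h0
    · subst h0
      exact absurd hn.symm (S.opp_ne d)
    · exact h0
  refine ⟨n, N - n, hn0, by omega, hn, ?_, ?_, ?_, ?_⟩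
  · rw [← hn, ← Equiv.Perm.mul_apply, ← pow_add]
    rwa [show N - n + n = N by omega]
  · rw [← h4, ← hn, ← turn_add]
    rw [show n + (N - n) = N by omega]
  · intro m hm hmd
    by_contra hlt
    have h5 : (S.rot ^ (n - m)) d = d := by
      apply (S.rot ^ m).injective
      rw [← Equiv.Perm.mul_apply, ← pow_add, show m + (n - m) = n by omega, hn, hmd]
    have h6 := Nat.le_of_dvd (by omega) (h2 _ h5)
    omega
  · intro m hm hmd
    rw [← hn, ← Equiv.Perm.mul_apply, ← pow_add] at hmd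
    have h6 := Nat.le_of_dvd (by omega) (h2 _ hmd)
    omega

end Surface

end MP28dde8T
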