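import Pool.Agent.Lib.MP_28dde8_gt.Tri.Defs

/-!
# Triangulated dilation surfaces: basic facts
-/

namespace MP28dde8T

open Finset

theorem det_self (a : ℂ) : det a a = 0 := by unfold det; ring

theorem det_swap (a b : ℂ) : det b a = -det a b := by unfold det; ring

theorem det_add_left (a b c : ℂ) : det (a + b) c = det a c + det b c := by
  unfold det; simp only [Complex.add_re, Complex.add_im]; ring

theorem det_add_right (a b c : ℂ) : det a (b + c) = det a b + det a c := by
  unfold det; simp only [Complex.add_re, Complex.add_im]; ring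

theorem det_sub_left (a b c : ℂ) : det (a - b) c = det a c - det b c := by
  unfold det; simp only [Complex.sub_re, Complex.sub_im]; ring

theorem det_sub_right (a b c : ℂ) : det a (b - c) = det a b - det a c := by
  unfold det; simp only [Complex.sub_re, Complex.sub_im]; ring

theorem det_neg_left (a b : ℂ) : det (-a) b = -det a b := by
  unfold det; simp only [Complex.neg_re, Complex.neg_im]; ring

theorem det_neg_right (a b : ℂ) : det a (-b) = -det a b := by
  unfold det; simp only [Complex.neg_re, Complex.neg_im]; ring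

theorem det_smul_left (r : ℝ) (a b : ℂ) : det ((r : ℂ) * a) b = r * det a b := by
  unfold det
  simp only [Complex.re_ofReal_mul, Complex.im_ofReal_mul]; ring

theorem det_smul_right (r : ℝ) (a b : ℂ) : det a ((r : ℂ) * b) = r * det a b := by
  unfold det
  simp only [Complex.re_ofReal_mul, Complex.im_ofReal_mul]; ring

theorem det_zero_left (a : ℂ) : det 0 a = 0 := by unfold det; simp

theorem det_zero_right (a : ℂ) : det a 0 = 0 := by unfold det; simp

/-- two vectors with vanishing determinant are parallel -/
theorem exists_smul_of_det {a b : ℂ} (ha : a ≠ 0) (h : det a b = 0) :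
    ∃ r : ℝ, b = (r : ℂ) * a := by
  have hn : a.re * a.re + a.im * a.im ≠ 0 := by
    intro h0
    apply ha
    have h1 : a.re = 0 := by nlinarith [mul_self_nonneg a.re, mul_self_nonneg a.im]
    have h2 : a.im = 0 := by nlinarith [mul_self_nonneg a.re, mul_self_nonneg a.im]
    exact Complex.ext h1 h2
  refine ⟨(a.re * b.re + a.im * b.im) / (a.re * a.re + a.im * a.im), ?_⟩
  unfold det at h
  apply Complex.ext
  · rw [Complex.re_ofReal_mul, div_mul_eq_mul_div, eq_div_iff hn]
    linear_combination (-a.im) * h
  · rw [Complex.im_ofReal_mul, div_mul_eq_mul_div, eq_div_iff hn]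
    linear_combination (a.re) * h

namespace Surface

variable {D : Type} [Fintype D] [DecidableEq D] (S : Surface D)

theorem rot_apply (d : D) : S.rot d = S.opp (S.nxt (S.nxt d)) := rfl

theorem opp_rot (d : D) : S.opp (S.rot d) = S.nxt (S.nxt d) := by
  rw [rot_apply, S.opp_opp]

theorem rot_nxt (d : D) : S.rot (S.nxt d) = S.opp d := by
  rw [rot_apply, S.nxt_nxt_nxt]

theorem rot_nxt_opp (d : D) : S.rot (S.nxt (S.opp d)) = d := by
  rw [rot_nxt, S.opp_opp]

theorem vec_ne (d : D) : S.vec d ≠ 0 := by
  intro h
  have := S.ccw d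
  rw [h, det_zero_left] at this
  exact lt_irrefl _ this

theorem rat_opp (d : D) : S.rat (S.opp d) * S.rat d = 1 := by
  have h1 := S.glue d
  have h2 := S.glue (S.opp d)
  rw [S.opp_opp, h1] at h2
  have h3 : ((S.rat (S.opp d) * S.rat d : ℝ) : ℂ) * S.vec d = S.vec d := by
    conv_rhs => rw [h2]
    push_cast
    ring
  have h4 : ((S.rat (S.opp d) * S.rat d : ℝ) : ℂ) = 1 := by
    have := S.vec_ne d
    field_simp at h3
    exact h3
  exact_mod_cast h4

theorem vec_nxt_nxt (d : D) : S.vec (S.nxt (S.nxt d)) = -(S.vec d) - S.vec (S.nxt d) := by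
  have := S.closed d
  linear_combination this

theorem det_nxt (d : D) : det (S.vec (S.nxt d)) (S.vec (S.nxt (S.nxt d))) =
    det (S.vec d) (S.vec (S.nxt d)) := by
  rw [vec_nxt_nxt, det_sub_right, det_neg_right, det_self, det_swap]
  ring

theorem det_nxt_nxt (d : D) : det (S.vec (S.nxt (S.nxt d))) (S.vec d) =
    det (S.vec d) (S.vec (S.nxt d)) := by
  rw [vec_nxt_nxt, det_sub_left, det_neg_left, det_self, det_swap]
  ring

/-- the two sides of a triangle at a vertex -/
theorem det_rot_pos (d : D) : 0 < det (S.vec d) (-(S.vec (S.nxt (S.nxt d)))) := by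
  rw [det_neg_right, det_swap, neg_neg, det_nxt_nxt]
  exact S.ccw d

/-- two sides of a triangle are not glued together -/
theorem opp_ne_nxt (d : D) : S.opp d ≠ S.nxt d := by
  intro h
  have h1 := S.ccw d
  rw [← h, S.glue d, det_neg_right, det_smul_right, det_self] at h1
  simp at h1

theorem opp_ne_nxt_nxt (d : D) : S.opp d ≠ S.nxt (S.nxt d) := by
  intro h
  have h1 := S.det_rot_pos d
  rw [← h, S.glue d, neg_neg, det_smul_right, det_self] at h1
  simp at h1

theorem opp_ne (d : D) : S.opp d ≠ d := by
  intro h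
  have h1 := S.glue d
  rw [h] at h1
  have h2 : ((1 + S.rat d : ℝ) : ℂ) * S.vec d = 0 := by
    push_cast
    linear_combination h1
  rcases mul_eq_zero.mp h2 with h3 | h3
  · have h4 : (1 + S.rat d : ℝ) = 0 := by exact_mod_cast h3
    have := S.rat_pos d
    linarith
  · exact S.vec_ne d h3

theorem nxt_ne (d : D) : S.nxt d ≠ d := by
  intro h
  have h1 := S.ccw d
  rw [h, det_self] at h1
  exact lt_irrefl _ h1

theorem nxt_nxt_ne (d : D) : S.nxt (S.nxt d) ≠ d := by
  intro h
  have h1 := S.nxt_nxt_nxt d
  rw [h] at h1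
  exact S.nxt_ne d h1

theorem rot_ne (d : D) : S.rot d ≠ d := by
  intro h
  have h1 := S.det_rot_pos d
  have h2 : S.opp d = S.nxt (S.nxt d) := by rw [← S.opp_rot d, h]
  exact S.opp_ne_nxt_nxt d h2

/-! ### Scales -/

/-- `sc d` is the scale of the triangle of `d` in a chart at the initial point of `d`: the charts of
consecutive triangles around a vertex fit together after rescaling by `sc`. -/
structure IsScale (sc : D → ℝ) : Prop where
  pos : ∀ d, 0 < sc d
  rot : ∀ d, sc (S.rot d) * S.rat (S.nxt (S.nxt d)) = sc d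

variable {S} {sc : D → ℝ}

theorem IsScale.opp (h : S.IsScale sc) (d : D) : sc (S.opp d) * S.rat d = sc (S.nxt d) := by
  have := h.rot (S.nxt d)
  rwa [S.rot_nxt, S.nxt_nxt_nxt] at this

/-- `S.V sc d` is the side `d` in the chart at its initial point. -/
noncomputable def V (S : Surface D) (sc : D → ℝ) (d : D) : ℂ := (sc d : ℂ) * S.vec d

theorem IsScale.V_ne (h : S.IsScale sc) (d : D) : S.V sc d ≠ 0 := by
  unfold V
  exact mul_ne_zero (by exact_mod_cast (h.pos d).ne') (S.vec_ne d)

theorem IsScale.V_rot (h : S.IsScale sc) (d : D) :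
    S.V sc (S.rot d) = -((sc d : ℂ) * S.vec (S.nxt (S.nxt d))) := by
  unfold V
  have h1 := h.rot d
  have h2 := S.glue (S.nxt (S.nxt d))
  rw [← S.rot_apply] at h2
  rw [h2, ← h1]
  push_cast
  ring

/-- the side opposite to the initial point of `d`, in the chart at this point -/
theorem IsScale.V_rot_sub (h : S.IsScale sc) (d : D) :
    S.V sc (S.rot d) - S.V sc d = (sc d : ℂ) * S.vec (S.nxt d) := by
  rw [h.V_rot, S.vec_nxt_nxt, V]
  ring

/-- the other end of a side -/
theorem IsScale.V_opp (h : S.IsScale sc) (d : D) :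
    S.V sc (S.opp d) = -((sc (S.nxt d) : ℂ) * S.vec d) := by
  unfold V
  have h1 := h.opp d
  rw [S.glue, ← h1]
  push_cast
  ring

theorem IsScale.det_rot_pos (h : S.IsScale sc) (d : D) :
    0 < det (S.V sc d) (S.V sc (S.rot d)) := by
  rw [h.V_rot, V, det_neg_right, det_smul_left, det_smul_right]
  have h1 := S.det_rot_pos d
  rw [det_neg_right] at h1
  have h2 := h.pos d
  have : 0 < sc d * (sc d * -det (S.vec d) (S.vec (S.nxt (S.nxt d)))) := by positivity
  linarith

/-- If the scale is the same at the three corners of every triangle then the surface is a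
translation surface. -/
theorem isTranslation_of_scale {c : D → ℝ} (h : S.IsScale c) (h1 : ∀ d, c (S.nxt d) = c d) :
    S.IsTranslation := by
  refine ⟨c, h.pos, h1, fun d => ?_⟩
  have h2 := h.V_opp d
  rw [V, h1] at h2
  exact h2

end Surface

end MP28dde8T
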