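import Pool.Agent.Lib.MP_28dde8_gt.Tri.LP

/-! # Row CT: the vertices of a surface of genus 2 -/

namespace MP28dde8T

open Finset

namespace Surface

variable {D : Type} [Fintype D] [DecidableEq D] {S : Surface D}

/-- There are two vertices, both of cone angle `4 * π`: the sides starting at the first one are the
elements of `K`. -/
structure Two (S : Surface D) (K : Finset D) : Prop where
  inv : ∀ d, S.rot d ∈ K ↔ d ∈ K
  tr : ∀ d ∈ K, ∀ e ∈ K, S.rot.SameCycle d e
  tr' : ∀ d ∉ K, ∀ e ∉ K, S.rot.SameCycle d e
  sum : ∑ d ∈ K, S.ang d = 4 * Real.pi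
  sum' : ∑ d ∈ Kᶜ, S.ang d = 4 * Real.pi
  card : Fintype.card D = 24
  ne : K.Nonempty
  ne' : Kᶜ.Nonempty

theorem Two.compl {K : Finset D} (h : S.Two K) : S.Two Kᶜ where
  inv := fun d => by rw [mem_compl, mem_compl, h.inv]
  tr := fun d hd e he => h.tr' d (mem_compl.mp hd) e (mem_compl.mp he)
  tr' := fun d hd e he => h.tr d (by simpa using hd) e (by simpa using he)
  sum := h.sum'
  sum' := by rw [compl_compl]; exact h.sum
  card := h.card
  ne := h.ne'
  ne' := by rw [compl_compl]; exact h.ne

/-- Row CT. Let `v` be the number of vertices; `eulerChar = v - card D / 6 = -2` gives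
`card D = 6 * v + 12`, so the sum of all angles is `(2 * v + 4) * π` (`sum_ang`) and at least
`4 * π * v`; thus `v = 1` (`v ≥ 1` since `D` is not empty) or `v = 2`, with all cone angles `4 * π`. -/
theorem vertices (hS : S.IsDilationSurface) (hg : S.eulerChar = -2) :
    (Fintype.card D = 18 ∧ ∀ d e : D, S.rot.SameCycle d e) ∨ ∃ K : Finset D, S.Two K := by
  classical
  let q : D → Quotient (Equiv.Perm.SameCycle.setoid S.rot) := Quotient.mk _
  have : Fintype (Quotient (Equiv.Perm.SameCycle.setoid S.rot)) := Fintype.ofFinite _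
  have hq : ∀ d e, q d = q e ↔ S.rot.SameCycle d e := by
    intro d e
    exact Quotient.eq
  have hsurj : ∀ x, ∃ d, q d = x := by
    intro x
    induction x using Quotient.ind with
    | _ d => exact ⟨d, rfl⟩
  have hcone : ∀ x, 4 * Real.pi ≤ ∑ e ∈ univ.filter (fun e => q e = x), S.ang e := by
    intro x
    obtain ⟨d, rfl⟩ := hsurj x
    have h1 := hS.cone d
    have h2 : S.star d = univ.filter (fun e => q e = q d) := by
      ext e
      rw [star, mem_filter, mem_filter, hq]
      exact and_congr_right fun _ => ⟨fun h => h.symm, fun h => h.symm⟩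
    rw [h2] at h1
    exact h1
  have htot : ∑ x, ∑ e ∈ univ.filter (fun e => q e = x), S.ang e =
      (Fintype.card D : ℝ) * Real.pi / 3 := by
    rw [Finset.sum_fiberwise, sum_ang]
  have hcard : Fintype.card D =
      6 * Fintype.card (Quotient (Equiv.Perm.SameCycle.setoid S.rot)) + 12 := by
    rw [eulerChar, Nat.card_eq_fintype_card] at hg
    have h1 : (Fintype.card D : ℚ) =
        6 * (Fintype.card (Quotient (Equiv.Perm.SameCycle.setoid S.rot)) : ℚ) + 12 := by
      linarith
    exact_mod_cast h1
  have hpi := Real.pi_pos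
  obtain ⟨v, hv⟩ : ∃ v, v = Fintype.card (Quotient (Equiv.Perm.SameCycle.setoid S.rot)) := ⟨_, rfl⟩
  rw [← hv] at hcard
  have hcardR : (Fintype.card D : ℝ) = 6 * v + 12 := by exact_mod_cast hcard
  have hle : v ≤ 2 := by
    have h1 : ∑ _x : Quotient (Equiv.Perm.SameCycle.setoid S.rot), 4 * Real.pi ≤
        ∑ x, ∑ e ∈ univ.filter (fun e => q e = x), S.ang e :=
      Finset.sum_le_sum fun x _ => hcone x
    rw [htot, Finset.sum_const, Finset.card_univ, ← hv, nsmul_eq_mul, hcardR] at h1
    by_contra h2
    have h3 : (3 : ℝ) ≤ v := by exact_mod_cast (not_le.1 h2)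
    nlinarith
  have hpos : 0 < Fintype.card D := by omega
  obtain ⟨d0⟩ := Fintype.card_pos_iff.1 hpos
  have hv0 : 0 < v := by
    rw [hv]
    exact Fintype.card_pos_iff.2 ⟨q d0⟩
  have hv12 : v = 1 ∨ v = 2 := by omega
  rcases hv12 with h1 | h2
  · left
    refine ⟨by omega, fun d e => ?_⟩
    have h3 : Subsingleton (Quotient (Equiv.Perm.SameCycle.setoid S.rot)) :=
      Fintype.card_le_one_iff_subsingleton.1 (by omega)
    exact (hq d e).1 (Subsingleton.elim _ _)
  · right
    obtain ⟨x1, hx1⟩ := Fintype.exists_ne_of_one_lt_card (by omega) (q d0)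
    have huniv : ({q d0, x1} : Finset (Quotient (Equiv.Perm.SameCycle.setoid S.rot))) = univ := by
      apply Finset.eq_univ_of_card
      rw [Finset.card_pair hx1.symm]
      omega
    have hor : ∀ d, q d ≠ q d0 → q d = x1 := by
      intro d hd
      have h3 : q d ∈ ({q d0, x1} : Finset (Quotient (Equiv.Perm.SameCycle.setoid S.rot))) := by
        rw [huniv]; exact mem_univ _
      rw [mem_insert, mem_singleton] at h3
      exact h3.resolve_left hd
    have hcompl : (univ.filter (fun e => q e = q d0))ᶜ = univ.filter (fun e => q e = x1) := by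
      ext e
      simp only [mem_compl, mem_filter, mem_univ, true_and]
      constructor
      · intro h; exact hor e h
      · intro h h3
        exact hx1 (h.symm.trans h3)
    have hs0 := hcone (q d0)
    have hs1 := hcone x1
    have hsum : ∑ e ∈ univ.filter (fun e => q e = q d0), S.ang e +
        ∑ e ∈ univ.filter (fun e => q e = x1), S.ang e = 8 * Real.pi := by
      rw [← huniv, Finset.sum_pair hx1.symm, hcardR, h2] at htot
      rw [htot]
      push_cast
      ring
    refine ⟨univ.filter (fun e => q e = q d0), ?_, ?_, ?_, ?_, ?_, by omega, ?_, ?_⟩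
    · intro d
      simp only [mem_filter, mem_univ, true_and]
      have h3 : q (S.rot d) = q d := by
        rw [hq]
        exact (Equiv.Perm.sameCycle_apply_left).2 (Equiv.Perm.SameCycle.refl _ _)
      rw [h3]
    · intro d hd e he
      rw [mem_filter] at hd he
      exact (hq d e).1 (hd.2.trans he.2.symm)
    · intro d hd e he
      rw [mem_filter] at hd he
      have h3 := hor d (fun h => hd ⟨mem_univ _, h⟩)
      have h4 := hor e (fun h => he ⟨mem_univ _, h⟩)
      exact (hq d e).1 (h3.trans h4.symm)
    · linarith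
    · rw [hcompl]
      linarith
    · exact ⟨d0, by rw [mem_filter]; exact ⟨mem_univ _, rfl⟩⟩
    · rw [hcompl]
      obtain ⟨d1, hd1⟩ := hsurj x1
      exact ⟨d1, by rw [mem_filter]; exact ⟨mem_univ _, hd1⟩⟩

end Surface

end MP28dde8T
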