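import Pool.Agent.Lib.MP_28dde8_gt.Tri.Base

/-!
# Developing a strip of triangles along a line

The triangles crossed by a line are laid out in the plane one after the other. A state `d, c, P, Q`
is a side `d` of a developed triangle which has been rescaled by the factor `c`; it goes from `P` to
`Q`. The point `P` is on the left side and the point `Q` on the right side of the line through `Z`
with direction `u`.
-/

namespace MP28dde8T

open Finset

namespace Surface

variable {D : Type} [Fintype D] [DecidableEq D] (S : Surface D)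

/-- The states reached from the state `d₀, c₀, P₀, Q₀` by moving along the line. -/
inductive Chain (u Z : ℂ) (d₀ : D) (c₀ : ℝ) (P₀ Q₀ : ℂ) : D → ℝ → ℂ → ℂ → Prop
  | refl : Chain u Z d₀ c₀ P₀ Q₀ d₀ c₀ P₀ Q₀
  | left {d : D} {c : ℝ} {P Q : ℂ} (h : Chain u Z d₀ c₀ P₀ Q₀ d c P Q) {d' : D} {c' : ℝ} {R : ℂ}
      (hd : d' = S.opp (S.nxt d)) (hc : c' * S.rat (S.nxt d) = c)
      (hR : R = Q + (c : ℂ) * S.vec (S.nxt d)) (hs : 0 < det u (R - Z)) :
      Chain u Z d₀ c₀ P₀ Q₀ d' c' R Q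
  | right {d : D} {c : ℝ} {P Q : ℂ} (h : Chain u Z d₀ c₀ P₀ Q₀ d c P Q) {d' : D} {c' : ℝ} {R : ℂ}
      (hd : d' = S.opp (S.nxt (S.nxt d))) (hc : c' * S.rat (S.nxt (S.nxt d)) = c)
      (hR : R = Q + (c : ℂ) * S.vec (S.nxt d)) (hs : det u (R - Z) < 0) :
      Chain u Z d₀ c₀ P₀ Q₀ d' c' P R

variable {S}

theorem Chain.trans {u Z : ℂ} {d₀ d₁ d₂ : D} {c₀ c₁ c₂ : ℝ} {P₀ Q₀ P₁ Q₁ P₂ Q₂ : ℂ}
    (h : S.Chain u Z d₀ c₀ P₀ Q₀ d₁ c₁ P₁ Q₁) (h' : S.Chain u Z d₁ c₁ P₁ Q₁ d₂ c₂ P₂ Q₂) :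
    S.Chain u Z d₀ c₀ P₀ Q₀ d₂ c₂ P₂ Q₂ := by
  induction h' with
  | refl => exact h
  | left _ hd hc hR hs ih => exact ih.left hd hc hR hs
  | right _ hd hc hR hs ih => exact ih.right hd hc hR hs

/-- The position of the crossing point on the segment from `P` to `Q`. -/
noncomputable def xpos (u Z P Q : ℂ) : ℝ := det u (P - Z) / (det u (P - Z) - det u (Q - Z))

theorem xpos_mem {u Z P Q : ℂ} (hP : 0 < det u (P - Z)) (hQ : det u (Q - Z) < 0) :
    0 < xpos u Z P Q ∧ xpos u Z P Q < 1 := by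
  unfold xpos
  have h : 0 < det u (P - Z) - det u (Q - Z) := by linarith
  constructor
  · positivity
  · rw [div_lt_one h]; linarith

/-- the crossing point is on the line -/
theorem det_xpos {u Z P Q : ℂ} (hP : 0 < det u (P - Z)) (hQ : det u (Q - Z) < 0) :
    det u (P + (xpos u Z P Q : ℂ) * (Q - P) - Z) = 0 := by
  have h : det u (P - Z) - det u (Q - Z) ≠ 0 := by linarith
  have e : P + (xpos u Z P Q : ℂ) * (Q - P) - Z =
      (P - Z) + (xpos u Z P Q : ℂ) * ((Q - Z) - (P - Z)) := by ring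
  rw [e, xpos]
  generalize P - Z = A at *
  generalize Q - Z = B at *
  rw [det_add_right, det_smul_right, det_sub_right]
  field_simp
  ring

theorem step_aux {u Z P Q R X : ℂ} {t : ℝ} (hP : 0 < det u (P - Z)) (hQ : det u (Q - Z) < 0)
    (hR : 0 < det (Q - P) (R - Q)) (ht : 0 < t)
    (hX : det (Q - P) (X - P) = t * det (Q - P) (R - Q)) (hXZ : det u (X - Z) = 0) :
    ∃ r : ℝ, 0 < r ∧ X - (P + (xpos u Z P Q : ℂ) * (Q - P)) = (r : ℂ) * u := by
  have h0 := det_xpos hP hQ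
  have hu : u ≠ 0 := by
    rintro rfl
    rw [det_zero_left] at hP
    exact lt_irrefl _ hP
  have h1 : det u (X - (P + (xpos u Z P Q : ℂ) * (Q - P))) = 0 := by
    have e : X - (P + (xpos u Z P Q : ℂ) * (Q - P)) =
      (X - Z) - (P + (xpos u Z P Q : ℂ) * (Q - P) - Z) := by ring
    rw [e, det_sub_right, hXZ, h0, sub_zero]
  obtain ⟨r, hr⟩ := exists_smul_of_det hu h1
  refine ⟨r, ?_, hr⟩
  have h2 : det (Q - P) (X - (P + (xpos u Z P Q : ℂ) * (Q - P))) = t * det (Q - P) (R - Q) := by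
    rw [← hX, show X - (P + (xpos u Z P Q : ℂ) * (Q - P)) =
      (X - P) - (xpos u Z P Q : ℂ) * (Q - P) by ring, det_sub_right, det_smul_right, det_self]
    ring
  rw [hr, det_smul_right] at h2
  have h3 : det (Q - P) u = det u (P - Z) - det u (Q - Z) := by
    rw [show Q - P = (Q - Z) - (P - Z) by ring, det_sub_left, det_swap u, det_swap u (P - Z)]
    ring
  rw [h3] at h2
  have h4 : 0 < t * det (Q - P) (R - Q) := mul_pos ht hR
  rw [← h2] at h4
  exact (mul_pos_iff_of_pos_right (by linarith)).mp h4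

theorem step_left {u Z : ℂ} {d : D} {c : ℝ} {P Q R : ℂ} (hc : 0 < c)
    (hPQ : Q - P = (c : ℂ) * S.vec d) (hP : 0 < det u (P - Z)) (hQ : det u (Q - Z) < 0)
    (hR : R = Q + (c : ℂ) * S.vec (S.nxt d)) (hs : 0 < det u (R - Z)) :
    S.Step u d (xpos u Z P Q) (S.opp (S.nxt d)) (xpos u Z R Q) := by
  have hRQ : R - Q = (c : ℂ) * S.vec (S.nxt d) := by rw [hR]; ring
  have hd : 0 < det (Q - P) (R - Q) := by
    rw [hPQ, hRQ, det_smul_left, det_smul_right]
    have := S.ccw d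
    positivity
  obtain ⟨h1, h2⟩ := xpos_mem hP hQ
  obtain ⟨h3, h4⟩ := xpos_mem hs hQ
  refine ⟨h1, h2, h3, h4, Or.inl ⟨S.opp_opp _, ?_⟩⟩
  obtain ⟨r, hr, he⟩ := step_aux (X := R + (xpos u Z R Q : ℂ) * (Q - R)) (t := 1 - xpos u Z R Q)
    hP hQ hd (by linarith) (by
      rw [show R + (xpos u Z R Q : ℂ) * (Q - R) - P =
        (Q - P) + ((1 - xpos u Z R Q : ℝ) : ℂ) * (R - Q) by push_cast; ring,
        det_add_right, det_smul_right, det_self]
      ring) (det_xpos hs hQ)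
  refine ⟨r / c, by positivity, ?_⟩
  have hcc : (c : ℂ) ≠ 0 := by exact_mod_cast hc.ne'
  have e1 : (c : ℂ) * ((S.vec d + ((1 - xpos u Z R Q : ℝ) : ℂ) * S.vec (S.nxt d)) -
      (xpos u Z P Q : ℂ) * S.vec d) = (r : ℂ) * u := by
    rw [← he]
    push_cast
    linear_combination (-1 + (xpos u Z P Q : ℂ)) * hPQ - (1 - (xpos u Z R Q : ℂ)) * hRQ
  push_cast
  push_cast at e1
  field_simp
  linear_combination e1

theorem step_right {u Z : ℂ} {d : D} {c : ℝ} {P Q R : ℂ} (hc : 0 < c)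
    (hPQ : Q - P = (c : ℂ) * S.vec d) (hP : 0 < det u (P - Z)) (hQ : det u (Q - Z) < 0)
    (hR : R = Q + (c : ℂ) * S.vec (S.nxt d)) (hs : det u (R - Z) < 0) :
    S.Step u d (xpos u Z P Q) (S.opp (S.nxt (S.nxt d))) (xpos u Z P R) := by
  have hRQ : R - Q = (c : ℂ) * S.vec (S.nxt d) := by rw [hR]; ring
  have hRP : P - R = (c : ℂ) * S.vec (S.nxt (S.nxt d)) := by
    rw [S.vec_nxt_nxt]
    linear_combination -hPQ - hRQ
  have hd : 0 < det (Q - P) (R - Q) := by
    rw [hPQ, hRQ, det_smul_left, det_smul_right]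
    have := S.ccw d
    positivity
  obtain ⟨h1, h2⟩ := xpos_mem hP hQ
  obtain ⟨h3, h4⟩ := xpos_mem hP hs
  refine ⟨h1, h2, h3, h4, Or.inr ⟨S.opp_opp _, ?_⟩⟩
  obtain ⟨r, hr, he⟩ := step_aux (X := P + (xpos u Z P R : ℂ) * (R - P)) (t := xpos u Z P R)
    hP hQ hd h3 (by
      rw [show P + (xpos u Z P R : ℂ) * (R - P) - P =
        (xpos u Z P R : ℂ) * ((Q - P) + (R - Q)) by ring,
        det_smul_right, det_add_right, det_self]
      ring) (det_xpos hP hs)
  refine ⟨r / c, by positivity, ?_⟩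
  have hcc : (c : ℂ) ≠ 0 := by exact_mod_cast hc.ne'
  have e1 : (c : ℂ) * (-((xpos u Z P R : ℂ) * S.vec (S.nxt (S.nxt d))) -
      (xpos u Z P Q : ℂ) * S.vec d) = (r : ℂ) * u := by
    rw [← he]
    linear_combination (xpos u Z P Q : ℂ) * hPQ + (xpos u Z P R : ℂ) * hRP
  push_cast
  field_simp
  linear_combination e1

theorem Line.snoc {u : ℂ} {d d' d'' : D} {s s' s'' r : ℝ} (h : S.Line u d s d' s' r)
    (h' : S.Step u d' s' d'' s'') : S.Line u d s d'' s'' (r * S.rat (S.opp d'')) := by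
  induction h with
  | one h => exact Line.cons h (Line.one h')
  | cons h _ ih =>
    rw [mul_assoc]
    exact Line.cons h (ih h')

/-- Along a chain everything stays on the right side, and the chain gives a line. -/
theorem Chain.line {u Z : ℂ} {d₀ : D} {c₀ : ℝ} {P₀ Q₀ : ℂ} (hc : 0 < c₀)
    (hPQ : Q₀ - P₀ = (c₀ : ℂ) * S.vec d₀) (hP : 0 < det u (P₀ - Z)) (hQ : det u (Q₀ - Z) < 0)
    {d : D} {c : ℝ} {P Q : ℂ} (h : S.Chain u Z d₀ c₀ P₀ Q₀ d c P Q) :
    0 < c ∧ Q - P = (c : ℂ) * S.vec d ∧ 0 < det u (P - Z) ∧ det u (Q - Z) < 0 ∧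
      ((d = d₀ ∧ c = c₀ ∧ P = P₀ ∧ Q = Q₀) ∨
        S.Line u d₀ (xpos u Z P₀ Q₀) d (xpos u Z P Q) (c₀ / c)) := by
  induction h with
  | refl => exact ⟨hc, hPQ, hP, hQ, Or.inl ⟨rfl, rfl, rfl, rfl⟩⟩
  | @left d c P Q h d' c' R hd hc' hR hs ih =>
    obtain ⟨i1, i2, i3, i4, i5⟩ := ih
    have hr := S.rat_pos (S.nxt d)
    have hcp : 0 < c' := (mul_pos_iff_of_pos_right hr).mp (by rw [hc']; exact i1)
    refine ⟨hcp, ?_, hs, i4, Or.inr ?_⟩
    · rw [hR, hd, S.glue, ← hc']
      push_cast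
      ring
    · have hstep := step_left i1 i2 i3 i4 hR hs
      rw [← hd] at hstep
      have e : S.rat (S.opp d') = c / c' := by
        rw [hd, S.opp_opp, ← hc']
        field_simp
      rcases i5 with ⟨rfl, rfl, rfl, rfl⟩ | i5
      · rw [← e]
        exact Line.one hstep
      · have := i5.snoc hstep
        rw [e] at this
        have e2 : c₀ / c * (c / c') = c₀ / c' := by field_simp
        rwa [e2] at this
  | @right d c P Q h d' c' R hd hc' hR hs ih =>
    obtain ⟨i1, i2, i3, i4, i5⟩ := ih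
    have hr := S.rat_pos (S.nxt (S.nxt d))
    have hcp : 0 < c' := (mul_pos_iff_of_pos_right hr).mp (by rw [hc']; exact i1)
    refine ⟨hcp, ?_, i3, hs, Or.inr ?_⟩
    · have hw := S.vec_nxt_nxt d
      have e : R - P = -((c : ℂ) * S.vec (S.nxt (S.nxt d))) := by
        rw [hR, hw]
        linear_combination i2
      rw [e, hd, S.glue, ← hc']
      push_cast
      ring
    · have hstep := step_right i1 i2 i3 i4 hR hs
      rw [← hd] at hstep
      have e : S.rat (S.opp d') = c / c' := by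
        rw [hd, S.opp_opp, ← hc']
        field_simp
      rcases i5 with ⟨rfl, rfl, rfl, rfl⟩ | i5
      · rw [← e]
        exact Line.one hstep
      · have := i5.snoc hstep
        rw [e] at this
        have e2 : c₀ / c * (c / c') = c₀ / c' := by field_simp
        rwa [e2] at this

/-- The closing criterion: if a chain comes back to its first side and the dilation
`X ↦ a * X + b` maps the first state to the last state and the line to itself, then `a = 1` provided
that all cylinders are flat. -/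
theorem Chain.closed (hF : S.AllCylindersFlat) {u Z : ℂ} {d : D} {c : ℝ} {P Q : ℂ} (hc : 0 < c)
    (hPQ : Q - P = (c : ℂ) * S.vec d) (hP : 0 < det u (P - Z)) (hQ : det u (Q - Z) < 0)
    {c' : ℝ} {P' Q' : ℂ} (h : S.Chain u Z d c P Q d c' P' Q') {a : ℝ} {b : ℂ}
    (hP' : P' = (a : ℂ) * P + b) (hQ' : Q' = (a : ℂ) * Q + b)
    (hZ : det u ((a : ℂ) * Z + b - Z) = 0) : a = 1 := by
  obtain ⟨i1, i2, i3, i4, i5⟩ := h.line hc hPQ hP hQ
  have hca : c' = a * c := by
    have h1 : ((c' : ℝ) : ℂ) * S.vec d = ((a * c : ℝ) : ℂ) * S.vec d := by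
      rw [← i2, hP', hQ']
      push_cast
      linear_combination (a : ℂ) * hPQ
    exact_mod_cast mul_right_cancel₀ (S.vec_ne d) h1
  have ha : 0 < a := (mul_pos_iff_of_pos_right hc).mp (by rw [← hca]; exact i1)
  have key : ∀ X : ℂ, det u ((a : ℂ) * X + b - Z) = a * det u (X - Z) := by
    intro X
    rw [show (a : ℂ) * X + b - Z = (a : ℂ) * (X - Z) + ((a : ℂ) * Z + b - Z) by ring,
      det_add_right, det_smul_right, hZ, add_zero]
  have hx : xpos u Z P' Q' = xpos u Z P Q := by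
    unfold xpos
    rw [hP', hQ', key, key, ← mul_sub, mul_div_mul_left _ _ ha.ne']
  rcases i5 with ⟨_, h2, _, _⟩ | i5
  · rw [h2] at hca
    have : (a - 1) * c = 0 := by linarith
    rcases mul_eq_zero.mp this with h3 | h3
    · linarith
    · exact absurd h3 hc.ne'
  · rw [hx] at i5
    have h3 := hF _ _ _ _ i5
    rw [hca] at h3
    have h4 : c / (a * c) = a⁻¹ := by field_simp
    rw [h4] at h3
    exact inv_eq_one.mp h3

end Surface

end MP28dde8T
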