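import Mathlib

/-!
# Triangulated dilation surfaces

A closed dilation surface with a geodesic triangulation whose vertices are the singular points is
described by the finite set `D` of the sides of its triangles.
-/

namespace MP28dde8T

open Finset

/-- The determinant of two vectors of the plane. -/
def det (a b : ℂ) : ℝ := a.re * b.im - a.im * b.re

/-- A closed connected surface obtained from finitely many triangles of the complex plane by gluing
their sides in pairs by dilations `z ↦ a z + b`, `a > 0`. The elements of `D` are the sides of the
triangles; every side is oriented so that its triangle is on the left. -/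
structure Surface (D : Type) [Fintype D] [DecidableEq D] where
  /-- the next side of the same triangle, in counterclockwise order -/
  nxt : Equiv.Perm D
  /-- the side to which a side is glued -/
  opp : Equiv.Perm D
  /-- the side, as a vector in the chart of its triangle -/
  vec : D → ℂ
  /-- the factor of the dilation which glues the side `d` to the side `opp d` -/
  rat : D → ℝ
  nxt_nxt_nxt : ∀ d, nxt (nxt (nxt d)) = d
  opp_opp : ∀ d, opp (opp d) = d
  closed : ∀ d, vec d + vec (nxt d) + vec (nxt (nxt d)) = 0
  ccw : ∀ d, 0 < det (vec d) (vec (nxt d))
  rat_pos : ∀ d, 0 < rat d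
  glue : ∀ d, vec (opp d) = -((rat d : ℂ) * vec d)
  connected : ∀ X : Set D, X.Nonempty → (∀ d ∈ X, nxt d ∈ X ∧ opp d ∈ X) → X = Set.univ

namespace Surface

variable {D : Type} [Fintype D] [DecidableEq D] (S : Surface D)

/-- The next side with the same initial point, in counterclockwise order around this point. -/
def rot : Equiv.Perm D := (S.nxt.trans S.nxt).trans S.opp

/-- The angle of the triangle of `d` at the initial point of `d` (from `d` to `rot d`). -/
noncomputable def ang (d : D) : ℝ := Complex.arg (S.vec (S.rot d) / S.vec d)

/-- The sides with the same initial point as `d`. -/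
noncomputable def star (d : D) : Finset D := by
  classical exact univ.filter (fun e => S.rot.SameCycle d e)

/-- `S` is a dilation surface: the linear holonomy around every vertex is trivial, and the cone angle
of every vertex (a multiple of `2 * π`) is at least `4 * π`. -/
structure IsDilationSurface : Prop where
  holonomy : ∀ d, ∏ e ∈ S.star d, S.rat (S.nxt (S.nxt e)) = 1
  cone : ∀ d, 4 * Real.pi ≤ ∑ e ∈ S.star d, S.ang e

/-- The Euler characteristic: the number of vertices (classes of sides with the same initial point)
minus the number of edges plus the number of triangles. -/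
noncomputable def eulerChar : ℚ :=
  (Nat.card (Quotient (Equiv.Perm.SameCycle.setoid S.rot)) : ℚ) - (Fintype.card D : ℚ) / 2
    + (Fintype.card D : ℚ) / 3

/-- `Step u d s d' s'`: the straight line which enters the triangle of `d` through the point of `d`
with relative position `s` and has the direction `u` leaves this triangle through the side
`opp d'`, and so enters the triangle of `d'` through the point of `d'` with relative position
`s'`. -/
def Step (u : ℂ) (d : D) (s : ℝ) (d' : D) (s' : ℝ) : Prop :=
  0 < s ∧ s < 1 ∧ 0 < s' ∧ s' < 1 ∧
    ((S.opp d' = S.nxt d ∧ ∃ r : ℝ, 0 < r ∧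
        (S.vec d + ((1 - s' : ℝ) : ℂ) * S.vec (S.nxt d)) - (s : ℂ) * S.vec d = (r : ℂ) * u) ∨
     (S.opp d' = S.nxt (S.nxt d) ∧ ∃ r : ℝ, 0 < r ∧
        -((s' : ℂ) * S.vec (S.nxt (S.nxt d))) - (s : ℂ) * S.vec d = (r : ℂ) * u))

/-- `Line u d s d' s' r`: the straight line of direction `u` from the point with relative position
`s` of the side `d` through some triangles to the point with relative position `s'` of the side
`d'`; it meets no vertex. `r` is the product of the factors of the gluings at its crossings. -/
inductive Line (u : ℂ) : D → ℝ → D → ℝ → ℝ → Prop
  | one {d : D} {s : ℝ} {d' : D} {s' : ℝ} (h : S.Step u d s d' s') :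
      Line u d s d' s' (S.rat (S.opp d'))
  | cons {d : D} {s : ℝ} {d' : D} {s' : ℝ} {d'' : D} {s'' r : ℝ} (h : S.Step u d s d' s')
      (h' : Line u d' s' d'' s'' r) : Line u d s d'' s'' (S.rat (S.opp d') * r)

/-- All closed geodesics have trivial linear holonomy, i.e. all cylinders are flat. -/
def AllCylindersFlat : Prop :=
  ∀ (u : ℂ) (d : D) (s r : ℝ), S.Line u d s d s r → r = 1

/-- `S` is a translation surface: after rescaling the charts of the triangles all gluings are
translations. -/
def IsTranslation : Prop :=
  ∃ c : D → ℝ, (∀ d, 0 < c d) ∧ (∀ d, c (S.nxt d) = c d) ∧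
    ∀ d, (c (S.opp d) : ℂ) * S.vec (S.opp d) = -((c d : ℂ) * S.vec d)

end Surface

end MP28dde8T
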