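import Pool.Agent.Lib.MP_28dde8_gt.Tri.T4b

/-! # Row G1: choice of a line -/

namespace MP28dde8T

open Finset

/-- Row G1. The line through `z * E` with direction `u = H + j * E + G + (a - 1) * z * E` crosses the
segment from `H + j * E` to `H + (j + 1) * E`.

Proof. Put `h₁ = det E H`, `h₃ = det E G`. `det u (H + j * E - z * E) =
det G H - j * h₃ + z * (h₃ + a * h₁)`, and the other determinant is this minus `h₁ + h₃`. Take
`j = ⌊det G H / h₃⌋` and `z = h₁ / (h₃ + a * h₁ + h₁)`. -/
theorem exists_line {E H G : ℂ} {a : ℝ} (ha : 0 < a) (hH : 0 < det E H) (hG : 0 < det E G) :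
    ∃ (j : ℤ) (z : ℝ), 0 < z ∧ z < 1 ∧
      0 < det (H + (j : ℂ) * E + G + (((a - 1) * z : ℝ) : ℂ) * E) (H + (j : ℂ) * E - (z : ℂ) * E) ∧
      det (H + (j : ℂ) * E + G + (((a - 1) * z : ℝ) : ℂ) * E)
        (H + ((j : ℂ) + 1) * E - (z : ℂ) * E) < 0 := by
  have key : ∀ (j : ℤ) (z : ℝ),
      det (H + (j : ℂ) * E + G + (((a - 1) * z : ℝ) : ℂ) * E) (H + (j : ℂ) * E - (z : ℂ) * E) =
        det G H - j * det E G + z * (det E G + a * det E H) ∧
      det (H + (j : ℂ) * E + G + (((a - 1) * z : ℝ) : ℂ) * E)
        (H + ((j : ℂ) + 1) * E - (z : ℂ) * E) =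
        det G H - j * det E G + z * (det E G + a * det E H) - (det E H + det E G) := by
    intro j z
    constructor
    · simp only [det, Complex.add_re, Complex.add_im, Complex.sub_re, Complex.sub_im,
        Complex.mul_re, Complex.mul_im, Complex.ofReal_re, Complex.ofReal_im, Complex.intCast_re,
        Complex.intCast_im]
      ring
    · simp only [det, Complex.add_re, Complex.add_im, Complex.sub_re, Complex.sub_im,
        Complex.mul_re, Complex.mul_im, Complex.ofReal_re, Complex.ofReal_im, Complex.intCast_re,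
        Complex.intCast_im, Complex.one_re, Complex.one_im]
      ring
  have hd : 0 < det E G + a * det E H + det E H := by positivity
  refine ⟨⌊det G H / det E G⌋, det E H / (det E G + a * det E H + det E H), ?_, ?_, ?_, ?_⟩
  · positivity
  · rw [div_lt_one hd]
    have := mul_pos ha hH
    linarith
  · rw [(key _ _).1]
    have h1 : (⌊det G H / det E G⌋ : ℝ) ≤ det G H / det E G := Int.floor_le _
    rw [le_div_iff₀ hG] at h1
    have h2 : 0 < det E H / (det E G + a * det E H + det E H) * (det E G + a * det E H) := by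
      positivity
    linarith
  · rw [(key _ _).2]
    have h1 : det G H / det E G < (⌊det G H / det E G⌋ : ℝ) + 1 := Int.lt_floor_add_one _
    rw [div_lt_iff₀ hG] at h1
    have h2 : det E H / (det E G + a * det E H + det E H) * (det E G + a * det E H) < det E H := by
      rw [div_mul_eq_mul_div, div_lt_iff₀ hd]
      nlinarith [mul_pos hH hH]
    linarith

end MP28dde8T
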