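import Pool.Agent.Lib.MP_28dde8_gt.Tri.G1

/-! # Row G2: a line through a flat cylinder made of two triangles -/

namespace MP28dde8T

open Finset

namespace Surface

variable {D : Type} [Fintype D] [DecidableEq D] {S : Surface D}

/-- Row G2. The triangles of `x` and of `p` share two sides; they form a flat cylinder. `E = V x`,
`H = V (rot x)`: in the chart at the initial point of `x` the triangle of `x` is `0, E, H` and its
translates by `m * E`, the triangle of `p` is `E, H + E, H` and its translates. The line enters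
through the segment from `0` to `E` and leaves through the segment from `H + j * E` to
`H + (j + 1) * E`.

Proof. `sc (rot x) * rat (nxt x) = sc x = sc (rot x) * rat (nxt (nxt x))` is the scale of the triangle
of `p`. States: `α`: `x`, `sc x`, `0`, `E`. `β m`: `nxt p`, `sc (rot x)`, `H + m * E`, `(m + 1) * E`.
`γ m`: `nxt (nxt x)`, `sc x`, `H + m * E`, `m * E`. `δ m`: `opp p`, `c'`, `H + m * E`,
`H + (m + 1) * E`. If `j ≥ 0`: `α, β 0, γ 1, β 1, ..., γ j, β j, δ j` (from `β m`: left to
`γ (m + 1)`, right to `δ m`; from `γ m`: right to `β m`). If `j < 0`: `β' m`: `nxt (nxt p)`,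
`sc (rot x)`, `m * E`, `H + m * E`; `γ' m`: `nxt x`, `sc x`, `(m + 1) * E`, `H + m * E`;
`α, β' 0, γ' (-1), β' (-1), ..., γ' (j + 1), β' (j + 1), δ j`. Positions: `det u E < 0`, so
translates by positive (negative) multiples of `E` of points on the right (left) are on the right
(left). -/
theorem chain_cylinder {sc : D → ℝ} (h : S.IsScale sc) {x p : D} (hp : S.Pair x p)
    (hx : sc (S.nxt x) = sc x) {E H : ℂ} (hE : E = S.V sc x) (hH : H = S.V sc (S.rot x)) {u Z : ℂ}
    {j : ℤ} (h0 : 0 < det u (0 - Z)) (h1 : det u (E - Z) < 0)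
    (h2 : 0 < det u (H + (j : ℂ) * E - Z)) (h3 : det u (H + ((j : ℂ) + 1) * E - Z) < 0) :
    ∃ c' : ℝ, c' * S.rat p = sc (S.rot x) ∧
      S.Chain u Z x (sc x) 0 E (S.opp p) c' (H + (j : ℂ) * E) (H + ((j : ℂ) + 1) * E) := by
  obtain ⟨hp1, hp2, hp3⟩ := hp
  have hrx : S.rot x = S.nxt (S.nxt p) := by rw [S.rot_apply, hp3]
  obtain ⟨s, hs⟩ : ∃ s : ℝ, s = sc x := ⟨_, rfl⟩
  obtain ⟨c₁, hc₁⟩ : ∃ c₁ : ℝ, c₁ = sc (S.rot x) := ⟨_, rfl⟩
  have hrp := S.rat_pos p
  -- the scales
  have e1 : c₁ * S.rat (S.nxt (S.nxt x)) = s := by rw [hc₁, hs]; exact h.rot x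
  have e2 : c₁ * S.rat (S.nxt x) = s := by
    have k1 := h.rot (S.nxt (S.nxt p))
    rw [S.rot_apply, S.nxt_nxt_nxt, ← hp2, S.opp_opp] at k1
    rw [hp2, ← hrx, hx, ← hs, ← hc₁, ← hp2] at k1
    have k2 := S.rat_opp (S.nxt x)
    have k3 : c₁ * S.rat (S.nxt x) = s * (S.rat (S.opp (S.nxt x)) * S.rat (S.nxt x)) := by
      rw [← k1]; ring
    rw [k3, k2, mul_one]
  have e3 : s * S.rat (S.nxt (S.nxt p)) = c₁ := by
    have k2 := S.rat_opp (S.nxt (S.nxt x))
    rw [← hp3, ← e1, mul_assoc, mul_comm (S.rat (S.nxt (S.nxt x))), k2, mul_one]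
  have e4 : s * S.rat (S.nxt p) = c₁ := by
    have k2 := S.rat_opp (S.nxt x)
    rw [← hp2, ← e2, mul_assoc, mul_comm (S.rat (S.nxt x)), k2, mul_one]
  -- the vectors
  have v1 : (s : ℂ) * S.vec x = E := by rw [hE, hs]; rfl
  have v3 : (s : ℂ) * S.vec (S.nxt (S.nxt x)) = -H := by
    rw [hH, h.V_rot, hs]; ring
  have v2 : (s : ℂ) * S.vec (S.nxt x) = H - E := by
    have := S.closed x
    linear_combination (s : ℂ) * this - v1 - v3
  have v4 : (c₁ : ℂ) * S.vec (S.nxt p) = E - H := by
    have k1 := S.glue (S.nxt x)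
    rw [hp2] at k1
    rw [k1]
    have k2 : (c₁ : ℂ) * (S.rat (S.nxt x) : ℂ) = (s : ℂ) := by exact_mod_cast e2
    linear_combination (-(S.vec (S.nxt x))) * k2 - v2
  have v5 : (c₁ : ℂ) * S.vec (S.nxt (S.nxt p)) = H := by
    have k1 := S.glue (S.nxt (S.nxt x))
    rw [hp3] at k1
    rw [k1]
    have k2 : (c₁ : ℂ) * (S.rat (S.nxt (S.nxt x)) : ℂ) = (s : ℂ) := by exact_mod_cast e1
    linear_combination (-(S.vec (S.nxt (S.nxt x)))) * k2 - v3
  have v6 : (c₁ : ℂ) * S.vec p = -E := by
    have := S.closed p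
    linear_combination (c₁ : ℂ) * this - v4 - v5
  -- the determinants
  have hdE : det u E < 0 := by
    rw [det_sub_right] at h0 h1
    rw [det_zero_right] at h0
    linarith
  have hdm : ∀ (X : ℂ) (r : ℝ), det u (X + (r : ℂ) * E - Z) = det u (X - Z) + r * det u E := by
    intro X r
    rw [show X + (r : ℂ) * E - Z = (X - Z) + (r : ℂ) * E by ring, det_add_right, det_smul_right]
  obtain ⟨c', hc'⟩ : ∃ c' : ℝ, c' * S.rat p = c₁ := ⟨c₁ / S.rat p, by field_simp⟩
  refine ⟨c', by rw [hc', hc₁], ?_⟩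
  rw [← hs]
  rcases j with n | n
  · -- `j = n`
    have hchain : ∀ m : ℕ, m ≤ n → S.Chain u Z x s 0 E (S.nxt p) c₁ (H + (m : ℂ) * E)
        (((m : ℂ) + 1) * E) := by
      have hleft : ∀ m : ℕ, m ≤ n → 0 < det u (H + (m : ℂ) * E - Z) := by
        intro m hm
        have k1 := hdm H m
        have k2 := hdm H n
        have k3 : det u (H + (n : ℂ) * E - Z) = det u (H + (((Int.ofNat n : ℤ)) : ℂ) * E - Z) := by
          simp
        have hmn : (m : ℝ) ≤ n := by exact_mod_cast hm
        rw [← k3] at h2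
        push_cast at k1 k2
        rw [k2] at h2
        rw [k1]
        nlinarith
      intro m
      induction m with
      | zero =>
        intro _
        have k1 := hleft 0 (Nat.zero_le n)
        have k2 : S.Chain u Z x s 0 E (S.nxt p) c₁ H E := by
          refine Chain.left Chain.refl hp2.symm e2 ?_ ?_
          · rw [v2]; ring
          · simpa using k1
        simpa using k2
      | succ m ih =>
        intro hm
        have k1 := ih (by omega)
        have k2 := hleft (m + 1) hm
        have k3 : S.Chain u Z x s 0 E (S.nxt (S.nxt x)) s (H + ((m : ℂ) + 1) * E)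
            (((m : ℂ) + 1) * E) := by
          refine Chain.left k1 ?_ e3 ?_ ?_
          · rw [← hp3, S.opp_opp]
          · rw [v5]; ring
          · push_cast at k2
            exact k2
        have k4 : S.Chain u Z x s 0 E (S.nxt p) c₁ (H + ((m : ℂ) + 1) * E)
            (((m : ℂ) + 1 + 1) * E) := by
          refine Chain.right k3 ?_ ?_ ?_ ?_
          · rw [S.nxt_nxt_nxt, hp2]
          · rw [S.nxt_nxt_nxt]; exact e2
          · rw [S.nxt_nxt_nxt, v1]; ring
          · have k5 := hdm E (m + 1)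
            have k6 : E + (((m : ℝ) + 1 : ℝ) : ℂ) * E - Z = ((m : ℂ) + 1 + 1) * E - Z := by
              push_cast; ring
            rw [k6] at k5
            rw [k5]
            have : (0 : ℝ) ≤ m := Nat.cast_nonneg m
            nlinarith
        push_cast
        exact k4
    have k1 := hchain n le_rfl
    simp only [Int.ofNat_eq_natCast, Int.cast_natCast] at h3 ⊢
    refine Chain.right k1 ?_ ?_ ?_ h3
    · rw [S.nxt_nxt_nxt]
    · rw [S.nxt_nxt_nxt]; exact hc'
    · rw [v5]; ring
  · -- `j = -(n + 1)`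
    have hj : ((Int.negSucc n : ℤ) : ℂ) = -((n : ℂ) + 1) := by
      rw [Int.cast_negSucc]; push_cast; ring
    rw [hj] at h2 h3 ⊢
    have hright : ∀ m : ℕ, m ≤ n → det u (H + (-(m : ℂ)) * E - Z) < 0 := by
      intro m hm
      have k1 := hdm H (-(m : ℝ))
      have k2 := hdm H (-(n : ℝ))
      have hmn : (m : ℝ) ≤ n := by exact_mod_cast hm
      have k3 : H + ((-(n : ℝ) : ℝ) : ℂ) * E - Z = H + (-((n : ℂ) + 1) + 1) * E - Z := by
        push_cast; ring
      rw [k3] at k2
      rw [k2] at h3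
      push_cast at k1
      rw [k1]
      nlinarith
    have hchain : ∀ m : ℕ, m ≤ n → S.Chain u Z x s 0 E (S.nxt (S.nxt p)) c₁ ((-(m : ℂ)) * E)
        (H + (-(m : ℂ)) * E) := by
      intro m
      induction m with
      | zero =>
        intro _
        have k1 := hright 0 (Nat.zero_le n)
        have k2 : S.Chain u Z x s 0 E (S.nxt (S.nxt p)) c₁ 0 H := by
          refine Chain.right Chain.refl hp3.symm e1 ?_ ?_
          · rw [v2]; ring
          · simpa using k1
        simpa using k2
      | succ m ih =>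
        intro hm
        have k1 := ih (by omega)
        have k2 := hright (m + 1) hm
        have k3 : S.Chain u Z x s 0 E (S.nxt x) s ((-(m : ℂ)) * E) (H + (-((m : ℂ) + 1)) * E) := by
          refine Chain.right k1 ?_ ?_ ?_ ?_
          · rw [S.nxt_nxt_nxt, ← hp2, S.opp_opp]
          · rw [S.nxt_nxt_nxt]; exact e4
          · rw [S.nxt_nxt_nxt, v6]; ring
          · push_cast at k2
            exact k2
        have k4 : S.Chain u Z x s 0 E (S.nxt (S.nxt p)) c₁ ((-((m : ℂ) + 1)) * E)
            (H + (-((m : ℂ) + 1)) * E) := by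
          refine Chain.left k3 ?_ e1 ?_ ?_
          · rw [hp3]
          · rw [v3]; ring
          · have k5 := hdm 0 (-((m : ℝ) + 1))
            have k6 : 0 + ((-((m : ℝ) + 1) : ℝ) : ℂ) * E - Z = (-((m : ℂ) + 1)) * E - Z := by
              push_cast; ring
            rw [k6] at k5
            rw [k5]
            have : (0 : ℝ) ≤ m := Nat.cast_nonneg m
            nlinarith
        push_cast
        exact k4
    have k1 := hchain n le_rfl
    have k2 : S.Chain u Z x s 0 E (S.opp p) c' (H + (-((n : ℂ) + 1)) * E)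
        (H + (-(n : ℂ)) * E) := by
      refine Chain.left k1 ?_ ?_ ?_ h2
      · rw [S.nxt_nxt_nxt]
      · rw [S.nxt_nxt_nxt]; exact hc'
      · rw [S.nxt_nxt_nxt, v6]; ring
    have k3 : (-((n : ℂ) + 1) + 1) = -(n : ℂ) := by ring
    rw [k3]
    exact k2

end Surface

end MP28dde8T
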