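import Pool.Agent.Lib.MP_28dde8_gt.Tri.AN2

/-! # Row G3: fans -/

namespace MP28dde8T

open Finset

namespace Surface

variable {D : Type} [Fintype D] [DecidableEq D] {S : Surface D}

/-- Row G3. Turning counterclockwise around a vertex at the point `A`, on the left of the line. -/
theorem chain_ccw {sc : D → ℝ} (h : S.IsScale sc) {u Z A : ℂ} {a : ℝ} (b : D) (k : ℕ)
    (hr : ∀ i, 0 < i → i ≤ k → det u (A + (a : ℂ) * S.V sc ((S.rot ^ i) b) - Z) < 0) :
    S.Chain u Z b (a * sc b) A (A + (a : ℂ) * S.V sc b)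
      ((S.rot ^ k) b) (a * sc ((S.rot ^ k) b)) A (A + (a : ℂ) * S.V sc ((S.rot ^ k) b)) := by
  induction k with
  | zero => exact Chain.refl
  | succ k ih =>
    have h1 := ih fun i h0 hi => hr i h0 (by omega)
    have hk : (S.rot ^ (k + 1)) b = S.rot ((S.rot ^ k) b) := by
      rw [pow_succ']
      rfl
    have hs := hr (k + 1) (by omega) le_rfl
    rw [hk] at hs ⊢
    generalize (S.rot ^ k) b = e at h1 hs ⊢
    refine h1.right (S.rot_apply e) ?_ ?_ hs
    · rw [mul_assoc, h.rot]
    · have h2 := h.V_rot_sub e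
      push_cast
      linear_combination (a : ℂ) * h2

/-- Row G3. Turning clockwise around a vertex at the point `A`, on the right of the line. The state
`opp (rot b)` belongs to the triangle of `b`. From the state `opp ((rot ^ (i + 1)) b)` the chain turns
left; `R = A + a * V ((rot ^ i) b)`. -/
theorem chain_cw {sc : D → ℝ} (h : S.IsScale sc) {u Z A : ℂ} {a : ℝ} (b : D) (k : ℕ)
    (hl : ∀ i, 0 < i → i ≤ k → 0 < det u (A + (a : ℂ) * S.V sc ((S.rot ^ i) b) - Z)) :
    S.Chain u Z (S.opp ((S.rot ^ (k + 1)) b)) (a * sc ((S.rot ^ k) b))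
      (A + (a : ℂ) * S.V sc ((S.rot ^ (k + 1)) b)) A
      (S.opp (S.rot b)) (a * sc b) (A + (a : ℂ) * S.V sc (S.rot b)) A := by
  induction k with
  | zero => exact Chain.refl
  | succ k ih =>
    have h1 := ih fun i h0 hi => hl i h0 (by omega)
    have hs := hl (k + 1) (by omega) le_rfl
    have hk : (S.rot ^ (k + 1)) b = S.rot ((S.rot ^ k) b) := by
      rw [pow_succ']
      rfl
    have hk2 : (S.rot ^ (k + 1 + 1)) b = S.rot (S.rot ((S.rot ^ k) b)) := by
      rw [pow_succ', pow_succ']
      rfl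
    rw [hk2, hk]
    rw [hk] at h1 hs
    generalize (S.rot ^ k) b = e at h1 hs ⊢
    have hn : S.nxt (S.opp (S.rot (S.rot e))) = S.rot e := by
      rw [S.opp_rot, S.nxt_nxt_nxt]
    refine Chain.trans (Chain.left Chain.refl (d' := S.opp (S.rot e)) (c' := a * sc e)
      (R := A + (a : ℂ) * S.V sc (S.rot e)) ?_ ?_ ?_ hs) h1
    · rw [hn]
    · rw [hn]
      have h2 := h.rot e
      have h3 := S.rat_opp (S.rot e)
      rw [S.opp_rot] at h3
      rw [← h2]
      linear_combination (a * sc (S.rot e)) * h3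
    · rw [hn, V]
      push_cast
      ring

end Surface

end MP28dde8T
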