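import Pool.Agent.Lib.MP_28dde8_gt.Tri.G2

/-! # Row G4a: a closed geodesic, first case -/

namespace MP28dde8T

open Finset

namespace Surface

variable {D : Type} [Fintype D] [DecidableEq D] {S : Surface D}

/-- the points of the fan before the last one -/
private theorem G4a_fan {sc : D → ℝ} (h : S.IsScale sc) {x g : D} {k : ℕ}
    (hneg : det (S.V sc x) (S.V sc g) < 0)
    (hh : ∀ i < k, det (S.V sc x) (S.V sc ((S.rot ^ i) g)) = det (S.V sc x) (S.V sc g)) :
    ∀ i : ℕ, i + 1 < k → ∃ t : ℝ, 0 ≤ t ∧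
      S.V sc ((S.rot ^ i) (S.rot g)) = S.V sc (S.rot g) + (t : ℂ) * S.V sc x := by
  intro i
  induction i with
  | zero =>
    intro _
    exact ⟨0, le_rfl, by simp⟩
  | succ i ih =>
    intro hi
    obtain ⟨t, ht, he⟩ := ih (by omega)
    have e1 : (S.rot ^ i) (S.rot g) = (S.rot ^ (i + 1)) g := by
      rw [pow_succ, Equiv.Perm.mul_apply]
    have e2 : (S.rot ^ (i + 1)) (S.rot g) = (S.rot ^ (i + 2)) g := by
      rw [pow_succ (S.rot) (i + 1), Equiv.Perm.mul_apply]
    have e3 : (S.rot ^ (i + 2)) g = S.rot ((S.rot ^ (i + 1)) g) := by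
      rw [pow_succ' (S.rot) (i + 1), Equiv.Perm.mul_apply]
    have h1 := hh (i + 1) (by omega)
    have h2 := hh (i + 2) (by omega)
    rw [e2]
    rw [e1] at he
    obtain ⟨r, hr⟩ := exists_smul_of_det (a := S.V sc x)
      (b := S.V sc ((S.rot ^ (i + 2)) g) - S.V sc ((S.rot ^ (i + 1)) g)) (h.V_ne x) (by
        rw [det_sub_right, h1, h2, sub_self])
    have hv : S.V sc ((S.rot ^ (i + 2)) g) =
        S.V sc ((S.rot ^ (i + 1)) g) + (r : ℂ) * S.V sc x := by
      rw [← hr]
      ring
    have h3 := h.det_rot_pos ((S.rot ^ (i + 1)) g)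
    rw [← e3, hv, det_add_right, det_self, det_smul_right, zero_add, det_swap, h1] at h3
    have hrp : 0 < r := by
      by_contra hcon
      push Not at hcon
      nlinarith
    refine ⟨t + r, by linarith, ?_⟩
    rw [hv, he]
    push_cast
    ring

/-- Row G4a, first case: the triangle of `opp p` and the triangle of `opp x` are in a fan around the
initial point of `x`; its sides are `(rot ^ i) g`, `0 ≤ i ≤ k`, and all but the last one end on a
parallel to `x`.

Proof. `E = V x`, `H = V (rot x)`, `c' = sc (rot x) / rat p`, `a = c' / sc g`, `G = -(a * V g)`,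
`j`, `z` from `exists_line`, `Z = z * E`, `A = H + j * E + G`, `u = A + a * Z - Z`. `chain_cylinder`;
then a left turn (`R = A`) from `opp p` to `rot g`; then `chain_ccw`. `a * sc g * vec (opp p) = E`.
`V ((rot ^ (i + 1)) g) - V ((rot ^ i) g)` is a positive multiple of `E` for `i + 1 < k`
(`IsScale.det_rot_pos`, `det E (V g) < 0`). The last state is `x`, `a * sc x`, `A`, `A + a * E`; apply
`Chain.closed` with `b = A`. -/
theorem geodesic_left (hF : S.AllCylindersFlat) {sc : D → ℝ} (h : S.IsScale sc) {x p g : D}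
    (hp : S.Pair x p) (hx : sc (S.nxt x) = sc x) (hg : g = S.nxt (S.nxt (S.opp p))) {k : ℕ}
    (hk : 1 < k) (hgk : (S.rot ^ k) g = x) (hneg : det (S.V sc x) (S.V sc g) < 0)
    (hh : ∀ i < k, det (S.V sc x) (S.V sc ((S.rot ^ i) g)) = det (S.V sc x) (S.V sc g)) :
    sc (S.rot x) = sc g * S.rat p := by
  have hrp := S.rat_pos p
  have hsg := h.pos g
  have hsr := h.pos (S.rot x)
  have hfan := G4a_fan h hneg hh
  set a : ℝ := sc (S.rot x) / S.rat p / sc g with ha
  have hap : 0 < a := by positivity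
  have hasg : a * sc g = sc (S.rot x) / S.rat p := by
    rw [ha]
    field_simp
  -- the triangle of `g`
  have hg1 : S.nxt g = S.opp p := by rw [hg, S.nxt_nxt_nxt]
  have hg2 : S.rot g = S.opp (S.nxt (S.opp p)) := by rw [S.rot_apply, hg1]
  set E : ℂ := S.V sc x with hE
  set H : ℂ := S.V sc (S.rot x) with hH
  have hHpos : 0 < det E H := h.det_rot_pos x
  have hGpos : 0 < det E (-((a : ℂ) * S.V sc g)) := by
    rw [det_neg_right, det_smul_right]
    nlinarith
  obtain ⟨j, z, hz0, hz1, hl2, hl3⟩ := exists_line hap hHpos hGpos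
  set Z : ℂ := (z : ℂ) * E with hZ
  set A : ℂ := H + (j : ℂ) * E - (a : ℂ) * S.V sc g with hA
  have hu : H + (j : ℂ) * E + -((a : ℂ) * S.V sc g) + (((a - 1) * z : ℝ) : ℂ) * E =
      A + (a : ℂ) * Z - Z := by
    rw [hA, hZ]
    push_cast
    ring
  rw [hu] at hl2 hl3
  set u : ℂ := A + (a : ℂ) * Z - Z with hudef
  have huE : det u E < 0 := by
    have hj : det E ((j : ℂ) * E) = 0 := by
      have e : ((j : ℂ)) = ((j : ℝ) : ℂ) := by push_cast; rfl
      rw [e, det_smul_right, det_self, mul_zero]
    rw [det_swap, ← hu, det_add_right, det_add_right, det_add_right, hj, det_smul_right, det_self]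
    linarith
  have h0 : 0 < det u (0 - Z) := by
    rw [zero_sub, det_neg_right, hZ, det_smul_right]
    nlinarith
  have h1 : det u (E - Z) < 0 := by
    rw [hZ, det_sub_right, det_smul_right]
    nlinarith
  obtain ⟨c', hc', hch⟩ := chain_cylinder h hp hx hE hH h0 h1 hl2 hl3
  have hcc : c' = a * sc g := by
    rw [hasg, eq_div_iff hrp.ne']
    exact hc'
  rw [hcc] at hch
  -- the side `opp p`
  have hQP : E = ((a * sc g : ℝ) : ℂ) * S.vec (S.opp p) := by
    have h2 := (hch.line (h.pos x) (by rw [sub_zero, hE, V]) h0 h1).2.1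
    rw [← h2]
    ring
  have hQ : H + ((j : ℂ) + 1) * E = A + (a : ℂ) * S.V sc (S.rot g) := by
    have h2 := h.V_rot_sub g
    rw [hg1] at h2
    have h3 : (a : ℂ) * S.V sc (S.rot g) = (a : ℂ) * S.V sc g + E := by
      rw [hQP]
      push_cast
      linear_combination (a : ℂ) * h2
    rw [hA, h3]
    ring
  -- the left turn
  have hAZ : 0 < det u (A - Z) := by
    have e : A - Z = u + (a : ℂ) * (0 - Z) := by rw [hudef]; ring
    rw [e, det_add_right, det_self, det_smul_right, zero_add]
    exact mul_pos hap h0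
  have hturn := hch.left (d' := S.rot g) (c' := a * sc (S.rot g)) (R := A) hg2 (by
      have h2 := h.rot g
      rw [hg1] at h2
      rw [mul_assoc, h2]) (by
      have h2 := h.V_rot g
      rw [hg1] at h2
      rw [hQ, h2]
      push_cast
      ring) hAZ
  -- the fan
  have hk1 : (S.rot ^ (k - 1)) (S.rot g) = x := by
    have e : (S.rot ^ (k - 1)) (S.rot g) = (S.rot ^ (k - 1 + 1)) g := by
      rw [pow_succ, Equiv.Perm.mul_apply]
    rw [e, Nat.sub_add_cancel (by omega), hgk]
  have hfan2 := chain_ccw h (u := u) (Z := Z) (A := A) (a := a) (S.rot g) (k - 1) (by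
    intro i hi hik
    rcases Nat.lt_or_ge (i + 1) k with hi1 | hi1
    · obtain ⟨t, ht, he⟩ := hfan i hi1
      have e : A + (a : ℂ) * S.V sc ((S.rot ^ i) (S.rot g)) - Z =
          (H + ((j : ℂ) + 1) * E - Z) + ((a * t : ℝ) : ℂ) * E := by
        rw [he, hQ]
        push_cast
        ring
      rw [e, det_add_right, det_smul_right]
      have h5 : 0 ≤ a * t := by positivity
      nlinarith
    · have e : i = k - 1 := by omega
      rw [e, hk1, ← hE]
      have e : A + (a : ℂ) * E - Z = u + (a : ℂ) * (E - Z) := by rw [hudef]; ring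
      rw [e, det_add_right, det_self, det_smul_right, zero_add]
      nlinarith)
  rw [hk1, ← hE] at hfan2
  rw [hQ] at hturn
  have hall := hturn.trans hfan2
  have ha1 := hall.closed hF (a := a) (b := A) (h.pos x) (by rw [sub_zero, hE, V]) h0 h1
    (by ring) (by ring) (by
      have e : (a : ℂ) * Z + A - Z = u := by rw [hudef]; ring
      rw [e, det_self])
  rw [ha1, one_mul] at hasg
  rw [hasg]
  field_simp

end Surface

end MP28dde8T
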