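import Pool.Agent.Lib.MP_28dde8_gt.Tri.G4a

/-! # Row G4b: a closed geodesic, second case -/

namespace MP28dde8T

open Finset

namespace Surface

variable {D : Type} [Fintype D] [DecidableEq D] {S : Surface D}

/-- Row G4b, second case: the triangle of `opp x` and the triangle of `opp p` are in a fan around the
initial point of `opp x`; its sides are `(rot ^ i) (opp x)`, `0 ≤ i ≤ k + 1`.

Proof. As before with `G = -(a * V g) - a * E`, `A = H + j * E - a * V g`, `b = A - a * E`,
`u = b + a * Z - Z`. `chain_cylinder`; a right turn (`R = A`) from `opp p` to `opp g`; `chain_cw` to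
`opp (rot (opp x))`; a left turn with `R = A - a * E` to `x`. -/
theorem geodesic_right (hF : S.AllCylindersFlat) {sc : D → ℝ} (h : S.IsScale sc) {x p g : D}
    (hp : S.Pair x p) (hx : sc (S.nxt x) = sc x) (hx' : sc (S.nxt (S.opp x)) = sc (S.opp x))
    (hg : g = S.nxt (S.nxt (S.opp p))) {k : ℕ}
    (hk : 0 < k) (hgk : (S.rot ^ k) (S.opp x) = g) (hneg : det (S.V sc x) (S.V sc g) < 0)
    (hh : ∀ i, 0 < i → i ≤ k + 1 →
      det (S.V sc x) (S.V sc ((S.rot ^ i) (S.opp x))) = det (S.V sc x) (S.V sc g)) :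
    sc (S.rot x) = sc g * S.rat p := by
  have hgpos : 0 < sc g := h.pos g
  have hrp := S.rat_pos p
  obtain ⟨m, rfl⟩ : ∃ m, k = m + 1 := ⟨k - 1, by omega⟩
  set E : ℂ := S.V sc x with hE
  set H : ℂ := S.V sc (S.rot x) with hH
  set c0 : ℝ := sc (S.rot x) / S.rat p with hc0
  have hc0pos : 0 < c0 := div_pos (h.pos _) hrp
  set a : ℝ := c0 / sc g with ha
  have hapos : 0 < a := div_pos hc0pos hgpos
  have hasc : a * sc g = c0 := by rw [ha]; field_simp
  set G : ℂ := -((a : ℂ) * S.V sc g) - (a : ℂ) * E with hG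
  have hEH : 0 < det E H := h.det_rot_pos x
  have hEG : 0 < det E G := by
    have e1 : det E G = -(a * det E (S.V sc g)) := by
      rw [hG, det_sub_right, det_neg_right, det_smul_right, det_smul_right, det_self]
      ring
    rw [e1]
    have := mul_pos hapos (neg_pos.2 hneg)
    linarith
  obtain ⟨j, z, hz0, hz1, hl1, hl2⟩ := exists_line hapos hEH hEG
  set u : ℂ := H + (j : ℂ) * E + G + (((a - 1) * z : ℝ) : ℂ) * E with hu
  have hj : (j : ℂ) = ((j : ℝ) : ℂ) := by push_cast; rfl
  have huE : det u E < 0 := by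
    have e1 : det u E = -(det E H) - det E G := by
      rw [hu, hj, det_add_left, det_add_left, det_add_left, det_smul_left, det_smul_left,
        det_self, det_swap E H, det_swap E G]
      ring
    rw [e1]
    linarith
  have h0 : 0 < det u (0 - (z : ℂ) * E) := by
    rw [zero_sub, det_neg_right, det_smul_right]
    have := mul_pos hz0 (neg_pos.2 huE)
    linarith
  have h1 : det u (E - (z : ℂ) * E) < 0 := by
    rw [det_sub_right, det_smul_right]
    have := mul_pos (sub_pos.2 hz1) (neg_pos.2 huE)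
    linarith
  obtain ⟨c', hc', hchain⟩ := chain_cylinder h hp hx hE hH h0 h1 hl1 hl2
  have hcc : c' = c0 := by rw [hc0, eq_div_iff hrp.ne']; exact hc'
  subst hcc
  have hPQ : E - 0 = ((sc x : ℝ) : ℂ) * S.vec x := by rw [sub_zero, hE]; rfl
  obtain ⟨-, i2, -, -, -⟩ := hchain.line (h.pos x) hPQ h0 h1
  set A : ℂ := H + (j : ℂ) * E - (a : ℂ) * S.V sc g with hA
  have hVg : (a : ℂ) * S.V sc g = (c0 : ℂ) * S.vec g := by
    rw [V, ← hasc]
    push_cast
    ring
  have hvg : S.vec g = -(S.vec (S.opp p)) - S.vec (S.nxt (S.opp p)) := by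
    rw [hg, S.vec_nxt_nxt]
  have hR1 : A = (H + ((j : ℂ) + 1) * E) + (c0 : ℂ) * S.vec (S.nxt (S.opp p)) := by
    rw [hA, hVg, hvg]
    linear_combination (-1 : ℂ) * i2
  -- positions
  have hAZ : det u (A - (z : ℂ) * E) < 0 := by
    have e1 : A - (z : ℂ) * E = u + (a : ℂ) * (E - (z : ℂ) * E) := by
      rw [hA, hu, hG]
      push_cast
      ring
    rw [e1, det_add_right, det_self, det_smul_right, zero_add]
    exact mul_neg_of_pos_of_neg hapos h1
  have hRZ : 0 < det u (A - (a : ℂ) * E - (z : ℂ) * E) := by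
    have e1 : A - (a : ℂ) * E - (z : ℂ) * E = u + (a : ℂ) * (0 - (z : ℂ) * E) := by
      rw [hA, hu, hG]
      push_cast
      ring
    rw [e1, det_add_right, det_self, det_smul_right, zero_add]
    exact mul_pos hapos h0
  -- the right turn
  have hd1 : S.rot ((S.rot ^ m) (S.opp x)) = g := by
    rw [← hgk, pow_succ', Equiv.Perm.mul_apply]
  have hc1 : a * sc ((S.rot ^ m) (S.opp x)) * S.rat (S.nxt (S.nxt (S.opp p))) = c0 := by
    have e1 := h.rot ((S.rot ^ m) (S.opp x))
    rw [← S.opp_rot, hd1] at e1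
    have e2 := S.rat_opp g
    rw [← hg, ← e1]
    calc a * (sc g * S.rat (S.opp g)) * S.rat g = a * sc g * (S.rat (S.opp g) * S.rat g) := by ring
      _ = c0 := by rw [e2, mul_one, hasc]
  have chain1 := hchain.right (d' := S.opp g) (by rw [hg]) hc1 hR1 hAZ
  -- the fan
  have hfan := chain_cw h (u := u) (Z := (z : ℂ) * E) (A := A) (a := a) (S.opp x) m (by
    intro i hi0 him
    -- the sides of the fan end on a parallel to `x`
    have hE0 : E ≠ 0 := h.V_ne x
    have ht : ∀ i, 0 < i → i ≤ m + 1 → ∃ t : ℝ, S.V sc ((S.rot ^ i) (S.opp x)) =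
        S.V sc g + (t : ℂ) * E := by
      intro i hi0 him
      have e1 := hh i hi0 (by omega)
      have e2 : det E (S.V sc ((S.rot ^ i) (S.opp x)) - S.V sc g) = 0 := by
        rw [det_sub_right, e1, sub_self]
      obtain ⟨t, ht⟩ := exists_smul_of_det hE0 e2
      exact ⟨t, by rw [← ht]; ring⟩
    have hmono : ∀ n, ∀ i, 0 < i → i + n = m + 1 → ∃ t : ℝ, t ≤ 0 ∧ (0 < n → t < 0) ∧
        S.V sc ((S.rot ^ i) (S.opp x)) = S.V sc g + (t : ℂ) * E := by
      intro n
      induction n with
      | zero =>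
        intro i _ hin
        have : i = m + 1 := by omega
        subst this
        exact ⟨0, le_rfl, fun h0 => absurd h0 (lt_irrefl _), by rw [hgk]; simp⟩
      | succ n ih =>
        intro i hi0 hin
        obtain ⟨t', ht1, -, ht2⟩ := ih (i + 1) (by omega) (by omega)
        obtain ⟨t, ht3⟩ := ht i hi0 (by omega)
        have e1 := h.det_rot_pos ((S.rot ^ i) (S.opp x))
        have e0 : S.rot ((S.rot ^ i) (S.opp x)) = (S.rot ^ (i + 1)) (S.opp x) := by
          rw [pow_succ', Equiv.Perm.mul_apply]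
        rw [e0, ht2, ht3, det_add_left, det_add_right,
          det_add_right, det_self, det_smul_left, det_smul_right, det_smul_left, det_smul_right,
          det_self, det_swap E (S.V sc g)] at e1
        have e2 : 0 < (t' - t) * -det E (S.V sc g) := by linarith
        have e3 := (mul_pos_iff_of_pos_right (neg_pos.2 hneg)).1 e2
        have e4 : t < 0 := by linarith
        exact ⟨t, e4.le, fun _ => e4, ht3⟩
    obtain ⟨t, -, ht1, ht2⟩ := hmono (m + 1 - i) i hi0 (by omega)
    have ht3 := ht1 (by omega)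
    have e1 : A + (a : ℂ) * S.V sc ((S.rot ^ i) (S.opp x)) - (z : ℂ) * E =
        (H + (j : ℂ) * E - (z : ℂ) * E) + ((a * t : ℝ) : ℂ) * E := by
      rw [ht2, hA]
      push_cast
      ring
    rw [e1, det_add_right, det_smul_right]
    have e2 : a * t < 0 := mul_neg_of_pos_of_neg hapos ht3
    have e3 := mul_pos_of_neg_of_neg e2 huE
    linarith)
  rw [hgk] at hfan
  have hP1 : A + (a : ℂ) * S.V sc g = H + (j : ℂ) * E := by rw [hA]; ring
  rw [hP1] at hfan
  have chain2 := chain1.trans hfan
  -- the left turn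
  have hnx : S.nxt (S.opp (S.rot (S.opp x))) = S.opp x := by
    rw [S.opp_rot, S.nxt_nxt_nxt]
  have hVx : S.V sc (S.opp x) = -E := by
    rw [h.V_opp, hx, hE, V]
  have chain3 := chain2.left (d' := x) (c' := a * sc (S.opp x) / S.rat (S.opp x))
    (R := A - (a : ℂ) * E) (by rw [hnx, S.opp_opp]) (by
      rw [hnx, div_mul_cancel₀ _ (S.rat_pos _).ne']) (by
      rw [hnx]
      have : ((a * sc (S.opp x) : ℝ) : ℂ) * S.vec (S.opp x) = (a : ℂ) * S.V sc (S.opp x) := by
        rw [V]
        push_cast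
        ring
      rw [this, hVx]
      ring) hRZ
  have hfin := Chain.closed hF (h.pos x) hPQ h0 h1 chain3 (a := a) (b := A - (a : ℂ) * E)
    (by ring) (by ring) (by
      have e1 : (a : ℂ) * ((z : ℂ) * E) + (A - (a : ℂ) * E) - (z : ℂ) * E = u := by
        rw [hA, hu, hG]
        push_cast
        ring
      rw [e1, det_self])
  rw [hfin, one_mul] at hasc
  rw [hasc, hc']

end Surface

end MP28dde8T
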