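import Pool.Agent.Lib.MP_28dde8_gt.Tri.G3

/-! # Row LP: closed geodesics close to a loop -/

namespace MP28dde8T

open Finset

namespace Surface

variable {D : Type} [Fintype D] [DecidableEq D] {S : Surface D}

private theorem LP_small (m : ℕ) (x y : ℕ → ℝ) (hx : ∀ i, 0 < i → i ≤ m → 0 < x i) :
    ∃ δ : ℝ, 0 < δ ∧ ∀ i, 0 < i → i ≤ m → 0 < x i + δ * y i := by
  have h1 : ∀ i ∈ Finset.range (m + 1), ∀ᶠ δ in nhdsWithin (0 : ℝ) (Set.Ioi 0),
      0 < i → 0 < x i + δ * y i := by
    intro i hi
    rcases Nat.eq_zero_or_pos i with h0 | h0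
    · exact Filter.Eventually.of_forall fun δ h => absurd h (by omega)
    · have hc : Continuous fun δ : ℝ => x i + δ * y i := by fun_prop
      have h2 : Filter.Tendsto (fun δ : ℝ => x i + δ * y i) (nhds 0) (nhds (x i)) := by
        have := hc.tendsto 0
        simpa using this
      have h3 := h2.eventually (lt_mem_nhds (hx i h0 (by simpa [Nat.lt_succ_iff] using hi)))
      exact (h3.filter_mono nhdsWithin_le_nhds).mono fun δ h _ => h
  have h2 := (Filter.eventually_all_finset _).mpr h1
  obtain ⟨δ, h3, h4⟩ := (h2.and self_mem_nhdsWithin).exists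
  exact ⟨δ, h4, fun i h0 hi => h3 i (Finset.mem_range.mpr (by omega)) h0⟩

/-- Row LP. Let `d` be a side whose two ends are the same vertex, with angle `π` on the left. Then
the scale at both ends is the same.

Proof. In the chart at the initial point of `d`: put `E = V d`, `V i = V ((rot ^ i) d)`; by
`det_V_turn` the number `det E (V i)` is positive for `0 < i < n`, and `V n = V (opp d)`,
`(rot ^ (n - 1)) d = nxt d` (`rot_nxt`). Let `c = sc d`, `c' = sc (nxt d)`, `μ = c' / c`,
`X = δ * (I * E)` for small `δ > 0`, `u = E + X / μ - X`. The line through `X` with direction `u`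
has `V i`, `0 < i < n`, on the left (true for `δ = 0`, finitely many conditions), and `0`, `E` on
the right. The chain starts with the state `opp ((rot ^ (n - 1)) d)`, `P = V (n - 1)`, `Q = 0` and
the scale `c₀` with `c₀ * rat (nxt d) = c'` (by `IsScale.opp`, applied to the triangle on the right
of `(rot ^ i) d`, the scale of the state `opp ((rot ^ i) d)`, `V i`, `0` is `sc ((rot ^ (i - 1)) d)`:
`opp ((rot ^ i) d) = nxt (nxt ((rot ^ (i - 1)) d))`). It continues with `Chain.left` to
`opp ((rot ^ 1) d) = nxt (nxt d)`, `P = V 1`, `Q = 0`, scale `c`; the last step is `Chain.right` to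
`opp (nxt d)`, `P = V 1`, `Q = E`. The map `X ↦ X / μ + E` maps the first state to the last one and
the line to itself. So `1 / μ = 1` by `Chain.closed`. -/
theorem scale_loop (hF : S.AllCylindersFlat) {sc : D → ℝ} (h : S.IsScale sc) {d : D} {n : ℕ}
    (hn : (S.rot ^ n) d = S.opp d) (hpi : S.turn d n = Real.pi) : sc (S.nxt d) = sc d := by
  obtain ⟨m, rfl⟩ : ∃ m, n = m + 2 := by
    rcases n with _ | _ | m
    · exact absurd hn.symm (S.opp_ne d)
    · exfalso
      rw [zero_add, pow_one, S.rot_apply] at hn
      exact S.nxt_nxt_ne d (S.opp.injective hn)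
    · exact ⟨m, rfl⟩
  have hm : (S.rot ^ (m + 1)) d = S.nxt d := by
    apply S.rot.injective
    rw [S.rot_nxt, ← hn, pow_succ' S.rot (m + 1), Equiv.Perm.mul_apply]
  have hc := h.pos d
  have hc' := h.pos (S.nxt d)
  set E := S.V sc d with hE
  have hEne : E ≠ 0 := h.V_ne d
  have hdet : ∀ i, 0 < i → i ≤ m + 1 → 0 < det E (S.V sc ((S.rot ^ i) d)) := by
    intro i h0 hi
    obtain ⟨r, hr, he⟩ := det_V_turn h d i
    rw [hE, he]
    have h1 : 0 < S.turn d i := by
      rw [← turn_zero (S := S) d]
      exact turn_strictMono d h0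
    have h2 : S.turn d i < Real.pi := by
      rw [← hpi]
      exact turn_strictMono d (by omega)
    exact mul_pos hr (Real.sin_pos_of_pos_of_lt_pi h1 h2)
  set a : ℝ := sc d / sc (S.nxt d) with ha
  have ha0 : 0 < a := div_pos hc hc'
  obtain ⟨δ, hδ, hleft⟩ := LP_small (m + 1) (fun i => det E (S.V sc ((S.rot ^ i) d)))
    (fun i => -det E (Complex.I * E) + (a - 1) * det (Complex.I * E) (S.V sc ((S.rot ^ i) d))) hdet
  have hEI : 0 < det E (Complex.I * E) := by
    have h1 : det E (Complex.I * E) = E.re * E.re + E.im * E.im := by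
      unfold det
      simp
    rw [h1]
    by_contra hcon
    apply hEne
    have h2 : E.re = 0 := by nlinarith [mul_self_nonneg E.re, mul_self_nonneg E.im]
    have h3 : E.im = 0 := by nlinarith [mul_self_nonneg E.re, mul_self_nonneg E.im]
    exact Complex.ext h2 h3
  set Z : ℂ := (δ : ℂ) * (Complex.I * E) with hZ
  set u : ℂ := E + ((a - 1 : ℝ) : ℂ) * Z with hu
  have hEZ : 0 < det E Z := by
    rw [hZ, det_smul_right]
    exact mul_pos hδ hEI
  have hright0 : det u (0 - Z) < 0 := by
    rw [zero_sub, det_neg_right, hu, det_add_left, det_smul_left, det_self]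
    linarith
  have hrightE : det u (E - Z) < 0 := by
    rw [hu, det_add_left, det_smul_left, det_sub_right, det_sub_right, det_self, det_self,
      det_swap E Z]
    have := mul_pos ha0 hEZ
    nlinarith
  have hl : ∀ i, 0 < i → i ≤ m + 1 → 0 < det u (S.V sc ((S.rot ^ i) d) - Z) := by
    intro i h0 hi
    have h1 := hleft i h0 hi
    have h2 : det u (S.V sc ((S.rot ^ i) d) - Z) = det E (S.V sc ((S.rot ^ i) d)) +
        δ * (-det E (Complex.I * E) + (a - 1) *
          det (Complex.I * E) (S.V sc ((S.rot ^ i) d))) := by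
      rw [hu, det_add_left, det_smul_left, det_sub_right, det_sub_right, det_self, hZ,
        det_smul_right, det_smul_left]
      ring
    rw [h2]
    exact h1
  have hch := chain_cw h (u := u) (Z := Z) (A := 0) (a := 1) d m (by
    intro i h0 hi
    have := hl i h0 (by omega)
    simpa using this)
  have hrm : S.rot ((S.rot ^ m) d) = (S.rot ^ (m + 1)) d := by
    rw [pow_succ', Equiv.Perm.mul_apply]
  have hlast := hch.right (d' := S.opp ((S.rot ^ (m + 1)) d)) (c' := sc d / S.rat (S.nxt d))
    (R := E) (by rw [S.opp_rot, S.nxt_nxt_nxt, hm]) (by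
      rw [S.opp_rot, S.nxt_nxt_nxt, one_mul]
      have := S.rat_pos (S.nxt d)
      field_simp) (by
      rw [S.opp_rot, S.nxt_nxt_nxt, hE, V]
      push_cast
      ring) hrightE
  have hfin := hlast.closed hF (a := a) (b := E) (by
      rw [one_mul]
      exact h.pos _) (by
      have h1 := h.V_rot ((S.rot ^ m) d)
      rw [hrm] at h1
      have h2 := S.opp_rot ((S.rot ^ m) d)
      rw [hrm] at h2
      rw [h1, h2]
      push_cast
      ring) (by
      have := hl (m + 1) (by omega) le_rfl
      simpa using this) hright0 (by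
      have h1 := h.V_rot_sub d
      have h2 : (a : ℂ) * S.V sc (S.nxt d) = (sc d : ℂ) * S.vec (S.nxt d) := by
        have hne : (sc (S.nxt d) : ℂ) ≠ 0 := by exact_mod_cast hc'.ne'
        rw [ha, V]
        push_cast
        field_simp
      rw [hm]
      push_cast
      linear_combination h1 - h2) (by ring) (by
      have h1 : (a : ℂ) * Z + E - Z = u := by
        rw [hu]
        push_cast
        ring
      rw [h1, det_self])
  rw [ha, div_eq_one_iff_eq hc'.ne'] at hfin
  exact hfin.symm

end Surface

end MP28dde8T
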