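import Pool.Agent.Lib.MP_28dde8_gt.Tri.T6d

/-! # Dilation surfaces of genus 2 all of whose cylinders are flat -/

namespace MP28dde8T

open Finset

namespace Surface

variable {D : Type} [Fintype D] [DecidableEq D] {S : Surface D}

/-- The cases at the first vertex. -/
theorem Two.kap_of_le {K : Finset D} (hK : S.Two K) (hF : S.AllCylindersFlat) {sc : D → ℝ}
    (h : S.IsScale sc) (hc : (S.Z1 K).card + 3 * (S.B1 K).card ≤ 12) :
    (∀ b ∈ S.B1 K, ∀ c ∈ S.B1 K, S.kap sc b = S.kap sc c) ∨
      ((S.Z1 K).card + 3 * (S.B1 K).card = 12 ∧ ∃ x y, S.Par K x y) := by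
  obtain ⟨h1, h2, _, _, _⟩ := hK.dvd
  rcases Nat.lt_or_ge (S.B1 K).card 3 with h3 | h3
  · exact Or.inl fun b hb c hc' => hK.kap_of_card_le hF h (by omega) hb hc'
  · rcases Nat.lt_or_ge (S.B1 K).card 4 with h4 | h4
    · exact Or.inl fun b hb c hc' => hK.kap_of_card_three hF h (by omega) (by omega) hb hc'
    · rcases hK.kap_or_par hF h (by omega) (by omega) with h5 | h5
      · exact Or.inl h5
      · exact Or.inr ⟨by omega, h5⟩

/-- Surfaces of genus 2 with two vertices. -/
theorem isTranslation_of_two (hS : S.IsDilationSurface) (hF : S.AllCylindersFlat) {K : Finset D}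
    (hK : S.Two K) : S.IsTranslation := by
  obtain ⟨sc, h⟩ := exists_isScale hS
  have hcard := hK.card_add
  rcases Nat.lt_or_ge 12 ((S.Z1 K).card + 3 * (S.B1 K).card) with h1 | h1
  · rcases hK.compl.kap_of_le hF h (by omega) with h2 | ⟨h2, _⟩
    · exact hK.compl.isTranslation_of_kap hF h h2
    · omega
  · rcases hK.kap_of_le hF h h1 with h2 | ⟨h2, x, y, h3⟩
    · exact hK.isTranslation_of_kap hF h h2
    · rcases hK.compl.kap_of_le hF h (by omega) with h4 | ⟨_, p, q, h4⟩
      · exact hK.compl.isTranslation_of_kap hF h h4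
      · have e1 := h3.kap_eq hK hF h h4
        have e2 := h3.symm.kap_eq hK hF h h4
        have e3 : S.kap sc (S.opp x) = S.kap sc (S.opp y) := by
          obtain ⟨n, hn⟩ := h3.run₂
          refine (hK.kap_next hF h ?_ ?_ hn.pos hn.eq hn.not_mem).1
          · rw [h3.eq, h3.mem]; tauto
          · rw [h3.eq, h3.mem]; tauto
        refine hK.isTranslation_of_kap hF h fun b hb c hc => ?_
        rw [h3.eq, h3.mem] at hb hc
        have key : ∀ d, (d = x ∨ d = S.opp x ∨ d = y ∨ d = S.opp y) →
            S.kap sc d = S.kap sc (S.opp x) := by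
          rintro d (rfl | rfl | rfl | rfl)
          · exact e1
          · rfl
          · rw [e2, e3]
          · rw [e3]
        rw [key b hb, key c hc]

end Surface

/-- A closed connected dilation surface of genus 2 (Euler characteristic `-2`) all of whose closed
geodesics have trivial linear holonomy is a translation surface. -/
theorem genus_two {D : Type} [Fintype D] [DecidableEq D] (S : Surface D)
    (hS : S.IsDilationSurface) (hg : S.eulerChar = -2) (hF : S.AllCylindersFlat) :
    S.IsTranslation := by
  rcases Surface.vertices hS hg with ⟨h1, h2⟩ | ⟨K, hK⟩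
  · exact Surface.isTranslation_of_one hS hF h1 h2
  · exact Surface.isTranslation_of_two hS hF hK

end MP28dde8T
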