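import Pool.Agent.Lib.MP_28dde8_gt.Tri.CT

/-! # Row O1: surfaces with one vertex, of cone angle `6 * π` -/

namespace MP28dde8T

open Finset

namespace Surface

variable {D : Type} [Fintype D] [DecidableEq D] {S : Surface D}

/-- `al d` is the angle from `d` to `opp d`, in counterclockwise order around the vertex. -/
structure IsAl (S : Surface D) (al : D → ℝ) : Prop where
  val : ∀ d, al d = Real.pi ∨ al d = 3 * Real.pi ∨ al d = 5 * Real.pi
  turn : ∀ d, ∃ n, 0 < n ∧ (S.rot ^ n) d = S.opp d ∧ S.turn d n = al d ∧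
    ∀ m, 0 < m → (S.rot ^ m) d = S.opp d → n ≤ m
  opp : ∀ d, al d + al (S.opp d) = 6 * Real.pi
  tri : ∀ d, ∃ k : ℤ, al d + al (S.nxt d) + al (S.nxt (S.nxt d)) = Real.pi + 6 * Real.pi * k

/-- Row O1. `turn_opp`, `exists_turn` (`K = univ`, the sum of all angles is `6 * π` by `sum_ang`) give
`val`, `turn`, `opp`: `al d` and `al (opp d)` are positive with sum `6 * π` and of the form
`π + 2 * π * k`. For `tri` take a potential `F : D → AddCircle (6 * π)` with
`F (rot d) = F d + ang d` (`exists_potential`); then `al d = F (opp d) - F d` in the circle, and the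
sum over the triangle is the sum of `F (rot e) - F e = ang e` over its three corners, which is `π`
(`ang_add`). -/
theorem exists_isAl (hS : S.IsDilationSurface) (hcard : Fintype.card D = 18)
    (h1 : ∀ d e : D, S.rot.SameCycle d e) : ∃ al : D → ℝ, S.IsAl al := by
  obtain ⟨sc, hsc⟩ := exists_isScale hS
  have hpi := Real.pi_pos
  have hsum : ∑ d : D, S.ang d = 6 * Real.pi := by
    rw [sum_ang, hcard]
    push_cast
    ring
  have hK : ∀ (d e : D), e ∈ (univ : Finset D) ↔ S.rot.SameCycle d e :=
    fun d e => ⟨fun _ => h1 d e, fun _ => mem_univ e⟩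
  have key : ∀ d : D, ∃ n n' : ℕ, 0 < n ∧ 0 < n' ∧ (S.rot ^ n) d = S.opp d ∧
      (S.rot ^ n') (S.opp d) = d ∧ S.turn d n + S.turn (S.opp d) n' = 6 * Real.pi ∧
      (∀ m, 0 < m → (S.rot ^ m) d = S.opp d → n ≤ m) ∧
      ∀ m, 0 < m → (S.rot ^ m) (S.opp d) = d → n' ≤ m := by
    intro d
    have := exists_turn (hK d) (mem_univ (S.opp d))
    rwa [hsum] at this
  choose n n' hn hn' hr hr' ht hm hm' using key
  have hnn : ∀ d, n' d = n (S.opp d) := by
    intro d
    apply le_antisymm
    · apply hm' d _ (hn (S.opp d))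
      have := hr (S.opp d)
      rwa [S.opp_opp] at this
    · apply hm (S.opp d) _ (hn' d)
      rw [hr' d, S.opp_opp]
  have hopp : ∀ d, S.turn d (n d) + S.turn (S.opp d) (n (S.opp d)) = 6 * Real.pi := by
    intro d
    rw [← hnn]
    exact ht d
  have hpos : ∀ d, 0 < S.turn d (n d) := by
    intro d
    have := turn_strictMono (S := S) d (hn d)
    rwa [turn_zero] at this
  have hcoe : ∀ (s : Finset D) (f : D → ℝ),
      ((∑ i ∈ s, f i : ℝ) : AddCircle (6 * Real.pi)) =
        ∑ i ∈ s, ((f i : ℝ) : AddCircle (6 * Real.pi)) := by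
    intro s f
    induction s using Finset.induction_on with
    | empty => simp
    | insert a s ha ih => rw [sum_insert ha, sum_insert ha, AddCircle.coe_add, ih]
  obtain ⟨F, hF⟩ := exists_potential (G := AddCircle (6 * Real.pi)) S.rot
    (fun d => ((S.ang d : ℝ) : AddCircle (6 * Real.pi))) (by
      intro d K hK'
      have hKu : K = univ := by
        ext e
        simp [hK', h1 d e]
      rw [hKu, ← hcoe, hsum]
      exact AddCircle.coe_period _)
  have hFn : ∀ (m : ℕ) (d : D), F ((S.rot ^ m) d) = F d +
      ((S.turn d m : ℝ) : AddCircle (6 * Real.pi)) := by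
    intro m d
    induction m with
    | zero => simp [turn]
    | succ m ih =>
      rw [pow_succ', Equiv.Perm.mul_apply, hF, ih, turn, turn, sum_range_succ, AddCircle.coe_add,
        add_assoc]
  have hal : ∀ d, ((S.turn d (n d) : ℝ) : AddCircle (6 * Real.pi)) = F (S.opp d) - F d := by
    intro d
    have := hFn (n d) d
    rw [hr d] at this
    rw [this]
    abel
  refine ⟨fun d => S.turn d (n d), ?_, ?_, ?_, ?_⟩
  · intro d
    obtain ⟨k, hk⟩ := turn_opp hsc (hr d)
    have h2 := hpos d
    have h3 := hpos (S.opp d)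
    have h4 := hopp d
    have h5 : (-1 : ℝ) < k := by
      rw [hk] at h2
      by_contra hc
      push Not at hc
      nlinarith
    have h6 : (k : ℝ) < 3 := by
      by_contra hc
      push Not at hc
      nlinarith
    have h7 : (-1 : ℤ) < k := by exact_mod_cast h5
    have h8 : k < 3 := by exact_mod_cast h6
    have h9 : k = 0 ∨ k = 1 ∨ k = 2 := by omega
    simp only [hk]
    rcases h9 with rfl | rfl | rfl
    · left
      push_cast
      ring
    · right
      left
      push_cast
      ring
    · right
      right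
      push_cast
      ring
  · intro d
    exact ⟨n d, hn d, hr d, rfl, hm d⟩
  · intro d
    exact hopp d
  · intro d
    have h2 : ((S.turn d (n d) + S.turn (S.nxt d) (n (S.nxt d)) +
        S.turn (S.nxt (S.nxt d)) (n (S.nxt (S.nxt d))) -
          (S.ang d + S.ang (S.nxt d) + S.ang (S.nxt (S.nxt d))) : ℝ) :
          AddCircle (6 * Real.pi)) = 0 := by
      have a1 := hal d
      have a2 := hal (S.nxt d)
      have a3 := hal (S.nxt (S.nxt d))
      have e1 := hF (S.nxt d)
      have e2 := hF (S.nxt (S.nxt d))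
      have e3 := hF d
      rw [S.rot_nxt] at e1 e2
      have e4 : S.rot d = S.opp (S.nxt (S.nxt d)) := S.rot_apply d
      rw [e4] at e3
      rw [e1] at a1
      rw [e2] at a2
      rw [e3] at a3
      rw [AddCircle.coe_sub, AddCircle.coe_add, AddCircle.coe_add, AddCircle.coe_add,
        AddCircle.coe_add]
      rw [a1, a2, a3]
      abel
    rw [AddCircle.coe_eq_zero_iff] at h2
    obtain ⟨k, hk⟩ := h2
    refine ⟨k, ?_⟩
    rw [zsmul_eq_mul] at hk
    have h3 := ang_add (S := S) d
    linarith

end Surface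

end MP28dde8T
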