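import Pool.Agent.Lib.MP_28dde8_gt.Tri.O1

/-! # Row O2: scales and angles, one vertex -/

namespace MP28dde8T

open Finset

namespace Surface

variable {D : Type} [Fintype D] [DecidableEq D] {S : Surface D}

private theorem O2_int {k m : ℤ} (h : (m : ℝ) * Real.pi = Real.pi + 6 * Real.pi * k) :
    m = 1 + 6 * k := by
  have hpi := Real.pi_pos
  have h1 : ((m : ℝ) - (1 + 6 * k)) * Real.pi = 0 := by linear_combination h
  rcases mul_eq_zero.mp h1 with h2 | h2
  · have h3 : (m : ℝ) = 1 + 6 * k := by linarith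
    exact_mod_cast h3
  · exact absurd h2 hpi.ne'

/-- Row O2 -/
private theorem O2_eq_opp_iff {sc : D → ℝ} (h : S.IsScale sc) (d : D) :
    sc (S.nxt (S.opp d)) = sc (S.opp d) ↔ sc (S.nxt d) = sc d := by
  have h1 := h.opp d
  have h2 := h.opp (S.opp d)
  rw [S.opp_opp] at h2
  have h3 := S.rat_opp d
  have h4 := S.rat_pos d
  have h5 := S.rat_pos (S.opp d)
  constructor
  · intro h6
    rw [h6] at h2
    rw [← h1, ← h2, mul_assoc, h3, mul_one]
  · intro h6
    rw [h6] at h1
    rw [← h2, ← h1, mul_assoc, mul_comm (S.rat d), h3, mul_one]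

/-- Row O2. If the scales at the ends of `d` are different then the angle is `3 * π`: otherwise
`scale_loop` applies to `d` or to `opp d` (`IsScale.opp`, `rat_opp`). -/
theorem al_of_ne (hF : S.AllCylindersFlat) {sc : D → ℝ} (h : S.IsScale sc) {al : D → ℝ}
    (ha : S.IsAl al) {d : D} (hd : sc (S.nxt d) ≠ sc d) : al d = 3 * Real.pi := by
  rcases ha.val d with h1 | h1 | h1
  · obtain ⟨n, _, hn, ht, _⟩ := ha.turn d
    exact absurd (scale_loop hF h hn (ht.trans h1)) hd
  · exact h1
  · have h2 : al (S.opp d) = Real.pi := by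
      have := ha.opp d
      linarith
    obtain ⟨n, _, hn, ht, _⟩ := ha.turn (S.opp d)
    exact absurd ((O2_eq_opp_iff h d).1 (scale_loop hF h hn (ht.trans h2))) hd

/-- Row O2 -/
theorem eq_opp_iff {sc : D → ℝ} (h : S.IsScale sc) (d : D) :
    sc (S.nxt (S.opp d)) = sc (S.opp d) ↔ sc (S.nxt d) = sc d :=
  O2_eq_opp_iff h d

/-- Row O2. Triangles with exactly one side `b` whose ends have the same scale. If the scales at the
ends of all three sides were different, `al` would be `3 * π` three times, against `IsAl.tri`.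
If exactly two sides had equal scales at the ends, so had the third one. -/
theorem tri_cases (hF : S.AllCylindersFlat) {sc : D → ℝ} (h : S.IsScale sc) {al : D → ℝ}
    (ha : S.IsAl al) {d : D} (hd : sc (S.nxt d) ≠ sc d) :
    (sc (S.nxt (S.nxt d)) = sc (S.nxt d) ∧ sc d ≠ sc (S.nxt (S.nxt d)) ∧
      al (S.nxt d) = Real.pi) ∨
    (sc (S.nxt (S.nxt d)) ≠ sc (S.nxt d) ∧ sc d = sc (S.nxt (S.nxt d)) ∧
      al (S.nxt (S.nxt d)) = Real.pi) := by
  have h1 := al_of_ne hF h ha hd
  obtain ⟨k, hk⟩ := ha.tri d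
  -- the third value
  have key : ∀ x : ℝ, (x = Real.pi ∨ x = 3 * Real.pi ∨ x = 5 * Real.pi) →
      3 * Real.pi + 3 * Real.pi + x = Real.pi + 6 * Real.pi * k → x = Real.pi := by
    intro x hx hxk
    rcases hx with hx | hx | hx
    · exact hx
    · exfalso
      have := O2_int (k := k) (m := 9) (by push_cast; rw [← hxk, hx]; ring)
      omega
    · exfalso
      have := O2_int (k := k) (m := 11) (by push_cast; rw [← hxk, hx]; ring)
      omega
  by_cases hbc : sc (S.nxt (S.nxt d)) = sc (S.nxt d)
  · left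
    have hac : sc d ≠ sc (S.nxt (S.nxt d)) := by
      rw [hbc]
      exact fun h' => hd h'.symm
    refine ⟨hbc, hac, ?_⟩
    have h3 : al (S.nxt (S.nxt d)) = 3 * Real.pi := by
      apply al_of_ne hF h ha
      rw [S.nxt_nxt_nxt]
      exact hac
    apply key _ (ha.val _)
    rw [← hk, h1, h3]
    ring
  · right
    have h2 := al_of_ne hF h ha hbc
    by_cases hac : sc d = sc (S.nxt (S.nxt d))
    · refine ⟨hbc, hac, ?_⟩
      apply key _ (ha.val _)
      rw [← hk, h1, h2]
    · exfalso
      have h3 : al (S.nxt (S.nxt d)) = 3 * Real.pi := by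
        apply al_of_ne hF h ha
        rw [S.nxt_nxt_nxt]
        exact hac
      have := O2_int (k := k) (m := 9) (by push_cast; rw [← hk, h1, h2, h3]; ring)
      omega

end Surface

end MP28dde8T
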