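import Pool.Agent.Lib.MP_28dde8_gt.Tri.O2

/-! # Row O3: strips, one vertex -/

namespace MP28dde8T

open Finset

namespace Surface

variable {D : Type} [Fintype D] [DecidableEq D] {S : Surface D}

private theorem O3_al {sc : D → ℝ} (hF : S.AllCylindersFlat) (h : S.IsScale sc) {al : D → ℝ}
    (ha : S.IsAl al) {b : D} (hb : sc (S.nxt b) = sc b)
    (hb' : sc (S.nxt (S.nxt b)) ≠ sc (S.nxt b)) : al b = Real.pi := by
  rcases tri_cases hF h ha (d := S.nxt b) hb' with ⟨h1, -, -⟩ | ⟨-, -, h3⟩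
  · rw [S.nxt_nxt_nxt] at h1
    exact absurd (h1.symm.trans hb.symm) hb'
  · rwa [S.nxt_nxt_nxt] at h3

private theorem O3_ifs (x y z : ℝ) (t : y ≠ x → (z = y ∧ x ≠ z) ∨ (z ≠ y ∧ x = z)) :
    (if y = x ∧ z ≠ y then (1 : ℝ) else 0) + (if z = y ∧ x ≠ z then 1 else 0) +
      (if x = z ∧ y ≠ x then 1 else 0) + (if y = x ∧ z = y then 1 else 0) = 1 := by
  rcases eq_or_ne y x with h | h
  · rcases eq_or_ne z y with h' | h'
    · rw [if_neg (fun hh => hh.2 h'), if_neg (fun hh => hh.2 (by rw [h', h])),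
        if_neg (fun hh => hh.2 h), if_pos ⟨h, h'⟩]
      norm_num
    · rw [if_pos ⟨h, h'⟩, if_neg (fun hh => h' hh.1), if_neg (fun hh => hh.2 h),
        if_neg (fun hh => h' hh.2)]
      norm_num
  · rcases t h with ⟨h2, h3⟩ | ⟨h2, h3⟩
    · rw [if_neg (fun hh => h hh.1), if_pos ⟨h2, h3⟩, if_neg (fun hh => h3 hh.1),
        if_neg (fun hh => h hh.1)]
      norm_num
    · rw [if_neg (fun hh => h hh.1), if_neg (fun hh => h2 hh.1), if_pos ⟨h3, h⟩,
        if_neg (fun hh => h hh.1)]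
      norm_num

/-- Row O3. `b` is a side whose ends have the same scale, in a triangle whose other sides do not have
this property. Then the sides between `b` and `opp b` do not have this property.

Proof. `Z` = the sides whose ends have the same scale. Every `d` reaches `Z` under `rot`, as `opp b`
is in `Z`. `exists_isNext` and `IsNext.sum` for `K = univ`, `L = Z`: the sum of
`f d = turn d (τ d)` over `Z` is the sum of all angles, and `f d = ang d` if `rot d ∈ Z`. The elements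
`d` of `Z` with `rot d ∈ Z` are the sides of the triangles all of whose sides are in `Z`; the others
form `B` (as `b`). So the sum of `f` over `B` is the sum of the angles of the other triangles, which is
`card B * π`. By `IsAl.turn` and `al b = π` (`tri_cases`) `f b ≤ π` for `b ∈ B` as `opp b ∈ Z`. So
`f b = π` and `τ b = n` by `turn_strictMono`. -/
theorem between (hF : S.AllCylindersFlat) {sc : D → ℝ} (h : S.IsScale sc) {al : D → ℝ}
    (ha : S.IsAl al) (h1 : ∀ d e : D, S.rot.SameCycle d e) {b : D} (hb : sc (S.nxt b) = sc b)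
    (hb' : sc (S.nxt (S.nxt b)) ≠ sc (S.nxt b)) {n i : ℕ} (hn : (S.rot ^ n) b = S.opp b)
    (hmin : ∀ m, 0 < m → (S.rot ^ m) b = S.opp b → n ≤ m) (h0 : 0 < i) (hi : i < n) :
    sc (S.nxt ((S.rot ^ i) b)) ≠ sc ((S.rot ^ i) b) := by
  classical
  set Z : Finset D := univ.filter fun d => sc (S.nxt d) = sc d with hZ
  have memZ : ∀ d, d ∈ Z ↔ sc (S.nxt d) = sc d := fun d => by simp [hZ]
  have oppZ : ∀ d, S.opp d ∈ Z ↔ d ∈ Z := fun d => by rw [memZ, memZ, eq_opp_iff h]
  obtain ⟨τ, hτ⟩ := exists_isNext S.rot (univ : Finset D) Z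
    (fun d _ => ⟨b, (memZ b).2 hb, h1 d b⟩)
  have hsum := hτ.sum (subset_univ Z) (fun d => by simp) S.ang
  -- the elements of `Z` whose successor is in `Z`
  have rotZ : ∀ d, S.rot d ∈ Z ↔ sc d = sc (S.nxt (S.nxt d)) := fun d => by
    rw [rot_apply, oppZ, memZ, S.nxt_nxt_nxt]
  set B : Finset D := Z.filter fun d => S.rot d ∉ Z with hB
  set Z1 : Finset D := Z.filter fun d => S.rot d ∈ Z with hZ1
  have memB : ∀ d, d ∈ B ↔ sc (S.nxt d) = sc d ∧ sc (S.nxt (S.nxt d)) ≠ sc (S.nxt d) := fun d => by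
    rw [hB, mem_filter, memZ, rotZ]
    constructor
    · rintro ⟨h2, h3⟩
      exact ⟨h2, fun h4 => h3 (by rw [h4, h2])⟩
    · rintro ⟨h2, h3⟩
      exact ⟨h2, fun h4 => h3 (by rw [← h4, h2])⟩
  have memZ1 : ∀ d, d ∈ Z1 ↔ sc (S.nxt d) = sc d ∧ sc (S.nxt (S.nxt d)) = sc (S.nxt d) :=
    fun d => by
    rw [hZ1, mem_filter, memZ, rotZ]
    constructor
    · rintro ⟨h2, h3⟩
      exact ⟨h2, by rw [← h3, h2]⟩
    · rintro ⟨h2, h3⟩
      exact ⟨h2, by rw [h3, h2]⟩
  have hsplit : ∑ d ∈ Z, S.turn d (τ d) = ∑ d ∈ B, S.turn d (τ d) + ∑ d ∈ Z1, S.turn d (τ d) := by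
    rw [hB, hZ1, add_comm]
    exact (sum_filter_add_sum_filter_not Z (fun d => S.rot d ∈ Z) _).symm
  have hZ1turn : ∑ d ∈ Z1, S.turn d (τ d) = ∑ d ∈ Z1, S.ang d := by
    refine sum_congr rfl fun d hd => ?_
    have h2 : S.rot d ∈ Z := (mem_filter.1 hd).2
    have h3 : τ d = 1 := by
      have h4 := hτ.pos d (mem_univ d)
      by_contra hne
      exact hτ.not_mem d (mem_univ d) 1 one_pos (by omega) (by rw [pow_one]; exact h2)
    rw [h3, turn, sum_range_one, pow_zero, Equiv.Perm.one_apply]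
  -- the angles of the other triangles
  set β : D → ℝ := fun d => if d ∈ B then 1 else 0 with hβ
  set ζ : D → ℝ := fun d => if d ∈ Z1 then 1 else 0 with hζ
  have hone : ∀ d, β d + β (S.nxt d) + β (S.nxt (S.nxt d)) + ζ d = 1 := by
    intro d
    simp only [hβ, hζ, memB, memZ1, S.nxt_nxt_nxt]
    refine O3_ifs (sc d) (sc (S.nxt d)) (sc (S.nxt (S.nxt d))) fun c1 => ?_
    rcases tri_cases hF h ha c1 with ⟨h2, h3, -⟩ | ⟨h2, h3, -⟩
    · exact Or.inl ⟨h2, h3⟩
    · exact Or.inr ⟨h2, h3⟩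
  have hreidx1 : ∑ d, S.ang d * β (S.nxt d) = ∑ d, S.ang (S.nxt (S.nxt d)) * β d := by
    rw [← Equiv.sum_comp S.nxt (fun d => S.ang (S.nxt (S.nxt d)) * β d)]
    refine sum_congr rfl fun d _ => ?_
    rw [S.nxt_nxt_nxt]
  have hreidx2 : ∑ d, S.ang d * β (S.nxt (S.nxt d)) = ∑ d, S.ang (S.nxt d) * β d := by
    rw [← Equiv.sum_comp (S.nxt.trans S.nxt) (fun d => S.ang (S.nxt d) * β d)]
    refine sum_congr rfl fun d _ => ?_
    rw [Equiv.trans_apply, S.nxt_nxt_nxt]
  have hang : ∑ d, S.ang d = (B.card : ℝ) * Real.pi + ∑ d ∈ Z1, S.ang d := by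
    have e1 : ∑ d, S.ang d = ∑ d, S.ang d * β d + ∑ d, S.ang d * β (S.nxt d) +
        ∑ d, S.ang d * β (S.nxt (S.nxt d)) + ∑ d, S.ang d * ζ d := by
      rw [← sum_add_distrib, ← sum_add_distrib, ← sum_add_distrib]
      refine sum_congr rfl fun d _ => ?_
      have := hone d
      calc S.ang d = S.ang d * 1 := (mul_one _).symm
        _ = S.ang d * (β d + β (S.nxt d) + β (S.nxt (S.nxt d)) + ζ d) := by rw [this]
        _ = _ := by ring
    have e2 : ∑ d, S.ang d * ζ d = ∑ d ∈ Z1, S.ang d := by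
      simp [hζ, sum_ite_mem]
    have e3 : ∑ d, S.ang d * β d + ∑ d, S.ang (S.nxt (S.nxt d)) * β d +
        ∑ d, S.ang (S.nxt d) * β d = (B.card : ℝ) * Real.pi := by
      rw [← sum_add_distrib, ← sum_add_distrib]
      have e4 : ∀ d, S.ang d * β d + S.ang (S.nxt (S.nxt d)) * β d + S.ang (S.nxt d) * β d =
          Real.pi * β d := fun d => by
        rw [← ang_add d]
        ring
      simp only [e4]
      rw [← mul_sum]
      simp [hβ, mul_comm]
    rw [e1, hreidx1, hreidx2, e3, e2]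
  have hBsum : ∑ d ∈ B, S.turn d (τ d) = ∑ _d ∈ B, Real.pi := by
    rw [sum_const, nsmul_eq_mul]
    have e5 : ∑ d ∈ Z, S.turn d (τ d) = ∑ d, S.ang d := hsum
    rw [hsplit, hZ1turn, hang] at e5
    linarith
  have hBle : ∀ d ∈ B, S.turn d (τ d) ≤ Real.pi := by
    intro d hd
    obtain ⟨h2, h3⟩ := (memB d).1 hd
    obtain ⟨m, hm0, hm1, hm2, -⟩ := ha.turn d
    rw [O3_al hF h ha h2 h3] at hm2
    rw [← hm2]
    refine (turn_strictMono d).monotone ?_
    by_contra hcon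
    have h4 := hτ.not_mem d (mem_univ d) m hm0 (not_le.1 hcon)
    rw [hm1, oppZ, memZ] at h4
    exact h4 h2
  have hBeq := (sum_eq_sum_iff_of_le hBle).1 hBsum
  have hbB : b ∈ B := (memB b).2 ⟨hb, hb'⟩
  obtain ⟨m, hm0, hm1, hm2, hm3⟩ := ha.turn b
  rw [O3_al hF h ha hb hb'] at hm2
  have hτm : τ b = m := (turn_strictMono b).injective ((hBeq b hbB).trans hm2.symm)
  have hn0 : 0 < n := by
    rcases Nat.eq_zero_or_pos n with h2 | h2
    · rw [h2, pow_zero, Equiv.Perm.one_apply] at hn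
      exact absurd hn.symm (S.opp_ne b)
    · exact h2
  have hnm : n = m := le_antisymm (hmin m hm0 hm1) (hm3 n hn0 hn)
  have h5 := hτ.not_mem b (mem_univ b) i h0 (by rw [hτm, ← hnm]; exact hi)
  rwa [memZ] at h5

end Surface

end MP28dde8T
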