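import Pool.Agent.Lib.MP_28dde8_gt.Tri.O3

/-! # Row O4: pairs of triangles, one vertex -/

namespace MP28dde8T

open Finset

namespace Surface

variable {D : Type} [Fintype D] [DecidableEq D] {S : Surface D}

/-- Two triangles which share two sides: `b` and `b' = nxt (rot b)` are their other sides. -/
def Pair (S : Surface D) (b b' : D) : Prop :=
  b' = S.nxt (S.rot b) ∧ S.opp (S.nxt b) = S.nxt b' ∧
    S.opp (S.nxt (S.nxt b)) = S.nxt (S.nxt b')

theorem Pair.symm {b b' : D} (h : S.Pair b b') : S.Pair b' b := by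
  obtain ⟨_, h2, h3⟩ := h
  refine ⟨?_, ?_, ?_⟩
  · rw [S.rot_apply, ← h3, S.opp_opp, S.nxt_nxt_nxt]
  · rw [← h2, S.opp_opp]
  · rw [← h3, S.opp_opp]

/-- The number of steps from a side to its other end is at least three, and the step before the last
one is the next side of the triangle. -/
private theorem O4_three {b : D} {n : ℕ} (hn0 : 0 < n) (hn : (S.rot ^ n) b = S.opp b) :
    3 ≤ n ∧ (S.rot ^ (n - 1)) b = S.nxt b := by
  have hpred : (S.rot ^ (n - 1)) b = S.nxt b := by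
    apply S.rot.injective
    rw [S.rot_nxt, ← hn, ← Equiv.Perm.mul_apply, ← pow_succ', show n - 1 + 1 = n by omega]
  refine ⟨?_, hpred⟩
  by_contra hcon
  have h2 : n = 1 ∨ n = 2 := by omega
  rcases h2 with rfl | rfl
  · have h3 : b = S.nxt b := hpred
    exact S.nxt_ne b h3.symm
  · have h3 : S.rot b = S.nxt b := by
      have h4 : (S.rot ^ 1) b = S.nxt b := hpred
      rwa [pow_one] at h4
    have h4 := S.opp_rot b
    rw [h3] at h4
    exact S.opp_ne_nxt (S.nxt b) h4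

/-- If the ends of `d` and of `rot d` have different scales then `nxt d` is the side with equal
scales at the ends. -/
private theorem O4_first' (hF : S.AllCylindersFlat) {sc : D → ℝ} (h : S.IsScale sc) {al : D → ℝ}
    (ha : S.IsAl al) {d : D} (hr1 : sc (S.nxt d) ≠ sc d)
    (hr2 : sc (S.nxt (S.rot d)) ≠ sc (S.rot d)) :
    sc (S.nxt (S.nxt d)) = sc (S.nxt d) ∧ sc (S.nxt (S.nxt (S.nxt d))) ≠ sc (S.nxt (S.nxt d)) := by
  rcases tri_cases hF h ha hr1 with ⟨h2, h3, _⟩ | ⟨_, h3, _⟩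
  · refine ⟨h2, ?_⟩
    rw [S.nxt_nxt_nxt]
    exact h3
  · exfalso
    apply hr2
    rw [S.rot_apply]
    refine (eq_opp_iff h _).2 ?_
    rw [S.nxt_nxt_nxt]
    exact h3

private theorem O4_first (hF : S.AllCylindersFlat) {sc : D → ℝ} (h : S.IsScale sc) {al : D → ℝ}
    (ha : S.IsAl al) {b : D} (hr1 : sc (S.nxt (S.rot b)) ≠ sc (S.rot b))
    (hr2 : sc (S.nxt (S.rot (S.rot b))) ≠ sc (S.rot (S.rot b))) :
    sc (S.nxt (S.nxt (S.rot b))) = sc (S.nxt (S.rot b)) ∧
      sc (S.nxt (S.nxt (S.nxt (S.rot b)))) ≠ sc (S.nxt (S.nxt (S.rot b))) :=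
  O4_first' hF h ha hr1 hr2

/-- Row O4. `b` as in `between`. Then the triangle of `rot b` has the same property with
`b' = nxt (rot b)`, and it shares two sides with the triangle of `b`.

Proof. Let `n` be as in `between`; `(rot ^ (n - 1)) b = nxt b`. `n ≥ 3` since `rot b ≠ nxt b`
(`opp_ne_nxt`). So `rot b`, `rot (rot b)` are not in `Z`, thus `b'` is in `Z` (`tri_cases`), and `b'` is
as in `between`, with some `n'`; `rot b' = nxt (nxt b)`, `nxt (rot b') = b`,
`rot (rot b') = opp (nxt b)`. If `n' > 3` then `rot (rot (rot b'))` is not in `Z`, so in the triangle of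
`opp (nxt b)` the side `nxt (opp (nxt b))` is in `Z`. But `g = (rot ^ (n - 2)) b` is not in `Z` and
`nxt (nxt g) = opp (nxt b)`, i.e. `g = nxt (opp (nxt b))`. So `n' = 3` and
`rot (rot b') = nxt b'`. -/
theorem exists_pair (hF : S.AllCylindersFlat) {sc : D → ℝ} (h : S.IsScale sc) {al : D → ℝ}
    (ha : S.IsAl al) (h1 : ∀ d e : D, S.rot.SameCycle d e) {b : D} (hb : sc (S.nxt b) = sc b)
    (hb' : sc (S.nxt (S.nxt b)) ≠ sc (S.nxt b)) :
    S.Pair b (S.nxt (S.rot b)) ∧ sc (S.nxt (S.nxt (S.rot b))) = sc (S.nxt (S.rot b)) ∧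
      sc (S.nxt (S.nxt (S.nxt (S.rot b)))) ≠ sc (S.nxt (S.nxt (S.rot b))) := by
  obtain ⟨n, hn0, hn, _, hmin⟩ := ha.turn b
  obtain ⟨hn3, hpred⟩ := O4_three hn0 hn
  have hbt : ∀ i, 0 < i → i < n → sc (S.nxt ((S.rot ^ i) b)) ≠ sc ((S.rot ^ i) b) :=
    fun i h0 hi => between hF h ha h1 hb hb' hn hmin h0 hi
  have hr1 : sc (S.nxt (S.rot b)) ≠ sc (S.rot b) := by
    have := hbt 1 (by omega) (by omega)
    rwa [pow_one] at this
  have hr2 : sc (S.nxt (S.rot (S.rot b))) ≠ sc (S.rot (S.rot b)) := by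
    have := hbt 2 (by omega) (by omega)
    rwa [pow_two, Equiv.Perm.mul_apply] at this
  obtain ⟨hZ, hne⟩ := O4_first hF h ha hr1 hr2
  refine ⟨⟨rfl, ?_, ?_⟩, hZ, hne⟩
  · obtain ⟨n', hn0', hn', _, hmin'⟩ := ha.turn (S.nxt (S.rot b))
    obtain ⟨hn3', hpred'⟩ := O4_three hn0' hn'
    have hrb : S.rot (S.nxt (S.rot b)) = S.nxt (S.nxt b) := by
      rw [S.rot_nxt, S.opp_rot]
    have hrrb : S.rot (S.rot (S.nxt (S.rot b))) = S.opp (S.nxt b) := by
      rw [hrb, S.rot_apply, S.nxt_nxt_nxt]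
    have hbt' : ∀ i, 0 < i → i < n' → sc (S.nxt ((S.rot ^ i) (S.nxt (S.rot b)))) ≠
        sc ((S.rot ^ i) (S.nxt (S.rot b))) :=
      fun i h0 hi => between hF h ha h1 hZ hne hn' hmin' h0 hi
    by_cases h4 : n' = 3
    · rw [h4] at hpred'
      have h5 : (S.rot ^ 2) (S.nxt (S.rot b)) = S.nxt (S.nxt (S.rot b)) := hpred'
      rw [pow_two, Equiv.Perm.mul_apply, hrrb] at h5
      exact h5
    · exfalso
      have h2 : sc (S.nxt (S.opp (S.nxt b))) ≠ sc (S.opp (S.nxt b)) := by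
        have := hbt' 2 (by omega) (by omega)
        rwa [pow_two, Equiv.Perm.mul_apply, hrrb] at this
      have h3 : sc (S.nxt (S.rot (S.opp (S.nxt b)))) ≠ sc (S.rot (S.opp (S.nxt b))) := by
        have := hbt' 3 (by omega) (by omega)
        rwa [pow_succ', pow_two, Equiv.Perm.mul_apply, Equiv.Perm.mul_apply, hrrb] at this
      obtain ⟨h5, _⟩ := O4_first' hF h ha h2 h3
      have hg : S.rot ((S.rot ^ (n - 2)) b) = S.nxt b := by
        rw [← Equiv.Perm.mul_apply, ← pow_succ', show n - 2 + 1 = n - 1 by omega]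
        exact hpred
      have hg2 : (S.rot ^ (n - 2)) b = S.nxt (S.opp (S.nxt b)) := by
        have h6 : S.nxt (S.nxt ((S.rot ^ (n - 2)) b)) = S.opp (S.nxt b) := by
          rw [← hg, S.opp_rot]
        rw [← h6, S.nxt_nxt_nxt]
      have h7 := hbt (n - 2) (by omega) (by omega)
      rw [hg2] at h7
      exact h7 h5
  · rw [S.nxt_nxt_nxt, S.rot_apply]

/-- Row O4. For a pair `b`, `b'` of sides whose ends have the same scale, `V b' = -t * V b` with
`t = sc (nxt (nxt b)) / sc b`.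

Proof. `sc (rot b) = sc (nxt (nxt b'))` and `IsScale.rot`, `IsScale.opp`: with
`v b' = -(v (nxt b') + v (nxt (nxt b')))` and the gluing of the two common sides,
`sc (nxt (nxt b')) * vec b' = - sc b * vec b`. -/
theorem Pair.V_eq {sc : D → ℝ} (h : S.IsScale sc) {b b' : D} (hp : S.Pair b b')
    (hb : sc (S.nxt b) = sc b) (hb' : sc (S.nxt b') = sc b') :
    S.V sc b' = -(((sc (S.nxt (S.nxt b)) / sc b : ℝ) : ℂ) * S.V sc b) := by
  obtain ⟨_, h2, h3⟩ := hp
  have hb0 : (sc b : ℂ) ≠ 0 := by exact_mod_cast (h.pos b).ne'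
  have e1 : sc b' * S.rat (S.nxt b) = sc (S.nxt (S.nxt b)) := by
    have := h.opp (S.nxt b)
    rwa [h2, hb'] at this
  have e2 : sc b' * S.rat (S.nxt (S.nxt b)) = sc (S.nxt (S.nxt b)) := by
    have h4 := h.opp (S.nxt (S.nxt b'))
    rw [← h3, S.opp_opp, h3, S.nxt_nxt_nxt] at h4
    have h5 := S.rat_opp (S.nxt (S.nxt b))
    rw [h3] at h5
    rw [← h4, mul_assoc, h5, mul_one]
  have g1 := S.glue (S.nxt b)
  have g2 := S.glue (S.nxt (S.nxt b))
  rw [h2] at g1
  rw [h3] at g2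
  have c1 := S.closed b
  have c2 := S.closed b'
  have e1' : (sc b' : ℂ) * (S.rat (S.nxt b) : ℂ) = (sc (S.nxt (S.nxt b)) : ℂ) := by
    exact_mod_cast e1
  have e2' : (sc b' : ℂ) * (S.rat (S.nxt (S.nxt b)) : ℂ) = (sc (S.nxt (S.nxt b)) : ℂ) := by
    exact_mod_cast e2
  have key : (sc b' : ℂ) * S.vec b' = -((sc (S.nxt (S.nxt b)) : ℂ) * S.vec b) := by
    linear_combination (sc b' : ℂ) * c2 - (sc b' : ℂ) * g1 - (sc b' : ℂ) * g2 +
      S.vec (S.nxt b) * e1' + S.vec (S.nxt (S.nxt b)) * e2' + (sc (S.nxt (S.nxt b)) : ℂ) * c1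
  unfold V
  rw [key]
  push_cast
  field_simp

end Surface

end MP28dde8T
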