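import Pool.Agent.Lib.MP_28dde8_gt.Tri.O4

/-! # Row O5: surfaces with one vertex, end of the proof -/

namespace MP28dde8T

open Finset

namespace Surface

variable {D : Type} [Fintype D] [DecidableEq D] {S : Surface D}

/-- Row O5. Let `B` be the set of the sides `b` as in `between`; `b ↦ nxt (rot b)` is an involution of
`B` without fixed points (`exists_pair`, `Pair.symm`). The `18 - 3 * card B` sides `d` of the other
triangles (`Z0`) have all ends of the same scale. The sum of `V` over `Z0` is `0` (triangles); for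
`b ∈ B` one has `al b = π`, so `al (opp b) = 5 * π` and `opp b ∈ Z0`; the other elements of `Z0` cancel in
pairs (`V (opp d) = -V d` by `IsScale.V_opp`). So the sum of `V b` over `B` is `0`.
A triangle of `Z0` does not have three sides in `opp B` (`IsAl.tri`); counting gives
`9 * card B ≤ 36`, and if `card B = 4` every triangle of `Z0` has exactly two sides in `opp B`, and these
are not parallel, so they do not belong to the same pair. If `B = {b, b'}` then `V b + V b' = 0`, so
`t = 1` (`Pair.V_eq`), against `hb'`. If `B = {b, b', c, c'}`, with `V b`, `V c` not parallel, then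
`(1 - t) V b + (1 - s) V c = 0`, so `t = 1`. So `B` is empty, and then every side has the same scale at
both ends (`tri_cases`). -/
theorem scale_eq_of_isAl (hF : S.AllCylindersFlat) {sc : D → ℝ} (h : S.IsScale sc) {al : D → ℝ}
    (ha : S.IsAl al) (h1 : ∀ d e : D, S.rot.SameCycle d e) (hcard : Fintype.card D = 18) (d : D) :
    sc (S.nxt d) = sc d := by
  classical
  obtain ⟨B, hB⟩ : ∃ B : Finset D, ∀ b, b ∈ B ↔
      sc (S.nxt b) = sc b ∧ sc (S.nxt (S.nxt b)) ≠ sc (S.nxt b) :=
    ⟨univ.filter fun b => sc (S.nxt b) = sc b ∧ sc (S.nxt (S.nxt b)) ≠ sc (S.nxt b),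
      fun b => by simp only [mem_filter, mem_univ, true_and]⟩
  obtain ⟨Z, hZ⟩ : ∃ Z : Finset D, ∀ b, b ∈ Z ↔
      sc (S.nxt b) = sc b ∧ sc (S.nxt (S.nxt b)) = sc (S.nxt b) :=
    ⟨univ.filter fun b => sc (S.nxt b) = sc b ∧ sc (S.nxt (S.nxt b)) = sc (S.nxt b),
      fun b => by simp only [mem_filter, mem_univ, true_and]⟩
  have hpi := Real.pi_pos
  have halB : ∀ b ∈ B, al b = Real.pi := by
    intro b hb
    obtain ⟨h2, h3⟩ := (hB b).1 hb
    rcases tri_cases hF h ha h3 with h4 | h4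
    · exfalso
      have h5 := h4.1
      rw [S.nxt_nxt_nxt] at h5
      exact h3 (by rw [← h5, h2])
    · have h5 := h4.2.2
      rwa [S.nxt_nxt_nxt] at h5
  have hoB : ∀ b ∈ B, al (S.opp b) = 5 * Real.pi := by
    intro b hb
    have h2 := ha.opp b
    rw [halB b hb] at h2
    linarith
  have hoZ : ∀ b ∈ B, S.opp b ∈ Z := by
    intro b hb
    have h2 := (eq_opp_iff h b).2 ((hB b).1 hb).1
    refine (hZ _).2 ⟨h2, ?_⟩
    by_contra h3
    have h4 := halB _ ((hB (S.opp b)).2 ⟨h2, h3⟩)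
    rw [hoB b hb] at h4
    linarith
  have hXZ : ∀ e, S.opp e ∈ B → e ∈ Z := by
    intro e he
    have := hoZ _ he
    rwa [S.opp_opp] at this
  have hX5 : ∀ e, S.opp e ∈ B → al e = 5 * Real.pi := by
    intro e he
    have := hoB _ he
    rwa [S.opp_opp] at this
  have hZn : ∀ e, S.nxt e ∈ Z ↔ e ∈ Z := by
    intro e
    rw [hZ, hZ, S.nxt_nxt_nxt]
    constructor
    · rintro ⟨h2, h3⟩
      exact ⟨by rw [← h2, ← h3], h2⟩
    · rintro ⟨h2, h3⟩
      exact ⟨h3, by rw [h3, h2]⟩
  -- counting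
  have hsB : ∑ e, (if e ∈ B then 1 else 0) = B.card := by
    rw [sum_ite_mem, univ_inter, sum_const, smul_eq_mul, mul_one]
  have hsZ : ∑ e, (if e ∈ Z then 1 else 0) = Z.card := by
    rw [sum_ite_mem, univ_inter, sum_const, smul_eq_mul, mul_one]
  have hsB1 : ∑ e, (if S.nxt e ∈ B then 1 else 0) = B.card := by
    rw [← hsB]
    exact Equiv.sum_comp S.nxt (fun e => if e ∈ B then 1 else 0)
  have hsB2 : ∑ e, (if S.nxt (S.nxt e) ∈ B then 1 else 0) = B.card := by
    rw [← hsB1]
    exact Equiv.sum_comp S.nxt (fun e => if S.nxt e ∈ B then 1 else 0)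
  have hsX : ∑ e, (if S.opp e ∈ B then 1 else 0) = B.card := by
    rw [← hsB]
    exact Equiv.sum_comp S.opp (fun e => if e ∈ B then 1 else 0)
  have hsX1 : ∑ e, (if S.opp (S.nxt e) ∈ B then 1 else 0) = B.card := by
    rw [← hsX]
    exact Equiv.sum_comp S.nxt (fun e => if S.opp e ∈ B then 1 else 0)
  have hsX2 : ∑ e, (if S.opp (S.nxt (S.nxt e)) ∈ B then 1 else 0) = B.card := by
    rw [← hsX1]
    exact Equiv.sum_comp S.nxt (fun e => if S.opp (S.nxt e) ∈ B then 1 else 0)
  have hc0' : ∑ e, ((if e ∈ Z then 1 else 0) + (if e ∈ B then 1 else 0) +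
      (if S.nxt e ∈ B then 1 else 0) + (if S.nxt (S.nxt e) ∈ B then 1 else 0)) =
        ∑ _e : D, 1 := by
    refine sum_congr rfl fun e _ => ?_
    have hn : sc (S.nxt e) ≠ sc e → sc (S.nxt (S.nxt e)) = sc (S.nxt e) ∨
        sc e = sc (S.nxt (S.nxt e)) := fun hne => by
      rcases tri_cases hF h ha hne with h4 | h4
      · exact Or.inl h4.1
      · exact Or.inr h4.2.1
    by_cases hxy : sc (S.nxt e) = sc e
    · by_cases hyz : sc (S.nxt (S.nxt e)) = sc (S.nxt e)
      · have a1 : e ∈ Z := (hZ e).2 ⟨hxy, hyz⟩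
        have a2 : e ∉ B := fun hh => ((hB e).1 hh).2 hyz
        have a3 : S.nxt e ∉ B := fun hh => ((hB _).1 hh).2 (by rw [S.nxt_nxt_nxt, hyz, hxy])
        have a4 : S.nxt (S.nxt e) ∉ B := fun hh => ((hB _).1 hh).2 (by
          rw [S.nxt_nxt_nxt, S.nxt_nxt_nxt, hxy])
        rw [if_pos a1, if_neg a2, if_neg a3, if_neg a4]
      · have a1 : e ∉ Z := fun hh => hyz ((hZ e).1 hh).2
        have a2 : e ∈ B := (hB e).2 ⟨hxy, hyz⟩
        have a3 : S.nxt e ∉ B := fun hh => hyz ((hB _).1 hh).1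
        have a4 : S.nxt (S.nxt e) ∉ B := fun hh => hyz (by
          have := ((hB _).1 hh).1
          rw [S.nxt_nxt_nxt] at this
          rw [← this, hxy])
        rw [if_neg a1, if_pos a2, if_neg a3, if_neg a4]
    · have a1 : e ∉ Z := fun hh => hxy ((hZ e).1 hh).1
      have a2 : e ∉ B := fun hh => hxy ((hB e).1 hh).1
      by_cases hyz : sc (S.nxt (S.nxt e)) = sc (S.nxt e)
      · have a3 : S.nxt e ∈ B := (hB _).2 ⟨hyz, by
          rw [S.nxt_nxt_nxt, hyz]
          exact fun hh => hxy hh.symm⟩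
        have a4 : S.nxt (S.nxt e) ∉ B := fun hh => hxy (by
          have := ((hB _).1 hh).1
          rw [S.nxt_nxt_nxt] at this
          rw [this, hyz])
        rw [if_neg a1, if_neg a2, if_pos a3, if_neg a4]
      · have hzx := (hn hxy).resolve_left hyz
        have a3 : S.nxt e ∉ B := fun hh => hyz ((hB _).1 hh).1
        have a4 : S.nxt (S.nxt e) ∈ B := (hB _).2 ⟨by rw [S.nxt_nxt_nxt, hzx], by
          rw [S.nxt_nxt_nxt, S.nxt_nxt_nxt]
          exact hxy⟩
        rw [if_neg a1, if_neg a2, if_neg a3, if_pos a4]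
  have hc0 : Z.card + B.card + B.card + B.card = 18 := by
    rw [sum_add_distrib, sum_add_distrib, sum_add_distrib, hsZ, hsB, hsB1, hsB2, sum_const,
      card_univ, hcard] at hc0'
    exact hc0'
  have hXn : ∀ e, e ∉ Z → S.opp e ∉ B ∧ S.opp (S.nxt e) ∉ B ∧ S.opp (S.nxt (S.nxt e)) ∉ B :=
    fun e he => ⟨fun hh => he (hXZ _ hh), fun hh => he ((hZn e).1 (hXZ _ hh)),
      fun hh => he ((hZn e).1 ((hZn _).1 (hXZ _ hh)))⟩
  have hc1' : ∑ e, ((if S.opp e ∈ B then 1 else 0) + (if S.opp (S.nxt e) ∈ B then 1 else 0) +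
      (if S.opp (S.nxt (S.nxt e)) ∈ B then 1 else 0)) ≤ ∑ e, 2 * (if e ∈ Z then 1 else 0) := by
    refine sum_le_sum fun e _ => ?_
    by_cases he : e ∈ Z
    · rw [if_pos he]
      have h2 : ¬ (S.opp e ∈ B ∧ S.opp (S.nxt e) ∈ B ∧ S.opp (S.nxt (S.nxt e)) ∈ B) := by
        rintro ⟨b1, b2, b3⟩
        obtain ⟨k, hk⟩ := ha.tri e
        rw [hX5 _ b1, hX5 _ b2, hX5 _ b3] at hk
        have h3 : (14 : ℝ) = 6 * k := by
          have h4 : Real.pi * 14 = Real.pi * (6 * k) := by linarith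
          exact mul_left_cancel₀ hpi.ne' h4
        have h5 : (14 : ℤ) = 6 * k := by exact_mod_cast h3
        omega
      split_ifs <;> first | omega | exact absurd ⟨‹_›, ‹_›, ‹_›⟩ h2
    · obtain ⟨b1, b2, b3⟩ := hXn e he
      rw [if_neg b1, if_neg b2, if_neg b3, if_neg he]
  have hc1 : B.card + B.card + B.card ≤ 2 * Z.card := by
    rw [sum_add_distrib, sum_add_distrib, hsX, hsX1, hsX2, ← mul_sum, hsZ] at hc1'
    exact hc1'
  -- the sum of the vectors
  have hVo : ∀ e, (if sc (S.nxt (S.opp e)) = sc (S.opp e) then S.V sc (S.opp e) else 0) =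
      -(if sc (S.nxt e) = sc e then S.V sc e else 0) := by
    intro e
    by_cases he : sc (S.nxt e) = sc e
    · rw [if_pos he, if_pos ((eq_opp_iff h e).2 he), h.V_opp, he]
      rfl
    · rw [if_neg he, if_neg (fun hh => he ((eq_opp_iff h e).1 hh)), neg_zero]
  have hsum1 : ∑ e, (if sc (S.nxt e) = sc e then S.V sc e else 0) = 0 := by
    have h2 := Equiv.sum_comp S.opp (fun e => if sc (S.nxt e) = sc e then S.V sc e else 0)
    simp only [hVo, sum_neg_distrib] at h2
    have h3 : (2 : ℂ) * ∑ e, (if sc (S.nxt e) = sc e then S.V sc e else 0) = 0 := by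
      linear_combination -h2
    exact (mul_eq_zero.1 h3).resolve_left two_ne_zero
  have hsum2 : ∑ e, (if e ∈ Z then S.V sc e else 0) = 0 := by
    have e1 := Equiv.sum_comp S.nxt (fun e => if e ∈ Z then S.V sc e else 0)
    have e2 := Equiv.sum_comp S.nxt (fun e => if S.nxt e ∈ Z then S.V sc (S.nxt e) else 0)
    have h3 : (3 : ℂ) * ∑ e, (if e ∈ Z then S.V sc e else 0) =
        ∑ e, ((if e ∈ Z then S.V sc e else 0) + (if S.nxt e ∈ Z then S.V sc (S.nxt e) else 0) +
          (if S.nxt (S.nxt e) ∈ Z then S.V sc (S.nxt (S.nxt e)) else 0)) := by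
      rw [sum_add_distrib, sum_add_distrib]
      rw [e2, e1]
      ring
    have h4 : ∑ e, ((if e ∈ Z then S.V sc e else 0) +
        (if S.nxt e ∈ Z then S.V sc (S.nxt e) else 0) +
          (if S.nxt (S.nxt e) ∈ Z then S.V sc (S.nxt (S.nxt e)) else 0)) = 0 := by
      refine sum_eq_zero fun e _ => ?_
      by_cases he : e ∈ Z
      · have h5 := (hZn e).2 he
        have h6 := (hZn _).2 h5
        rw [if_pos he, if_pos h5, if_pos h6]
        obtain ⟨h7, h8⟩ := (hZ e).1 he
        unfold V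
        rw [h8, h7]
        linear_combination (sc e : ℂ) * S.closed e
      · have h5 : S.nxt e ∉ Z := fun hh => he ((hZn e).1 hh)
        have h6 : S.nxt (S.nxt e) ∉ Z := fun hh => h5 ((hZn _).1 hh)
        rw [if_neg he, if_neg h5, if_neg h6, add_zero, add_zero]
    rw [h4] at h3
    exact (mul_eq_zero.1 h3).resolve_left three_ne_zero
  have hsumB : ∑ b ∈ B, S.V sc b = 0 := by
    have h2 : ∑ e, (if e ∈ B then S.V sc e else 0) = 0 := by
      have h3 : ∑ e, (if sc (S.nxt e) = sc e then S.V sc e else 0) =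
          ∑ e, (if e ∈ Z then S.V sc e else 0) + ∑ e, (if e ∈ B then S.V sc e else 0) := by
        rw [← sum_add_distrib]
        refine sum_congr rfl fun e _ => ?_
        by_cases hxy : sc (S.nxt e) = sc e
        · by_cases hyz : sc (S.nxt (S.nxt e)) = sc (S.nxt e)
          · rw [if_pos hxy, if_pos ((hZ e).2 ⟨hxy, hyz⟩),
              if_neg (fun hh => ((hB e).1 hh).2 hyz), add_zero]
          · rw [if_pos hxy, if_neg (fun hh => hyz ((hZ e).1 hh).2),
              if_pos ((hB e).2 ⟨hxy, hyz⟩), zero_add]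
        · rw [if_neg hxy, if_neg (fun hh => hxy ((hZ e).1 hh).1),
            if_neg (fun hh => hxy ((hB e).1 hh).1), add_zero]
      rw [hsum1, hsum2, zero_add] at h3
      exact h3.symm
    rwa [sum_ite_mem, univ_inter] at h2
  -- pairs
  have hpair : ∀ b ∈ B, S.Pair b (S.nxt (S.rot b)) ∧ S.nxt (S.rot b) ∈ B := by
    intro b hb
    obtain ⟨h2, h3⟩ := (hB b).1 hb
    obtain ⟨h4, h5, h6⟩ := exists_pair hF h ha h1 h2 h3
    exact ⟨h4, (hB _).2 ⟨h5, h6⟩⟩
  have hinv : ∀ b ∈ B, S.nxt (S.rot (S.nxt (S.rot b))) = b := fun b hb =>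
    ((hpair b hb).1.symm).1.symm
  have hfix : ∀ b ∈ B, S.nxt (S.rot b) ≠ b := by
    intro b hb hh
    have h2 := (hpair b hb).1.2.1
    rw [hh] at h2
    exact S.opp_ne _ h2
  have hVp : ∀ b ∈ B, S.V sc (S.nxt (S.rot b)) =
      -(((sc (S.nxt (S.nxt b)) / sc b : ℝ) : ℂ) * S.V sc b) := fun b hb =>
    (hpair b hb).1.V_eq h ((hB b).1 hb).1 ((hB _).1 (hpair b hb).2).1
  have ht : ∀ b ∈ B, (1 - (sc (S.nxt (S.nxt b)) / sc b : ℝ)) ≠ 0 := by
    intro b hb hh
    have h2 : sc (S.nxt (S.nxt b)) / sc b = 1 := by linarith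
    rw [div_eq_one_iff_eq (h.pos b).ne'] at h2
    obtain ⟨h3, h4⟩ := (hB b).1 hb
    exact h4 (by rw [h2, h3])
  have hfour : ∀ b ∈ B, ∀ c ∈ B, c ≠ b → c ≠ S.nxt (S.rot b) →
      ({b, S.nxt (S.rot b), c, S.nxt (S.rot c)} : Finset D) ⊆ B ∧
      ({b, S.nxt (S.rot b), c, S.nxt (S.rot c)} : Finset D).card = 4 ∧
      ∑ x ∈ ({b, S.nxt (S.rot b), c, S.nxt (S.rot c)} : Finset D), S.V sc x =
        S.V sc b + (S.V sc (S.nxt (S.rot b)) + (S.V sc c + S.V sc (S.nxt (S.rot c)))) := by
    intro b hb c hc h2 h3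
    have n1 : S.nxt (S.rot c) ≠ b := fun hh => h3 (by rw [← hh, hinv c hc])
    have n2 : S.nxt (S.rot c) ≠ S.nxt (S.rot b) := fun hh => h2 (by
      rw [← hinv c hc, hh, hinv b hb])
    have m1 : b ∉ ({S.nxt (S.rot b), c, S.nxt (S.rot c)} : Finset D) := by
      simp only [mem_insert, mem_singleton, not_or]
      exact ⟨(hfix b hb).symm, h2.symm, n1.symm⟩
    have m2 : S.nxt (S.rot b) ∉ ({c, S.nxt (S.rot c)} : Finset D) := by
      simp only [mem_insert, mem_singleton, not_or]
      exact ⟨h3.symm, n2.symm⟩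
    have m3 : c ∉ ({S.nxt (S.rot c)} : Finset D) := by
      rw [mem_singleton]
      exact (hfix c hc).symm
    refine ⟨?_, ?_, ?_⟩
    · intro x hx
      simp only [mem_insert, mem_singleton] at hx
      rcases hx with rfl | rfl | rfl | rfl
      · exact hb
      · exact (hpair b hb).2
      · exact hc
      · exact (hpair c hc).2
    · rw [card_insert_of_notMem m1, card_insert_of_notMem m2, card_insert_of_notMem m3,
        card_singleton]
    · rw [sum_insert m1, sum_insert m2, sum_insert m3, sum_singleton]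
  have hBempty : ∀ b, b ∉ B := by
    intro b0 hb0
    by_cases hx : ∃ e, S.opp e ∈ B ∧ S.opp (S.nxt e) ∈ B
    · obtain ⟨e, he1, he2⟩ := hx
      have hdet : det (S.V sc (S.opp e)) (S.V sc (S.opp (S.nxt e))) ≠ 0 := by
        rw [h.V_opp, h.V_opp, det_neg_left, det_neg_right, neg_neg, det_smul_left,
          det_smul_right]
        exact (mul_pos (h.pos _) (mul_pos (h.pos _) (S.ccw e))).ne'
      have h2 : S.opp (S.nxt e) ≠ S.opp e := fun hh => hdet (by rw [hh, det_self])
      have h3 : S.opp (S.nxt e) ≠ S.nxt (S.rot (S.opp e)) := fun hh => hdet (by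
        rw [hh, hVp _ he1, det_neg_right, det_smul_right, det_self, mul_zero, neg_zero])
      obtain ⟨h4, h5, h6⟩ := hfour _ he1 _ he2 h2 h3
      have h7 := eq_of_subset_of_card_le h4 (by rw [h5]; omega)
      rw [← h7, h6, hVp _ he1, hVp _ he2] at hsumB
      have h8 : det ((((1 - (sc (S.nxt (S.nxt (S.opp e))) / sc (S.opp e) : ℝ)) : ℝ) : ℂ) *
          S.V sc (S.opp e)) (S.V sc (S.opp (S.nxt e))) = 0 := by
        have h9 : (((1 - (sc (S.nxt (S.nxt (S.opp e))) / sc (S.opp e) : ℝ)) : ℝ) : ℂ) *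
            S.V sc (S.opp e) = -((((1 - (sc (S.nxt (S.nxt (S.opp (S.nxt e)))) /
              sc (S.opp (S.nxt e)) : ℝ)) : ℝ) : ℂ) * S.V sc (S.opp (S.nxt e))) := by
          rw [Complex.ofReal_sub, Complex.ofReal_sub, Complex.ofReal_one]
          linear_combination hsumB
        rw [h9, det_neg_left, det_smul_left, det_self, mul_zero, neg_zero]
      rw [det_smul_left] at h8
      rcases mul_eq_zero.1 h8 with h10 | h10
      · exact ht _ he1 h10
      · exact hdet h10
    · have hc2' : ∑ e, ((if S.opp e ∈ B then 1 else 0) +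
          (if S.opp (S.nxt e) ∈ B then 1 else 0) +
          (if S.opp (S.nxt (S.nxt e)) ∈ B then 1 else 0)) ≤ ∑ e, (if e ∈ Z then 1 else 0) := by
        refine sum_le_sum fun e _ => ?_
        by_cases he : e ∈ Z
        · rw [if_pos he]
          have c1 : ¬ (S.opp e ∈ B ∧ S.opp (S.nxt e) ∈ B) := fun hh => hx ⟨e, hh⟩
          have c2 : ¬ (S.opp (S.nxt e) ∈ B ∧ S.opp (S.nxt (S.nxt e)) ∈ B) :=
            fun hh => hx ⟨S.nxt e, hh⟩
          have c3 : ¬ (S.opp (S.nxt (S.nxt e)) ∈ B ∧ S.opp e ∈ B) :=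
            fun hh => hx ⟨S.nxt (S.nxt e), hh.1, by rw [S.nxt_nxt_nxt]; exact hh.2⟩
          split_ifs <;> first | omega | exact absurd ⟨‹_›, ‹_›⟩ c1 | exact absurd ⟨‹_›, ‹_›⟩ c2 |
              exact absurd ⟨‹_›, ‹_›⟩ c3
        · obtain ⟨b1, b2, b3⟩ := hXn e he
          rw [if_neg b1, if_neg b2, if_neg b3, if_neg he]
      have hc2 : B.card + B.card + B.card ≤ Z.card := by
        rw [sum_add_distrib, sum_add_distrib, hsX, hsX1, hsX2, hsZ] at hc2'
        exact hc2'
      by_cases hy : ∃ c ∈ B, c ≠ b0 ∧ c ≠ S.nxt (S.rot b0)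
      · obtain ⟨c, hc, h2, h3⟩ := hy
        obtain ⟨h4, h5, _⟩ := hfour _ hb0 _ hc h2 h3
        have h6 := card_le_card h4
        rw [h5] at h6
        omega
      · have h2 : B = {b0, S.nxt (S.rot b0)} := by
          ext x
          simp only [mem_insert, mem_singleton]
          constructor
          · intro hx'
            by_contra h3
            push Not at h3
            exact hy ⟨x, hx', h3.1, h3.2⟩
          · rintro (rfl | rfl)
            · exact hb0
            · exact (hpair b0 hb0).2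
        have h3 : b0 ∉ ({S.nxt (S.rot b0)} : Finset D) := by
          rw [mem_singleton]
          exact (hfix b0 hb0).symm
        have h4 : S.V sc b0 + S.V sc (S.nxt (S.rot b0)) = 0 := by
          rw [h2, sum_insert h3, sum_singleton] at hsumB
          exact hsumB
        rw [hVp b0 hb0] at h4
        have h5 : (((1 - (sc (S.nxt (S.nxt b0)) / sc b0 : ℝ)) : ℝ) : ℂ) * S.V sc b0 = 0 := by
          rw [Complex.ofReal_sub, Complex.ofReal_one]
          linear_combination h4
        rcases mul_eq_zero.1 h5 with h6 | h6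
        · exact ht b0 hb0 (Complex.ofReal_eq_zero.1 h6)
        · exact h.V_ne b0 h6
  by_contra hd
  rcases tri_cases hF h ha hd with h4 | h4
  · refine hBempty (S.nxt d) ((hB _).2 ⟨h4.1, ?_⟩)
    rw [S.nxt_nxt_nxt]
    exact h4.2.1
  · refine hBempty (S.nxt (S.nxt d)) ((hB _).2 ⟨?_, ?_⟩)
    · rw [S.nxt_nxt_nxt]
      exact h4.2.1
    · rw [S.nxt_nxt_nxt, S.nxt_nxt_nxt]
      exact hd

/-- Surfaces of genus 2 with one vertex. -/
theorem isTranslation_of_one (hS : S.IsDilationSurface) (hF : S.AllCylindersFlat)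
    (hcard : Fintype.card D = 18) (h1 : ∀ d e : D, S.rot.SameCycle d e) : S.IsTranslation := by
  obtain ⟨sc, hsc⟩ := exists_isScale hS
  obtain ⟨al, hal⟩ := exists_isAl hS hcard h1
  exact isTranslation_of_scale hsc (scale_eq_of_isAl hF hsc hal h1 hcard)

end Surface

end MP28dde8T
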