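import Pool.Agent.Lib.MP_28dde8_gt.Tri.Chain

/-! # Row PM1: permutations, potentials, scales -/

namespace MP28dde8T

open Finset

/-- Row PM1. The sum over a cycle. Take `N = Function.minimalPeriod σ d`; `i ↦ (σ ^ i) d` is a
bijection from `range N` to the cycle of `d`. -/
theorem sum_cycle {D : Type} [Fintype D] [DecidableEq D] (σ : Equiv.Perm D) (d : D) :
    ∃ N : ℕ, 0 < N ∧ (σ ^ N) d = d ∧ (∀ m, (σ ^ m) d = d → N ∣ m) ∧
      (∀ e, σ.SameCycle d e → ∃ i < N, (σ ^ i) d = e) ∧
      ∀ {G : Type} [AddCommMonoid G] (f : D → G) (K : Finset D), (∀ e, e ∈ K ↔ σ.SameCycle d e) →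
        ∑ e ∈ K, f e = ∑ i ∈ range N, f ((σ ^ i) d) := by
  have hit : ∀ m : ℕ, (⇑σ)^[m] d = (σ ^ m) d := fun m => by rw [Equiv.Perm.iterate_eq_pow]
  have hp : d ∈ Function.periodicPts σ := by
    refine ⟨orderOf σ, orderOf_pos σ, ?_⟩
    show (⇑σ)^[orderOf σ] d = d
    rw [hit, pow_orderOf_eq_one]
    rfl
  have hN0 : 0 < Function.minimalPeriod σ d := Function.minimalPeriod_pos_of_mem_periodicPts hp
  have hNd : (σ ^ Function.minimalPeriod σ d) d = d := by
    rw [← hit]
    exact Function.isPeriodicPt_minimalPeriod σ d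
  have hdvd : ∀ m, (σ ^ m) d = d → Function.minimalPeriod σ d ∣ m := by
    intro m hm
    refine Function.IsPeriodicPt.minimalPeriod_dvd ?_
    show (⇑σ)^[m] d = d
    rw [hit]
    exact hm
  have hex : ∀ e, σ.SameCycle d e → ∃ i < Function.minimalPeriod σ d, (σ ^ i) d = e := by
    intro e he
    obtain ⟨m, hm⟩ := he.exists_nat_pow_eq
    refine ⟨m % Function.minimalPeriod σ d, Nat.mod_lt _ hN0, ?_⟩
    rw [← hit, Function.iterate_mod_minimalPeriod_eq, hit, hm]
  refine ⟨Function.minimalPeriod σ d, hN0, hNd, hdvd, hex, ?_⟩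
  intro G _ f K hK
  symm
  refine Finset.sum_bij (fun i _ => (σ ^ i) d) ?_ ?_ ?_ ?_
  · intro i _
    rw [hK]
    exact ⟨(i : ℤ), by simp⟩
  · intro i hi j hj hij
    have hi' := mem_range.1 hi
    have hj' := mem_range.1 hj
    refine Function.iterate_injOn_Iio_minimalPeriod (f := σ) (x := d) hi' hj' ?_
    show (⇑σ)^[i] d = (⇑σ)^[j] d
    rw [hit, hit]
    exact hij
  · intro e he
    obtain ⟨i, hi, h⟩ := hex e ((hK e).1 he)
    exact ⟨i, mem_range.2 hi, h⟩
  · intro i _
    rfl

/-- Row PM1. Potentials: choose a point `r` in every cycle and put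
`F ((σ ^ i) r) = ∑ j ∈ range i, f ((σ ^ j) r)` for `i < N`. -/
theorem exists_potential {D : Type} [Fintype D] [DecidableEq D] (σ : Equiv.Perm D)
    {G : Type} [AddCommGroup G] (f : D → G)
    (hf : ∀ (d : D) (K : Finset D), (∀ e, e ∈ K ↔ σ.SameCycle d e) → ∑ e ∈ K, f e = 0) :
    ∃ F : D → G, ∀ d, F (σ d) = F d + f d := by
  classical
  let st := Equiv.Perm.SameCycle.setoid σ
  let r : D → D := fun d => Quotient.out (Quotient.mk st d)
  have hr : ∀ d, σ.SameCycle (r d) d := fun d => Quotient.exact (Quotient.out_eq (Quotient.mk st d))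
  have hrσ : ∀ d, r (σ d) = r d := by
    intro d
    have : Quotient.mk st (σ d) = Quotient.mk st d := by
      apply Quotient.sound
      show σ.SameCycle (σ d) d
      exact (Equiv.Perm.sameCycle_apply_left).2 (Equiv.Perm.SameCycle.refl σ d)
    show Quotient.out (Quotient.mk st (σ d)) = Quotient.out (Quotient.mk st d)
    rw [this]
  choose N hN0 hNd hdvd hex hsum using fun d : D => sum_cycle σ d
  have hinj : ∀ (x : D) (a b : ℕ), a < N x → b < N x → (σ ^ a) x = (σ ^ b) x → a = b := by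
    have key : ∀ (x : D) (a b : ℕ), a ≤ b → b < N x → (σ ^ a) x = (σ ^ b) x → a = b := by
      intro x a b hab hb h
      have h1 : (σ ^ (b - a)) x = x := by
        have h2 : (σ ^ a) ((σ ^ (b - a)) x) = (σ ^ a) x := by
          rw [← Equiv.Perm.mul_apply, ← pow_add, Nat.add_sub_cancel' hab, h]
        exact (σ ^ a).injective h2
      have h3 := hdvd x _ h1
      have h4 := Nat.eq_zero_of_dvd_of_lt h3 (lt_of_le_of_lt (Nat.sub_le _ _) hb)
      omega
    intro x a b ha hb h
    rcases le_total a b with hab | hab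
    · exact key x a b hab hb h
    · exact (key x b a hab ha h.symm).symm
  choose i hi hid using fun d : D => hex (r d) d (hr d)
  refine ⟨fun d => ∑ j ∈ range (i d), f ((σ ^ j) (r d)), fun d => ?_⟩
  have h1 : (σ ^ (i d + 1)) (r d) = σ d := by
    rw [pow_succ', Equiv.Perm.mul_apply, hid]
  have h2 : (σ ^ i (σ d)) (r d) = σ d := by
    rw [← hrσ d]
    exact hid (σ d)
  have h3 : i (σ d) < N (r d) := by
    have := hi (σ d)
    rwa [hrσ d] at this
  show ∑ j ∈ range (i (σ d)), f ((σ ^ j) (r (σ d))) = ∑ j ∈ range (i d), f ((σ ^ j) (r d)) + f d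
  rw [hrσ d]
  have h4 : ∑ j ∈ range (i d), f ((σ ^ j) (r d)) + f d
      = ∑ j ∈ range (i d + 1), f ((σ ^ j) (r d)) := by
    rw [sum_range_succ, hid]
  rw [h4]
  rcases lt_or_ge (i d + 1) (N (r d)) with hlt | hge
  · have : i (σ d) = i d + 1 := hinj (r d) _ _ h3 hlt (by rw [h1, h2])
    rw [this]
  · have hN : i d + 1 = N (r d) := le_antisymm (hi d) hge
    have h5 : (σ ^ i (σ d)) (r d) = r d := by
      rw [h2, ← h1, hN, hNd]
    have h6 := Nat.eq_zero_of_dvd_of_lt (hdvd (r d) _ h5) h3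
    rw [h6, hN]
    have h7 := hsum (r d) f (univ.filter (fun e => σ.SameCycle (r d) e)) (by intro e; simp)
    rw [← h7, hf (r d) _ (by intro e; simp)]
    simp

namespace Surface

variable {D : Type} [Fintype D] [DecidableEq D] {S : Surface D}

/-- Row PM1. `exists_potential` for `f d = -log (rat (nxt (nxt d)))`, `sc = exp F`. -/
theorem exists_isScale (hS : S.IsDilationSurface) : ∃ sc : D → ℝ, S.IsScale sc := by
  obtain ⟨F, hF⟩ := exists_potential S.rot (fun d => -Real.log (S.rat (S.nxt (S.nxt d)))) (by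
    intro d K hK
    have hKs : K = S.star d := by
      ext e
      rw [hK]
      simp [Surface.star]
    have h1 := hS.holonomy d
    rw [hKs, sum_neg_distrib, ← Real.log_prod (fun e _ => (S.rat_pos _).ne'), h1]
    simp)
  refine ⟨fun d => Real.exp (F d), fun d => Real.exp_pos _, fun d => ?_⟩
  show Real.exp (F (S.rot d)) * S.rat (S.nxt (S.nxt d)) = Real.exp (F d)
  rw [hF, Real.exp_add, Real.exp_neg, Real.exp_log (S.rat_pos _)]
  have := (S.rat_pos (S.nxt (S.nxt d))).ne'
  field_simp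

end Surface

end MP28dde8T
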