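import Pool.Agent.Lib.MP_28dde8_gt.Tri.PM1

/-! # Row PM2: first returns -/

namespace MP28dde8T

open Finset

/-- `τ d` is the time of the first return to `L`. -/
structure IsNext {D : Type} (σ : Equiv.Perm D) (K L : Finset D) (τ : D → ℕ) : Prop where
  pos : ∀ d ∈ K, 0 < τ d
  mem : ∀ d ∈ K, (σ ^ (τ d)) d ∈ L
  not_mem : ∀ d ∈ K, ∀ i, 0 < i → i < τ d → (σ ^ i) d ∉ L

/-- Row PM2. `Nat.find` -/
theorem exists_isNext {D : Type} [Fintype D] [DecidableEq D] (σ : Equiv.Perm D) (K L : Finset D)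
    (h : ∀ d ∈ K, ∃ e ∈ L, σ.SameCycle d e) : ∃ τ : D → ℕ, IsNext σ K L τ := by
  classical
  have hex : ∀ d ∈ K, ∃ i, 0 < i ∧ (σ ^ i) d ∈ L := by
    intro d hd
    obtain ⟨e, he, hs⟩ := h d hd
    obtain ⟨i, hi, -, hie⟩ := hs.exists_pow_eq''
    exact ⟨i, hi, by rw [hie]; exact he⟩
  refine ⟨fun d => if hd : ∃ i, 0 < i ∧ (σ ^ i) d ∈ L then Nat.find hd else 0, ?_, ?_, ?_⟩
  · intro d hd
    have h1 := hex d hd
    rw [dif_pos h1]
    exact (Nat.find_spec h1).1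
  · intro d hd
    have h1 := hex d hd
    rw [dif_pos h1]
    exact (Nat.find_spec h1).2
  · intro d hd i hi hlt hmem
    have h1 := hex d hd
    rw [dif_pos h1] at hlt
    exact Nat.find_min h1 hlt ⟨hi, hmem⟩

private theorem PM2_one {D : Type} {σ : Equiv.Perm D} {K L : Finset D} {τ : D → ℕ}
    (h : IsNext σ K L τ) {d : D} (hd : d ∈ K) (hs : σ d ∈ L) : τ d = 1 := by
  have h1 := h.pos d hd
  by_contra h2
  exact h.not_mem d hd 1 one_pos (by omega) (by rwa [pow_one])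

private theorem PM2_succ {D : Type} {σ : Equiv.Perm D} {K L : Finset D} {τ : D → ℕ}
    (h : IsNext σ K L τ) {d : D} (hd : d ∈ K) (hd' : σ d ∈ K) (hs : σ d ∉ L) :
    τ d = τ (σ d) + 1 := by
  have h1 := h.pos d hd
  have h2 : τ d ≠ 1 := by
    intro h3
    have h4 := h.mem d hd
    rw [h3, pow_one] at h4
    exact hs h4
  have hp : ∀ i, (σ ^ i) (σ d) = (σ ^ (i + 1)) d := by
    intro i
    rw [pow_succ, Equiv.Perm.mul_apply]
  have h5 := h.mem (σ d) hd'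
  rw [hp] at h5
  rcases Nat.lt_trichotomy (τ (σ d) + 1) (τ d) with h6 | h6 | h6
  · exact absurd h5 (h.not_mem d hd _ (Nat.succ_pos _) h6)
  · exact h6.symm
  · exfalso
    refine h.not_mem (σ d) hd' (τ d - 1) (by omega) (by omega) ?_
    rw [hp, Nat.sub_add_cancel h1]
    exact h.mem d hd

/-- Row PM2. With `f d = ∑ i ∈ range (τ d), a ((σ ^ i) d)` one has `f d = a d` if `σ d ∈ L` and
`f d = a d + f (σ d)` otherwise. So `∑ K a = ∑ K f - ∑_{d ∈ K, σ d ∉ L} f (σ d) = ∑ K f - ∑_{K \ L} f`. -/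
theorem IsNext.sum {D : Type} [Fintype D] [DecidableEq D] {σ : Equiv.Perm D} {K L : Finset D}
    {τ : D → ℕ} (h : IsNext σ K L τ) (hLK : L ⊆ K) (hK : ∀ d, σ d ∈ K ↔ d ∈ K) (a : D → ℝ) :
    ∑ d ∈ L, ∑ i ∈ range (τ d), a ((σ ^ i) d) = ∑ d ∈ K, a d := by
  obtain ⟨f, hf⟩ : ∃ f : D → ℝ, ∀ d, f d = ∑ i ∈ range (τ d), a ((σ ^ i) d) := ⟨_, fun _ => rfl⟩
  have h1 : ∀ d ∈ K, f d = a d + if σ d ∈ L then 0 else f (σ d) := by
    intro d hd
    by_cases hs : σ d ∈ L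
    · rw [if_pos hs, hf, PM2_one h hd hs, sum_range_one, pow_zero, add_zero]
      rfl
    · rw [if_neg hs, hf, hf, PM2_succ h hd ((hK d).2 hd) hs, sum_range_succ', add_comm]
      congr 1
  have h2 : ∑ d ∈ K, (if σ d ∈ L then 0 else f (σ d)) = ∑ e ∈ K, if e ∈ L then 0 else f e :=
    sum_equiv σ (fun d => (hK d).symm) (fun d _ => rfl)
  have h3 : ∑ d ∈ K, f d = ∑ d ∈ L, f d + ∑ e ∈ K, if e ∈ L then 0 else f e := by
    have h4 : ∑ d ∈ L, f d = ∑ e ∈ K, if e ∈ L then f e else 0 := by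
      rw [sum_ite_mem, inter_eq_right.2 hLK]
    rw [h4, ← sum_add_distrib]
    refine sum_congr rfl fun e _ => ?_
    by_cases he : e ∈ L
    · rw [if_pos he, if_pos he, add_zero]
    · rw [if_neg he, if_neg he, zero_add]
  have h5 := sum_congr rfl h1
  rw [sum_add_distrib, h2, h3] at h5
  have h6 : ∑ d ∈ L, f d = ∑ d ∈ K, a d := by linarith
  rw [← h6]
  exact sum_congr rfl fun d _ => (hf d).symm

private theorem PM2_inj {D : Type} {σ : Equiv.Perm D} {K L : Finset D}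
    {τ : D → ℕ} (h : IsNext σ K L τ) (hLK : L ⊆ K) {d e : D} (hd : d ∈ L) (he : e ∈ L)
    (hde : (σ ^ (τ d)) d = (σ ^ (τ e)) e) (hle : τ d ≤ τ e) : d = e := by
  obtain ⟨i, hi⟩ := Nat.exists_eq_add_of_le hle
  rw [hi, pow_add, Equiv.Perm.mul_apply] at hde
  have h1 : d = (σ ^ i) e := (σ ^ (τ d)).injective hde
  rcases Nat.eq_zero_or_pos i with h2 | h2
  · rw [h2, pow_zero] at h1
    exact h1
  · exfalso
    have h3 := h.pos d (hLK hd)
    exact h.not_mem e (hLK he) i h2 (by omega) (by rw [← h1]; exact hd)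

/-- Row PM2. The first return map is injective. -/
theorem IsNext.inj {D : Type} {σ : Equiv.Perm D} {K L : Finset D}
    {τ : D → ℕ} (h : IsNext σ K L τ) (hLK : L ⊆ K) {d e : D} (hd : d ∈ L) (he : e ∈ L)
    (hde : (σ ^ (τ d)) d = (σ ^ (τ e)) e) : d = e := by
  rcases Nat.le_total (τ d) (τ e) with h1 | h1
  · exact PM2_inj h hLK hd he hde h1
  · exact (PM2_inj h hLK he hd hde.symm h1).symm

end MP28dde8T
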