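import Pool.Agent.Lib.MP_28dde8_gt.Tri.O5

/-! # Row T1: surfaces with two vertices, of cone angle `4 * π` -/

namespace MP28dde8T

open Finset

/-! `K` is the set of the sides which start at the first vertex. A side `d` in `K` with `nxt d ∈ K` is a
loop at the first vertex; with `nxt d ∉ K` it goes to the second vertex. -/

namespace Surface

variable {D : Type} [Fintype D] [DecidableEq D] {S : Surface D}

/-- the loops at the first vertex -/
def L1 (S : Surface D) (K : Finset D) : Finset D := K.filter (fun d => S.nxt d ∈ K)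

/-- the loops `b` at the first vertex such that the third vertex of the triangle of `b` is the second
vertex of the surface -/
def B1 (S : Surface D) (K : Finset D) : Finset D :=
  K.filter (fun d => S.nxt d ∈ K ∧ S.nxt (S.nxt d) ∉ K)

/-- the sides of the triangles all of whose vertices are the first vertex -/
def Z1 (S : Surface D) (K : Finset D) : Finset D :=
  K.filter (fun d => S.nxt d ∈ K ∧ S.nxt (S.nxt d) ∈ K)

/-- the scale at the second vertex in the triangle of `b`, divided by the scale at the first one -/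
noncomputable def kap (S : Surface D) (sc : D → ℝ) (b : D) : ℝ := sc (S.nxt (S.nxt b)) / sc b

/-- Row T1. The end of `d` is the first vertex iff the start of `opp d` is (`rot_nxt`). -/
theorem Two.opp_mem {K : Finset D} (hK : S.Two K) (d : D) : S.opp d ∈ K ↔ S.nxt d ∈ K := by
  rw [← S.rot_nxt, hK.inv]

theorem Two.nxt_opp_mem {K : Finset D} (hK : S.Two K) (d : D) : S.nxt (S.opp d) ∈ K ↔ d ∈ K := by
  rw [← hK.inv, S.rot_nxt_opp]

private theorem T1_cycle {K : Finset D} (hK : S.Two K) {d : D} (hd : d ∈ K) (e : D) :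
    e ∈ K ↔ S.rot.SameCycle d e := by
  constructor
  · intro he
    exact hK.tr d hd e he
  · intro h
    have hinv : ∀ e : D, S.rot.symm e ∈ K ↔ e ∈ K := by
      intro e
      rw [← hK.inv (S.rot.symm e), Equiv.apply_symm_apply]
    have hpow : ∀ (n : ℕ) (e : D), (S.rot ^ n) e ∈ K ↔ e ∈ K := by
      intro n
      induction n with
      | zero => intro e; simp
      | succ n ih =>
        intro e
        rw [pow_succ', Equiv.Perm.mul_apply, hK.inv, ih]
    obtain ⟨i, hi⟩ := h
    rw [← hi]
    cases i with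
    | ofNat n =>
      rw [Int.ofNat_eq_natCast, zpow_natCast, hpow]
      exact hd
    | negSucc n =>
      rw [zpow_negSucc, ← hpow (n + 1)]
      simpa using hd

/-- Row T1. The angles at the two ends of a loop (`exists_turn`, `turn_opp`): they are positive with
sum `4 * π` and of the form `π + 2 * π * k`. -/
theorem Two.turn {K : Finset D} (hK : S.Two K) {sc : D → ℝ} (h : S.IsScale sc) {d : D} (hd : d ∈ S.L1 K) :
    ∃ n n' : ℕ, 0 < n ∧ 0 < n' ∧ (S.rot ^ n) d = S.opp d ∧ (S.rot ^ n') (S.opp d) = d ∧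
      (∀ m, 0 < m → (S.rot ^ m) d = S.opp d → n ≤ m) ∧
      (∀ m, 0 < m → (S.rot ^ m) (S.opp d) = d → n' ≤ m) ∧
      ((S.turn d n = Real.pi ∧ S.turn (S.opp d) n' = 3 * Real.pi) ∨
        (S.turn d n = 3 * Real.pi ∧ S.turn (S.opp d) n' = Real.pi)) := by
  have hd1 : d ∈ K ∧ S.nxt d ∈ K := by
    simpa [L1] using hd
  have ho : S.opp d ∈ K := (hK.opp_mem d).2 hd1.2
  obtain ⟨n, n', hn, hn', h1, h2, h3, h4, h5⟩ := exists_turn (T1_cycle hK hd1.1) ho
  obtain ⟨k, hk⟩ := turn_opp h h1
  obtain ⟨k', hk'⟩ := turn_opp (d := S.opp d) (n := n') h (by rw [h2, S.opp_opp])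
  have hpos : 0 < S.turn d n := by
    have := turn_strictMono (S := S) d hn
    rwa [turn_zero] at this
  have hpos' : 0 < S.turn (S.opp d) n' := by
    have := turn_strictMono (S := S) (S.opp d) hn'
    rwa [turn_zero] at this
  have hpi := Real.pi_pos
  rw [hK.sum, hk, hk'] at h3
  rw [hk] at hpos
  rw [hk'] at hpos'
  have hsum : ((k + k' : ℤ) : ℝ) = 1 := by
    push_cast
    have h6 : Real.pi * ((k : ℝ) + k' - 1) = 0 := by linear_combination h3 / 2
    rcases mul_eq_zero.mp h6 with h7 | h7
    · exact absurd h7 hpi.ne'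
    · linarith
  have hsum' : k + k' = 1 := by exact_mod_cast hsum
  have hk0 : 0 ≤ k := by
    by_contra hlt
    have h6 : k ≤ -1 := by omega
    have h7 : (k : ℝ) ≤ -1 := by exact_mod_cast h6
    nlinarith
  have hk0' : 0 ≤ k' := by
    by_contra hlt
    have h6 : k' ≤ -1 := by omega
    have h7 : (k' : ℝ) ≤ -1 := by exact_mod_cast h6
    nlinarith
  refine ⟨n, n', hn, hn', h1, h2, h4, h5, ?_⟩
  rcases (by omega : (k = 0 ∧ k' = 1) ∨ (k = 1 ∧ k' = 0)) with ⟨h6, h7⟩ | ⟨h6, h7⟩
  · left
    subst h6 h7
    rw [hk, hk']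
    constructor
    · push_cast
      ring
    · push_cast
      ring
  · right
    subst h6 h7
    rw [hk, hk']
    constructor
    · push_cast
      ring
    · push_cast
      ring

/-- Row T1. The scale is the same at both ends of a loop: `scale_loop` for `d` or for `opp d`
(`eq_opp_iff`). -/
theorem Two.scale {K : Finset D} (hK : S.Two K) (hF : S.AllCylindersFlat) {sc : D → ℝ}
    (h : S.IsScale sc) {d : D} (hd : d ∈ K) (hd' : S.nxt d ∈ K) : sc (S.nxt d) = sc d := by
  obtain ⟨n, n', _, _, h1, h2, _, _, h3⟩ := hK.turn h (d := d) (by simp [L1, hd, hd'])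
  rcases h3 with ⟨h3, _⟩ | ⟨_, h3⟩
  · exact scale_loop hF h h1 h3
  · have h4 := scale_loop (d := S.opp d) (n := n') hF h (by rw [h2, S.opp_opp]) h3
    have h5 := h.opp d
    have h6 := h.opp (S.opp d)
    rw [S.opp_opp, h4] at h6
    have h7 := S.rat_opp d
    rw [← h5, ← h6]
    linear_combination sc d * h7

end Surface

end MP28dde8T
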