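import Pool.Agent.Lib.MP_28dde8_gt.Tri.T1

/-! # Row T2: quotients of scales, two vertices -/

namespace MP28dde8T

open Finset

namespace Surface

variable {D : Type} [Fintype D] [DecidableEq D] {S : Surface D}

/-- Row T2. If the quotient of the scales at the two vertices is a constant `κ`, rescale the second
vertex: `c d = sc d` for `d ∈ K` and `c d = sc d / κ` otherwise; `isTranslation_of_scale`. -/
theorem Two.isTranslation {K : Finset D} (hK : S.Two K) (hF : S.AllCylindersFlat) {sc : D → ℝ}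
    (h : S.IsScale sc) {κ : ℝ} (hκ : 0 < κ)
    (hq : ∀ d ∈ K, S.nxt d ∉ K → sc (S.nxt d) = κ * sc d) : S.IsTranslation := by
  refine isTranslation_of_scale (c := fun d => if d ∈ K then sc d else sc d / κ) ⟨?_, ?_⟩ ?_
  · intro d
    show 0 < if d ∈ K then sc d else sc d / κ
    have := h.pos d
    split_ifs
    · exact this
    · positivity
  · intro d
    show (if S.rot d ∈ K then sc (S.rot d) else sc (S.rot d) / κ) * S.rat (S.nxt (S.nxt d)) =
      if d ∈ K then sc d else sc d / κ
    have hr := h.rot d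
    by_cases hd : d ∈ K
    · rw [if_pos ((hK.inv d).mpr hd), if_pos hd, hr]
    · rw [if_neg (fun h' => hd ((hK.inv d).mp h')), if_neg hd, ← hr]
      ring
  · intro d
    show (if S.nxt d ∈ K then sc (S.nxt d) else sc (S.nxt d) / κ) =
      if d ∈ K then sc d else sc d / κ
    by_cases hd : d ∈ K <;> by_cases hd' : S.nxt d ∈ K
    · rw [if_pos hd, if_pos hd']
      exact hK.scale hF h hd hd'
    · rw [if_pos hd, if_neg hd', hq d hd hd']
      field_simp
    · rw [if_neg hd, if_pos hd']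
      have h1 := hq (S.opp d) ((hK.opp_mem d).mpr hd') (fun h' => hd ((hK.nxt_opp_mem d).mp h'))
      have h2 := h.opp d
      have h3 := h.opp (S.opp d)
      rw [S.opp_opp] at h3
      have h4 := S.rat_opp d
      rw [eq_div_iff hκ.ne']
      calc sc (S.nxt d) * κ = κ * sc (S.opp d) * S.rat d := by rw [← h2]; ring
        _ = sc d * (S.rat (S.opp d) * S.rat d) := by rw [← h1, ← h3]; ring
        _ = sc d := by rw [h4, mul_one]
    · rw [if_neg hd, if_neg hd']
      rw [hK.compl.scale hF h (mem_compl.mpr hd) (mem_compl.mpr hd')]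

/-- Row T2. For a triangle with exactly one side `b` which is a loop at the first vertex:
`kap b = sc (nxt (nxt b)) / sc b` is also the quotient of the scales at the ends of `nxt b` and of
`rot b` (`Two.scale`, `IsScale.rot`, `IsScale.opp`). -/
theorem Two.kap_eq {K : Finset D} (hK : S.Two K) (hF : S.AllCylindersFlat) {sc : D → ℝ}
    (h : S.IsScale sc) {b : D} (hb : b ∈ S.B1 K) :
    sc (S.nxt (S.nxt b)) = S.kap sc b * sc (S.nxt b) ∧
      sc (S.nxt (S.rot b)) = S.kap sc b * sc (S.rot b) ∧ S.rot b ∈ K ∧ S.nxt (S.rot b) ∉ K := by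
  rw [B1, mem_filter] at hb
  obtain ⟨hb1, hb2, hb3⟩ := hb
  have hs := hK.scale hF h hb1 hb2
  have hpos := h.pos b
  refine ⟨?_, ?_, (hK.inv b).mpr hb1, ?_⟩
  · rw [hs, kap]
    field_simp
  · have h1 := h.opp (S.rot b)
    have h2 := h.rot b
    rw [S.opp_rot] at h1
    have h3 := S.rat_opp (S.nxt (S.nxt b))
    rw [← S.rot_apply] at h3
    rw [kap, ← h1, div_mul_eq_mul_div, eq_div_iff hpos.ne', ← h2]
    linear_combination (sc (S.nxt (S.nxt b)) * sc (S.rot b)) * h3
  · intro h'
    rw [S.rot_apply] at h'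
    exact hb3 ((hK.nxt_opp_mem _).mp h')

/-- Row T2. The quotient of the scales does not change from `d` to `rot d` if both go to the second
vertex. -/
theorem Two.quot_rot {K : Finset D} (hK : S.Two K) (hF : S.AllCylindersFlat) {sc : D → ℝ}
    (h : S.IsScale sc) {d : D} (hd : d ∈ K) (hd' : S.nxt d ∉ K) (hr : S.nxt (S.rot d) ∉ K) :
    sc (S.nxt (S.rot d)) / sc (S.rot d) = sc (S.nxt d) / sc d := by
  have hm : S.nxt (S.nxt d) ∉ K := by
    intro h'
    apply hr
    rw [S.rot_apply]
    exact (hK.nxt_opp_mem _).mpr h'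
  have hs := hK.compl.scale hF h (mem_compl.mpr hd') (mem_compl.mpr hm)
  have h1 := h.opp (S.rot d)
  have h2 := h.rot d
  rw [S.opp_rot, hs] at h1
  have h3 := S.rat_opp (S.nxt (S.nxt d))
  rw [← S.rot_apply] at h3
  have p1 := h.pos d
  have p2 := h.pos (S.rot d)
  rw [div_eq_div_iff p2.ne' p1.ne', ← h1, ← h2]
  linear_combination (sc (S.nxt d) * sc (S.rot d)) * h3

/-- Row T2. If `kap` is constant on `B1` then the quotient of the scales is constant: induction along
`(rot ^ n) m₀` where `m₀ = rot b`, `b ∈ B1`, if `B1` is not empty; if `rot g` goes to the second vertex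
and `g` is a loop then `g ∈ B1`. If no side goes to the second vertex there is nothing to show. -/
theorem Two.isTranslation_of_kap {K : Finset D} (hK : S.Two K) (hF : S.AllCylindersFlat) {sc : D → ℝ}
    (h : S.IsScale sc) (hk : ∀ b ∈ S.B1 K, ∀ c ∈ S.B1 K, S.kap sc b = S.kap sc c) :
    S.IsTranslation := by
  by_cases hall : ∀ d ∈ K, S.nxt d ∈ K
  · exact hK.isTranslation hF h one_pos (fun d hd hd' => absurd (hall d hd) hd')
  push Not at hall
  obtain ⟨m₁, hm₁, hm₁'⟩ := hall
  obtain ⟨κ, m₀, hm₀, hm₀', hq₀, hκ⟩ : ∃ (κ : ℝ) (m₀ : D), m₀ ∈ K ∧ S.nxt m₀ ∉ K ∧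
      sc (S.nxt m₀) / sc m₀ = κ ∧ ∀ b ∈ S.B1 K, S.kap sc b = κ := by
    by_cases hB : (S.B1 K).Nonempty
    · obtain ⟨b, hb⟩ := hB
      obtain ⟨_, h2, h3, h4⟩ := hK.kap_eq hF h hb
      refine ⟨S.kap sc b, S.rot b, h3, h4, ?_, fun c hc => hk c hc b hb⟩
      rw [h2, mul_div_assoc, div_self (h.pos _).ne', mul_one]
    · exact ⟨_, m₁, hm₁, hm₁', rfl, fun b hb => absurd ⟨b, hb⟩ hB⟩
  have hmem : ∀ n : ℕ, (S.rot ^ n) m₀ ∈ K := by
    intro n
    induction n with
    | zero => simpa using hm₀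
    | succ n ih =>
      rw [pow_succ', Equiv.Perm.mul_apply]
      exact (hK.inv _).mpr ih
  have hind : ∀ n : ℕ, S.nxt ((S.rot ^ n) m₀) ∉ K →
      sc (S.nxt ((S.rot ^ n) m₀)) / sc ((S.rot ^ n) m₀) = κ := by
    intro n
    induction n with
    | zero =>
      intro _
      simpa using hq₀
    | succ n ih =>
      intro hn
      have hg := hmem n
      rw [pow_succ', Equiv.Perm.mul_apply] at hn ⊢
      by_cases hl : S.nxt ((S.rot ^ n) m₀) ∈ K
      · have hb : (S.rot ^ n) m₀ ∈ S.B1 K := by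
          rw [B1, mem_filter]
          refine ⟨hg, hl, fun h' => hn ?_⟩
          rw [S.rot_apply]
          exact (hK.nxt_opp_mem _).mpr h'
        obtain ⟨_, h2, _, _⟩ := hK.kap_eq hF h hb
        rw [h2, mul_div_assoc, div_self (h.pos _).ne', mul_one, hκ _ hb]
      · rw [hK.quot_rot hF h hg hl hn]
        exact ih hl
  have hκ0 : 0 < κ := by
    rw [← hq₀]
    exact div_pos (h.pos _) (h.pos _)
  refine hK.isTranslation hF h hκ0 (fun d hd hd' => ?_)
  obtain ⟨n, hn⟩ := (hK.tr m₀ hm₀ d hd).exists_nat_pow_eq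
  have h5 := hind n (by rw [hn]; exact hd')
  rw [hn] at h5
  rw [← h5, div_mul_cancel₀ _ (h.pos d).ne']

end Surface

end MP28dde8T
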