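import Pool.Agent.Lib.MP_28dde8_gt.Tri.T2

/-! # Row T3: two linear relations, two vertices -/

namespace MP28dde8T

open Finset

namespace Surface

variable {D : Type} [Fintype D] [DecidableEq D] {S : Surface D}

private theorem T3_split {K : Finset D} (f : D → ℂ) :
    ∑ b ∈ S.L1 K, f b = ∑ b ∈ S.B1 K, f b + ∑ b ∈ S.Z1 K, f b := by
  classical
  have h1 : S.L1 K = S.B1 K ∪ S.Z1 K := by
    ext d
    simp only [L1, B1, Z1, mem_filter, mem_union]
    tauto
  have h2 : Disjoint (S.B1 K) (S.Z1 K) := by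
    rw [Finset.disjoint_left]
    intro d hd hd'
    simp only [B1, Z1, mem_filter] at hd hd'
    exact hd.2.2 hd'.2.2
  rw [h1, Finset.sum_union h2]

private theorem T3_opp {X : Finset D} (hX : ∀ d ∈ X, S.opp d ∈ X) {f : D → ℂ}
    (hf : ∀ d ∈ X, f (S.opp d) = -f d) : ∑ d ∈ X, f d = 0 := by
  have h1 : ∑ d ∈ X, f (S.opp d) = ∑ d ∈ X, f d :=
    Finset.sum_nbij' S.opp S.opp hX hX (fun d _ => S.opp_opp d) (fun d _ => S.opp_opp d)
      (fun _ _ => rfl)
  rw [Finset.sum_congr rfl hf, Finset.sum_neg_distrib] at h1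
  linear_combination (-1 / 2 : ℂ) * h1

private theorem T3_tri {X : Finset D} (hX : ∀ d ∈ X, S.nxt d ∈ X) {f : D → ℂ}
    (hf : ∀ d ∈ X, f d + f (S.nxt d) + f (S.nxt (S.nxt d)) = 0) : ∑ d ∈ X, f d = 0 := by
  have h1 : ∀ g : D → ℂ, ∑ d ∈ X, g (S.nxt d) = ∑ d ∈ X, g d := fun g =>
    Finset.sum_nbij' S.nxt (fun d => S.nxt (S.nxt d)) hX (fun d hd => hX _ (hX _ hd))
      (fun d _ => S.nxt_nxt_nxt d) (fun d _ => S.nxt_nxt_nxt d) (fun _ _ => rfl)
  have h2 : ∑ d ∈ X, (f d + f (S.nxt d) + f (S.nxt (S.nxt d))) = 0 :=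
    Finset.sum_eq_zero hf
  rw [Finset.sum_add_distrib, Finset.sum_add_distrib, h1, h1 (fun d => f (S.nxt d)), h1] at h2
  linear_combination (1 / 3 : ℂ) * h2

/-- Row T3. The sum of `V` over all loops at the first vertex is `0` (`V (opp d) = -V d`), and the
sum over `Z1` is `0` (triangles). -/
theorem Two.sum_V {K : Finset D} (hK : S.Two K) (hF : S.AllCylindersFlat) {sc : D → ℝ}
    (h : S.IsScale sc) : ∑ b ∈ S.B1 K, S.V sc b = 0 := by
  have h1 : ∑ b ∈ S.L1 K, S.V sc b = 0 := by
    refine T3_opp (S := S) ?_ ?_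
    · intro d hd
      simp only [L1, mem_filter] at hd ⊢
      exact ⟨(hK.opp_mem d).2 hd.2, (hK.nxt_opp_mem d).2 hd.1⟩
    · intro d hd
      simp only [L1, mem_filter] at hd
      rw [h.V_opp, hK.scale hF h hd.1 hd.2, V]
  have h2 : ∑ b ∈ S.Z1 K, S.V sc b = 0 := by
    refine T3_tri (S := S) ?_ ?_
    · intro d hd
      simp only [Z1, mem_filter] at hd ⊢
      refine ⟨hd.2.1, hd.2.2, ?_⟩
      rw [S.nxt_nxt_nxt]
      exact hd.1
    · intro d hd
      simp only [Z1, mem_filter] at hd
      unfold V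
      rw [hK.scale hF h hd.2.1 hd.2.2, hK.scale hF h hd.1 hd.2.1]
      linear_combination (sc d : ℂ) * S.closed d
  rw [T3_split, h2, add_zero] at h1
  exact h1

open Classical in
/-- the scale at the second vertex in the triangle of `d` -/
private noncomputable def T3_w (S : Surface D) (K : Finset D) (sc : D → ℝ) (d : D) : ℝ :=
  if d ∉ K then sc d else if S.nxt d ∉ K then sc (S.nxt d) else
    if S.nxt (S.nxt d) ∉ K then sc (S.nxt (S.nxt d)) else 0

private theorem T3_w_nxt {K : Finset D} (hK : S.Two K) (hF : S.AllCylindersFlat) {sc : D → ℝ}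
    (h : S.IsScale sc) (d : D) : T3_w S K sc (S.nxt d) = T3_w S K sc d := by
  have hs : ∀ e : D, e ∉ K → S.nxt e ∉ K → sc (S.nxt e) = sc e := fun e he he' =>
    hK.compl.scale hF h (mem_compl.2 he) (mem_compl.2 he')
  unfold T3_w
  rw [S.nxt_nxt_nxt]
  by_cases ha : d ∈ K
  · by_cases hb : S.nxt d ∈ K
    · by_cases hc : S.nxt (S.nxt d) ∈ K
      · simp [ha, hb, hc]
      · simp [ha, hb, hc]
    · simp [ha, hb]
  · by_cases hb : S.nxt d ∈ K
    · by_cases hc : S.nxt (S.nxt d) ∈ K
      · simp [ha, hb, hc]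
      · have h1 := hs (S.nxt (S.nxt d)) hc (by rw [S.nxt_nxt_nxt]; exact ha)
        rw [S.nxt_nxt_nxt] at h1
        simp [ha, hb, hc, h1]
    · simp [ha, hb, hs d ha hb]

/-- Row T3. Let `W d` be `vec d` in the scale of the second vertex, if some corner of the triangle of
`d` is the second vertex (`W d = sc e * vec d`, where `e` is the first of `d`, `nxt d`,
`nxt (nxt d)` which is not in `K`; by `Two.scale` this does not depend on the choice), and `0` otherwise.
The sum of `W` over all sides is `0` (triangles). `W (opp d) = -W d` if an end of `d` is the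
second vertex. So the sum of `W` over the sides whose ends are both the first vertex is `0`. This is
the sum of `W b = kap b * V b` over `B1`. -/
theorem Two.sum_kap {K : Finset D} (hK : S.Two K) (hF : S.AllCylindersFlat) {sc : D → ℝ}
    (h : S.IsScale sc) : ∑ b ∈ S.B1 K, (S.kap sc b : ℂ) * S.V sc b = 0 := by
  classical
  let W : D → ℂ := fun d => (T3_w S K sc d : ℂ) * S.vec d
  have hall : ∑ d : D, W d = 0 := by
    refine T3_tri (S := S) (fun d _ => mem_univ _) ?_
    intro d _
    simp only [W]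
    rw [T3_w_nxt hK hF h (S.nxt d), T3_w_nxt hK hF h d]
    linear_combination (T3_w S K sc d : ℂ) * S.closed d
  have hout : ∑ d ∈ (S.L1 K)ᶜ, W d = 0 := by
    refine T3_opp (S := S) ?_ ?_
    · intro d hd
      simp only [L1, mem_compl, mem_filter, not_and] at hd ⊢
      intro h1 h2
      exact hd ((hK.nxt_opp_mem d).1 h2) ((hK.opp_mem d).1 h1)
    · intro d hd
      simp only [L1, mem_compl, mem_filter, not_and] at hd
      simp only [W]
      by_cases ha : d ∈ K
      · have hb : S.nxt d ∉ K := hd ha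
        have ho : S.opp d ∉ K := fun h1 => hb ((hK.opp_mem d).1 h1)
        have h1 : T3_w S K sc (S.opp d) = sc (S.opp d) := by
          unfold T3_w
          rw [if_pos ho]
        have h2 : T3_w S K sc d = sc (S.nxt d) := by
          unfold T3_w
          rw [if_neg (not_not.2 ha), if_pos hb]
        rw [h1, h2]
        exact h.V_opp d
      · have h2 : T3_w S K sc d = sc d := by
          unfold T3_w
          rw [if_pos ha]
        rw [h2]
        by_cases hb : S.nxt d ∈ K
        · have ho : S.opp d ∈ K := (hK.opp_mem d).2 hb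
          have ho' : S.nxt (S.opp d) ∉ K := fun h1 => ha ((hK.nxt_opp_mem d).1 h1)
          have h1 : T3_w S K sc (S.opp d) = sc (S.nxt (S.opp d)) := by
            unfold T3_w
            rw [if_neg (not_not.2 ho), if_pos ho']
          rw [h1, ← h.opp (S.opp d), S.opp_opp, S.glue]
          have h3 : ((S.rat (S.opp d) : ℝ) : ℂ) * (S.rat d : ℂ) = 1 := by
            exact_mod_cast S.rat_opp d
          push_cast
          linear_combination (-(sc d : ℂ) * S.vec d) * h3
        · have ho : S.opp d ∉ K := fun h1 => hb ((hK.opp_mem d).1 h1)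
          have h1 : T3_w S K sc (S.opp d) = sc (S.opp d) := by
            unfold T3_w
            rw [if_pos ho]
          have h3 := h.V_opp d
          rw [hK.compl.scale hF h (mem_compl.2 ha) (mem_compl.2 hb)] at h3
          rw [h1]
          exact h3
  have hin : ∑ d ∈ S.L1 K, W d = 0 := by
    have h1 := Finset.sum_add_sum_compl (S.L1 K) W
    rw [hall, hout, add_zero] at h1
    exact h1
  have hZ : ∑ d ∈ S.Z1 K, W d = 0 := by
    refine Finset.sum_eq_zero fun d hd => ?_
    simp only [Z1, mem_filter] at hd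
    have h1 : T3_w S K sc d = 0 := by
      unfold T3_w
      rw [if_neg (not_not.2 hd.1), if_neg (not_not.2 hd.2.1), if_neg (not_not.2 hd.2.2)]
    simp only [W]
    rw [h1]
    simp
  rw [T3_split, hZ, add_zero] at hin
  rw [← hin]
  refine Finset.sum_congr rfl fun b hb => ?_
  simp only [B1, mem_filter] at hb
  have h1 : T3_w S K sc b = sc (S.nxt (S.nxt b)) := by
    unfold T3_w
    rw [if_neg (not_not.2 hb.1), if_neg (not_not.2 hb.2.1), if_pos hb.2.2]
  have h2 : (sc b : ℂ) ≠ 0 := by exact_mod_cast (h.pos b).ne'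
  simp only [W]
  rw [h1]
  unfold kap V
  push_cast
  field_simp

end Surface

end MP28dde8T
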