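import Pool.Agent.Lib.MP_28dde8_gt.Tri.T3

/-! # Row T4a: counting, two vertices -/

namespace MP28dde8T

open Finset

namespace Surface

variable {D : Type} [Fintype D] [DecidableEq D] {S : Surface D}

theorem t4a_card (X : Finset D) : X.card = ∑ d : D, if d ∈ X then 1 else 0 := by
  simp

theorem t4a_dvd {p : ℕ} [Fact p.Prime] (σ : Equiv.Perm D) (X : Finset D)
    (hX : ∀ d, σ d ∈ X ↔ d ∈ X) (hσ : σ ^ p = 1) (hne : ∀ d, σ d ≠ d) : p ∣ X.card := by
  have hτ : (σ.subtypePerm hX) ^ p ^ 1 = 1 := by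
    rw [pow_one]
    ext x
    rw [Equiv.Perm.subtypePerm_pow]
    simp [hσ]
  have h1 := Equiv.Perm.card_compl_support_modEq hτ
  have h2 : (σ.subtypePerm hX).supportᶜ = ∅ := by
    rw [compl_eq_empty_iff]
    ext x
    simp only [Equiv.Perm.mem_support, mem_univ, iff_true]
    intro h
    exact hne x.1 (congrArg Subtype.val h)
  rw [h2, card_empty, Fintype.card_coe] at h1
  exact (Nat.modEq_zero_iff_dvd).1 h1.symm

/-- Row T4a. Count the sides by triangles: types 111, 112, 122, 222. Also the number of loops is even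
(`opp` has no fixed points) and `card Z1` is divisible by 3. -/
theorem Two.card_add {K : Finset D} (hK : S.Two K) :
    (S.Z1 K).card + 3 * (S.B1 K).card + (S.Z1 Kᶜ).card + 3 * (S.B1 Kᶜ).card = 24 := by
  have hn : ∀ X : Finset D, X.card = ∑ d : D, if S.nxt d ∈ X then 1 else 0 := by
    intro X
    rw [t4a_card X]
    exact (Equiv.sum_comp S.nxt (fun d => if d ∈ X then 1 else 0)).symm
  have hnn : ∀ X : Finset D, X.card = ∑ d : D, if S.nxt (S.nxt d) ∈ X then 1 else 0 := by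
    intro X
    rw [hn X]
    exact (Equiv.sum_comp S.nxt (fun d => if S.nxt d ∈ X then 1 else 0)).symm
  have h1 : (S.Z1 K).card + ((S.B1 K).card + (S.B1 K).card + (S.B1 K).card) + (S.Z1 Kᶜ).card +
      ((S.B1 Kᶜ).card + (S.B1 Kᶜ).card + (S.B1 Kᶜ).card) = 24 := by
    have key : ∑ d : D, ((if d ∈ S.Z1 K then 1 else 0) + ((if d ∈ S.B1 K then 1 else 0) +
        (if S.nxt d ∈ S.B1 K then 1 else 0) + (if S.nxt (S.nxt d) ∈ S.B1 K then 1 else 0)) +
        (if d ∈ S.Z1 Kᶜ then 1 else 0) + ((if d ∈ S.B1 Kᶜ then 1 else 0) +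
        (if S.nxt d ∈ S.B1 Kᶜ then 1 else 0) + (if S.nxt (S.nxt d) ∈ S.B1 Kᶜ then 1 else 0))) =
        ∑ _d : D, 1 := by
      apply sum_congr rfl
      intro d _
      simp only [Z1, B1, mem_filter, mem_compl, S.nxt_nxt_nxt]
      by_cases a : d ∈ K <;> by_cases b : S.nxt d ∈ K <;> by_cases c : S.nxt (S.nxt d) ∈ K <;>
        simp [a, b, c]
    simp only [sum_add_distrib] at key
    rw [← t4a_card, ← t4a_card, ← t4a_card, ← t4a_card, ← hn, ← hn, ← hnn, ← hnn] at key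
    rw [key, ← hK.card, ← card_univ, card_eq_sum_ones]
  omega

/-- Row T4a -/
theorem Two.dvd {K : Finset D} (hK : S.Two K) :
    3 ∣ (S.Z1 K).card ∧ 2 ∣ (S.Z1 K).card + (S.B1 K).card ∧ Disjoint (S.Z1 K) (S.B1 K) ∧
      S.Z1 K ∪ S.B1 K = S.L1 K ∧ ∀ d, S.opp d ∈ S.L1 K ↔ d ∈ S.L1 K := by
  have hdis : Disjoint (S.Z1 K) (S.B1 K) := by
    rw [Finset.disjoint_left]
    intro d h1 h2
    exact (mem_filter.1 h2).2.2 (mem_filter.1 h1).2.2
  have hun : S.Z1 K ∪ S.B1 K = S.L1 K := by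
    ext d
    simp only [Z1, B1, L1, mem_union, mem_filter]
    by_cases c : S.nxt (S.nxt d) ∈ K <;> simp [c]
  have hop : ∀ d, S.opp d ∈ S.L1 K ↔ d ∈ S.L1 K := by
    intro d
    simp only [L1, mem_filter]
    rw [hK.opp_mem, hK.nxt_opp_mem]
    exact and_comm
  refine ⟨?_, ?_, hdis, hun, hop⟩
  · haveI : Fact (Nat.Prime 3) := ⟨Nat.prime_three⟩
    apply t4a_dvd S.nxt
    · intro d
      simp only [Z1, mem_filter, S.nxt_nxt_nxt]
      tauto
    · ext d
      exact S.nxt_nxt_nxt d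
    · exact S.nxt_ne
  · rw [← card_union_of_disjoint hdis, hun]
    haveI : Fact (Nat.Prime 2) := ⟨Nat.prime_two⟩
    apply t4a_dvd S.opp
    · exact hop
    · ext d
      exact S.opp_opp d
    · exact S.opp_ne

end Surface

end MP28dde8T
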