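import Pool.Agent.Lib.MP_28dde8_gt.Tri.T4a

/-! # Row T4b: few boundary sides, two vertices -/

namespace MP28dde8T

open Finset

namespace Surface

variable {D : Type} [Fintype D] [DecidableEq D] {S : Surface D}

/-- Row T4b. At most two elements: `Two.sum_V`, `Two.sum_kap`. -/
theorem Two.kap_of_card_le {K : Finset D} (hK : S.Two K) (hF : S.AllCylindersFlat) {sc : D → ℝ}
    (h : S.IsScale sc) (hc : (S.B1 K).card ≤ 2) {b c : D} (hb : b ∈ S.B1 K) (hc' : c ∈ S.B1 K) :
    S.kap sc b = S.kap sc c := by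
  by_cases hbc : b = c
  · rw [hbc]
  · have hB : S.B1 K = {b, c} := by
      symm
      apply eq_of_subset_of_card_le
      · intro d hd
        rcases mem_insert.1 hd with h1 | h1
        · rw [h1]; exact hb
        · rw [mem_singleton.1 h1]; exact hc'
      · rw [card_pair hbc]
        exact hc
    have h1 := hK.sum_V hF h
    have h2 := hK.sum_kap hF h
    rw [hB, sum_pair hbc] at h1 h2
    have h3 : ((S.kap sc b : ℂ) - (S.kap sc c : ℂ)) * S.V sc b = 0 := by
      linear_combination h2 - (S.kap sc c : ℂ) * h1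
    rcases mul_eq_zero.1 h3 with h4 | h4
    · exact_mod_cast sub_eq_zero.1 h4
    · exact absurd h4 (h.V_ne b)

private theorem T4b_par {a b : ℂ} (hab : 0 < det a b) {x y : ℝ}
    (h : (x : ℂ) * a + (y : ℂ) * b = 0) : x = 0 ∧ y = 0 := by
  have h1 : det a ((x : ℂ) * a + (y : ℂ) * b) = 0 := by rw [h, det_zero_right]
  have h2 : det ((x : ℂ) * a + (y : ℂ) * b) b = 0 := by rw [h, det_zero_left]
  rw [det_add_right, det_smul_right, det_smul_right, det_self, mul_zero, zero_add] at h1
  rw [det_add_left, det_smul_left, det_smul_left, det_self, mul_zero, add_zero] at h2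
  refine ⟨?_, ?_⟩
  · rcases mul_eq_zero.1 h2 with h3 | h3
    · exact h3
    · exact absurd h3 hab.ne'
  · rcases mul_eq_zero.1 h1 with h3 | h3
    · exact h3
    · exact absurd h3 hab.ne'

/-- Row T4b. Three elements and one triangle with all vertices the first vertex: `opp` maps the sides
`x`, `nxt x`, `nxt (nxt x)` of this triangle to `B1` (`opp_ne_nxt`, `opp_ne_nxt_nxt`), so
`B1 = {opp x, opp (nxt x), opp (nxt (nxt x))}`; `Two.sum_kap` and `V x`, `V (nxt x)` not parallel. -/
theorem Two.kap_of_card_three {K : Finset D} (hK : S.Two K) (hF : S.AllCylindersFlat) {sc : D → ℝ}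
    (h : S.IsScale sc) (hc : (S.B1 K).card = 3) (hz : (S.Z1 K).card = 3) {b c : D}
    (hb : b ∈ S.B1 K) (hc' : c ∈ S.B1 K) : S.kap sc b = S.kap sc c := by
  obtain ⟨-, -, hdisj, hun, hopp⟩ := hK.dvd
  have hne : (S.Z1 K).Nonempty := card_pos.1 (by omega)
  obtain ⟨x, hx⟩ := hne
  have hmemZ : ∀ d, d ∈ S.Z1 K ↔ d ∈ K ∧ S.nxt d ∈ K ∧ S.nxt (S.nxt d) ∈ K := by
    intro d
    unfold Z1
    rw [mem_filter]
  have hxn : ∀ d ∈ S.Z1 K, S.nxt d ∈ S.Z1 K := by
    intro d hd
    obtain ⟨h1, h2, h3⟩ := (hmemZ d).1 hd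
    exact (hmemZ _).2 ⟨h2, h3, by rw [S.nxt_nxt_nxt]; exact h1⟩
  have hy := hxn x hx
  have hz' := hxn _ hy
  have d1 : x ≠ S.nxt x := (S.nxt_ne x).symm
  have d2 : x ≠ S.nxt (S.nxt x) := (S.nxt_nxt_ne x).symm
  have d3 : S.nxt x ≠ S.nxt (S.nxt x) := (S.nxt_ne _).symm
  have hZ : S.Z1 K = {x, S.nxt x, S.nxt (S.nxt x)} := by
    symm
    apply eq_of_subset_of_card_le
    · intro d hd
      rw [mem_insert, mem_insert, mem_singleton] at hd
      rcases hd with h1 | h1 | h1
      · rw [h1]; exact hx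
      · rw [h1]; exact hy
      · rw [h1]; exact hz'
    · rw [card_eq_three.2 ⟨_, _, _, d1, d2, d3, rfl⟩, hz]
  have hmap : ∀ d ∈ S.Z1 K, S.opp d ∈ S.B1 K := by
    intro d hd
    have h1 : d ∈ S.L1 K := by rw [← hun]; exact mem_union_left _ hd
    have h2 : S.opp d ∈ S.L1 K := (hopp d).2 h1
    rw [← hun] at h2
    rcases mem_union.1 h2 with h3 | h3
    · exfalso
      have h4 : S.Z1 K = {d, S.nxt d, S.nxt (S.nxt d)} := by
        symm
        apply eq_of_subset_of_card_le
        · intro e he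
          rw [mem_insert, mem_insert, mem_singleton] at he
          rcases he with h1 | h1 | h1
          · rw [h1]; exact hd
          · rw [h1]; exact hxn d hd
          · rw [h1]; exact hxn _ (hxn d hd)
        · rw [card_eq_three.2 ⟨_, _, _, (S.nxt_ne d).symm, (S.nxt_nxt_ne d).symm,
            (S.nxt_ne _).symm, rfl⟩, hz]
      rw [h4, mem_insert, mem_insert, mem_singleton] at h3
      rcases h3 with h5 | h5 | h5
      · exact S.opp_ne d h5
      · exact S.opp_ne_nxt d h5
      · exact S.opp_ne_nxt_nxt d h5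
    · exact h3
  have e1 : S.opp x ≠ S.opp (S.nxt x) := fun h1 => d1 (S.opp.injective h1)
  have e2 : S.opp x ≠ S.opp (S.nxt (S.nxt x)) := fun h1 => d2 (S.opp.injective h1)
  have e3 : S.opp (S.nxt x) ≠ S.opp (S.nxt (S.nxt x)) := fun h1 => d3 (S.opp.injective h1)
  have hB : S.B1 K = {S.opp x, S.opp (S.nxt x), S.opp (S.nxt (S.nxt x))} := by
    symm
    apply eq_of_subset_of_card_le
    · intro d hd
      rw [mem_insert, mem_insert, mem_singleton] at hd
      rcases hd with h1 | h1 | h1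
      · rw [h1]; exact hmap x hx
      · rw [h1]; exact hmap _ hy
      · rw [h1]; exact hmap _ hz'
    · rw [card_eq_three.2 ⟨_, _, _, e1, e2, e3, rfl⟩, hc]
  have hsc : ∀ d ∈ S.Z1 K, sc (S.nxt d) = sc d := by
    intro d hd
    obtain ⟨h1, h2, -⟩ := (hmemZ d).1 hd
    exact hK.scale hF h h1 h2
  have hV : ∀ d ∈ S.Z1 K, S.V sc (S.opp d) = -(S.V sc d) := by
    intro d hd
    rw [h.V_opp, hsc d hd, V]
  have s1 := hsc x hx
  have s2 := hsc _ hy
  have hsum : S.V sc (S.nxt (S.nxt x)) = -(S.V sc x) - S.V sc (S.nxt x) := by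
    unfold V
    rw [s2, s1, S.vec_nxt_nxt]
    ring
  have h2 := hK.sum_kap hF h
  rw [hB, sum_insert (by
    rw [mem_insert, mem_singleton]
    rintro (h1 | h1)
    · exact e1 h1
    · exact e2 h1), sum_pair e3, hV x hx, hV _ hy, hV _ hz', hsum] at h2
  have hdet : 0 < det (S.V sc x) (S.V sc (S.nxt x)) := by
    unfold V
    rw [det_smul_left, det_smul_right]
    have h3 := S.ccw x
    have h4 := h.pos x
    have h5 := h.pos (S.nxt x)
    positivity
  obtain ⟨k1, k2⟩ := T4b_par hdet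
    (x := S.kap sc (S.opp (S.nxt (S.nxt x))) - S.kap sc (S.opp x))
    (y := S.kap sc (S.opp (S.nxt (S.nxt x))) - S.kap sc (S.opp (S.nxt x))) (by
      push_cast
      linear_combination h2)
  have hall : ∀ d ∈ S.B1 K, S.kap sc d = S.kap sc (S.opp (S.nxt (S.nxt x))) := by
    intro d hd
    rw [hB, mem_insert, mem_insert, mem_singleton] at hd
    rcases hd with h1 | h1 | h1
    · rw [h1]; linarith
    · rw [h1]; linarith
    · rw [h1]
  rw [hall b hb, hall c hc']

end Surface

end MP28dde8T
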