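import Pool.Agent.Lib.MP_28dde8_gt.Tri.G4b

/-! # Row T5a: the two sides of a strip -/

namespace MP28dde8T

open Finset

namespace Surface

variable {D : Type} [Fintype D] [DecidableEq D] {S : Surface D}

/-- The angle from the loop `b` to the loop `c` is `π`, and there is no loop between them. -/
structure Run (S : Surface D) (K : Finset D) (b c : D) (n : ℕ) : Prop where
  pos : 0 < n
  eq : (S.rot ^ n) b = c
  not_mem : ∀ i, 0 < i → i < n → (S.rot ^ i) b ∉ S.L1 K
  turn : S.turn b n = Real.pi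

/-- The first vertex has exactly two loops `x`, `y`, in the order `x`, `opp x`, `y`, `opp y`, and all
four angles are `π`. -/
structure Par (S : Surface D) (K : Finset D) (x y : D) : Prop where
  mem : ∀ d, d ∈ S.L1 K ↔ d = x ∨ d = S.opp x ∨ d = y ∨ d = S.opp y
  eq : S.B1 K = S.L1 K
  ne : x ≠ y
  run₁ : ∃ n, S.Run K x (S.opp x) n
  run₂ : ∃ n, S.Run K (S.opp x) y n
  run₃ : ∃ n, S.Run K y (S.opp y) n
  run₄ : ∃ n, S.Run K (S.opp y) x n

theorem Par.symm {K : Finset D} {x y : D} (h : S.Par K x y) : S.Par K y x where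
  mem := fun d => by rw [h.mem]; tauto
  eq := h.eq
  ne := h.ne.symm
  run₁ := h.run₃
  run₂ := h.run₄
  run₃ := h.run₁
  run₄ := h.run₂

/-- Row T5a. `kap` at the two sides of a strip: `kap b` is the quotient of the scales for `rot b`, and
then for all `(rot ^ i) b`, `0 < i < τ` (`Two.quot_rot`), the last of which is `nxt (opp c)`
(`Two.kap_eq`, `rot_nxt_opp`). -/
theorem Two.kap_next {K : Finset D} (hK : S.Two K) (hF : S.AllCylindersFlat) {sc : D → ℝ}
    (h : S.IsScale sc) {b c : D} {n : ℕ} (hb : b ∈ S.B1 K) (hc : S.opp c ∈ S.B1 K) (h0 : 0 < n)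
    (hn : (S.rot ^ n) b = c) (hm : ∀ i, 0 < i → i < n → (S.rot ^ i) b ∉ S.L1 K) :
    S.kap sc b = S.kap sc (S.opp c) ∧
      ∀ i, 0 < i → i < n → sc (S.nxt ((S.rot ^ i) b)) = S.kap sc b * sc ((S.rot ^ i) b) := by
  have hbK : b ∈ K := (Finset.mem_filter.mp hb).1
  have hcB := Finset.mem_filter.mp hc
  have hocK : S.opp c ∈ K := hcB.1
  have hcK : c ∈ K := (hK.nxt_opp_mem c).mp hcB.2.1
  have hncK : S.nxt c ∈ K := (hK.opp_mem c).mp hocK
  -- all the sides around the first vertex are in `K`
  have hin : ∀ i : ℕ, (S.rot ^ i) b ∈ K := by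
    intro i
    induction i with
    | zero => simpa using hbK
    | succ i ih =>
      rw [pow_succ', Equiv.Perm.mul_apply, hK.inv]
      exact ih
  have hout : ∀ i, 0 < i → i < n → S.nxt ((S.rot ^ i) b) ∉ K := by
    intro i hi hin' hmem
    exact hm i hi hin' (Finset.mem_filter.mpr ⟨hin i, hmem⟩)
  have hkb := hK.kap_eq hF h hb
  have hq : ∀ i, 0 < i → i < n →
      sc (S.nxt ((S.rot ^ i) b)) = S.kap sc b * sc ((S.rot ^ i) b) := by
    intro i
    induction i with
    | zero => intro h1; exact absurd h1 (lt_irrefl 0)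
    | succ i ih =>
      intro _ hlt
      rcases Nat.eq_zero_or_pos i with h1 | h1
      · subst h1
        simpa using hkb.2.1
      · have h2 := ih h1 (by omega)
        have h3 := hK.quot_rot hF h (hin i) (hout i h1 (by omega)) (by
          have h4 := hout (i + 1) (by omega) hlt
          rwa [pow_succ', Equiv.Perm.mul_apply] at h4)
        rw [pow_succ', Equiv.Perm.mul_apply]
        have p1 := h.pos ((S.rot ^ i) b)
        have p2 := h.pos (S.rot ((S.rot ^ i) b))
        rw [h2, mul_div_assoc, div_self p1.ne', mul_one] at h3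
        rwa [div_eq_iff p2.ne'] at h3
  refine ⟨?_, hq⟩
  have hn1 : n ≠ 1 := by
    intro h1
    subst h1
    rw [pow_one] at hn
    exact hkb.2.2.2 (by rw [hn]; exact hncK)
  have h5 : S.rot ((S.rot ^ (n - 1)) b) = c := by
    rw [← Equiv.Perm.mul_apply, ← pow_succ', Nat.sub_add_cancel h0]
    exact hn
  have h6 : (S.rot ^ (n - 1)) b = S.nxt (S.opp c) :=
    S.rot.injective (by rw [h5, S.rot_nxt_opp])
  have h7 := hq (n - 1) (by omega) (by omega)
  rw [h6] at h7
  have h8 := (hK.kap_eq hF h hc).1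
  rw [h7] at h8
  exact mul_right_cancel₀ (h.pos _).ne' h8

end Surface

end MP28dde8T
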