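import Pool.Agent.Lib.MP_28dde8_gt.Tri.T5a

/-! # Row T5b: four loops -/

namespace MP28dde8T

open Finset

namespace Surface

variable {D : Type} [Fintype D] [DecidableEq D] {S : Surface D}

private def T5b_hyp (a b c d : Fin 4) : Bool :=
  a != 0 && b != 1 && c != 2 && d != 3 && a != b && a != c && a != d && b != c && b != d && c != d &&
    !(a == 1 && b == 0) && !(a == 2 && c == 0) && !(a == 3 && d == 0) && !(b == 2 && c == 1) &&
    !(b == 3 && d == 1) && !(c == 3 && d == 2)

private def T5b_con (a b c d : Fin 4) : Bool :=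
  (a == 1 && b == 2 && c == 3 && d == 0) || (a == 1 && d == 2) ||
    (a == 2 && c == 1 && b == 3 && d == 0) || (c == 3 && b == 0) ||
    (a == 3 && d == 1 && b == 2 && c == 0) || (d == 2 && b == 0)

private theorem T5b_comb' : ∀ a b c d : Fin 4, T5b_hyp a b c d = true → T5b_con a b c d = true := by
  decide

private theorem T5b_comb (g : Fin 4 → Fin 4) (hg : Function.Injective g) (h1 : ∀ i, g i ≠ i)
    (h2 : ∀ i, g (g i) ≠ i) :
    (g 0 = 1 ∧ g 1 = 2 ∧ g 2 = 3 ∧ g 3 = 0) ∨ (g 0 = 1 ∧ g 3 = 2) ∨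
    (g 0 = 2 ∧ g 2 = 1 ∧ g 1 = 3 ∧ g 3 = 0) ∨ (g 2 = 3 ∧ g 1 = 0) ∨
    (g 0 = 3 ∧ g 3 = 1 ∧ g 1 = 2 ∧ g 2 = 0) ∨ (g 3 = 2 ∧ g 1 = 0) := by
  have h3 : ∀ i j, i ≠ j → ¬ (g i = j ∧ g j = i) := by
    rintro i j _ ⟨h4, h5⟩
    exact h2 i (by rw [h4, h5])
  have h4 : T5b_hyp (g 0) (g 1) (g 2) (g 3) = true := by
    have e1 := not_and_or.mp (h3 0 1 (by decide))
    have e2 := not_and_or.mp (h3 0 2 (by decide))
    have e3 := not_and_or.mp (h3 0 3 (by decide))
    have e4 := not_and_or.mp (h3 1 2 (by decide))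
    have e5 := not_and_or.mp (h3 1 3 (by decide))
    have e6 := not_and_or.mp (h3 2 3 (by decide))
    have i1 := hg.ne (show (0 : Fin 4) ≠ 1 by decide)
    have i2 := hg.ne (show (0 : Fin 4) ≠ 2 by decide)
    have i3 := hg.ne (show (0 : Fin 4) ≠ 3 by decide)
    have i4 := hg.ne (show (1 : Fin 4) ≠ 2 by decide)
    have i5 := hg.ne (show (1 : Fin 4) ≠ 3 by decide)
    have i6 := hg.ne (show (2 : Fin 4) ≠ 3 by decide)
    have j1 := h1 0
    have j2 := h1 1
    have j3 := h1 2
    have j4 := h1 3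
    simp only [T5b_hyp, Bool.and_eq_true, bne_iff_ne, Bool.not_eq_true', Bool.and_eq_false_iff,
      beq_eq_false_iff_ne]
    repeat' apply And.intro
    all_goals assumption
  have h5 := T5b_comb' _ _ _ _ h4
  simpa only [T5b_con, Bool.or_eq_true, Bool.and_eq_true, beq_iff_eq, and_assoc, or_assoc] using h5

/-- a full turn is at least `4 * π` -/
private theorem T5b_full {K : Finset D} (hK : S.Two K) {d : D} (hd : d ∈ K) {m : ℕ} (hm : 0 < m)
    (h : (S.rot ^ m) d = d) : 4 * Real.pi ≤ S.turn d m := by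
  have hK' : ∀ e, e ∈ K ↔ S.rot.SameCycle d e := by
    intro e
    constructor
    · exact fun he => hK.tr d hd e he
    · intro hc
      by_contra hcon
      have hinv : ∀ n : ℤ, (S.rot ^ n) d ∈ K := by
        intro n
        induction n using Int.induction_on with
        | zero => simpa using hd
        | succ n ih =>
          rw [add_comm, zpow_add, zpow_one, Equiv.Perm.mul_apply]
          exact (hK.inv _).mpr ih
        | pred n ih =>
          rw [← hK.inv, ← Equiv.Perm.mul_apply, ← zpow_one_add]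
          have : (1 : ℤ) + (-(n : ℤ) - 1) = -(n : ℤ) := by ring
          rw [this]
          exact ih
      obtain ⟨n, hn⟩ := hc
      exact hcon (hn ▸ hinv n)
  obtain ⟨N, h1, h2, h3, h4, h5⟩ := turn_full hK'
  rw [hK.sum] at h5
  rw [← h5]
  exact (turn_strictMono d).monotone (Nat.le_of_dvd hm (h3 m h))

/-- a loop with angle `π` on the left -/
private structure T5bGood (S : Surface D) (d : D) : Prop where
  ex : ∃ n n' : ℕ, 0 < n ∧ 0 < n' ∧ (S.rot ^ n) d = S.opp d ∧ (S.rot ^ n') (S.opp d) = d ∧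
      (∀ m, 0 < m → (S.rot ^ m) d = S.opp d → n ≤ m) ∧
      (∀ m, 0 < m → (S.rot ^ m) (S.opp d) = d → n' ≤ m) ∧
      S.turn d n = Real.pi ∧ S.turn (S.opp d) n' = 3 * Real.pi

private theorem T5b_good {K : Finset D} (hK : S.Two K) {sc : D → ℝ} (h : S.IsScale sc) {d : D}
    (hd : d ∈ S.L1 K) : T5bGood S d ∨ T5bGood S (S.opp d) := by
  obtain ⟨n, n', h1, h2, h3, h4, h5, h6, h7 | h7⟩ := hK.turn h hd
  · exact Or.inl ⟨n, n', h1, h2, h3, h4, h5, h6, h7.1, h7.2⟩
  · refine Or.inr ⟨n', n, h2, h1, ?_, ?_, ?_, ?_, h7.2, ?_⟩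
    · rw [S.opp_opp]; exact h4
    · rw [S.opp_opp]; exact h3
    · rw [S.opp_opp]; exact h6
    · rw [S.opp_opp]; exact h5
    · rw [S.opp_opp]; exact h7.1

/-- `x`, `opp x`, `y`, `opp y` are the loops, with good `x` and `y` -/
private theorem T5b_names {K : Finset D} (hK : S.Two K) {sc : D → ℝ}
    (h : S.IsScale sc) (hc : (S.B1 K).card = 4) (hz : (S.Z1 K).card = 0) :
    S.B1 K = S.L1 K ∧ ∃ x y, T5bGood S x ∧ T5bGood S y ∧ x ≠ y ∧ x ≠ S.opp y ∧
      S.L1 K = {x, S.opp x, y, S.opp y} := by
  obtain ⟨_, _, _, hu, ho⟩ := hK.dvd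
  have hBL : S.B1 K = S.L1 K := by
    rw [← hu, card_eq_zero.mp hz, empty_union]
  refine ⟨hBL, ?_⟩
  have hex : ∀ d, d ∈ S.L1 K → ∃ x, T5bGood S x ∧ x ∈ S.L1 K ∧ (x = d ∨ x = S.opp d) := by
    intro d hd
    rcases T5b_good hK h hd with h1 | h1
    · exact ⟨d, h1, hd, Or.inl rfl⟩
    · exact ⟨S.opp d, h1, (ho d).mpr hd, Or.inr rfl⟩
  rw [hBL] at hc
  obtain ⟨d, hd⟩ : (S.L1 K).Nonempty := by rw [← card_pos]; omega
  obtain ⟨x, hx, hx', _⟩ := hex d hd
  obtain ⟨e, he, he'⟩ : ∃ e ∈ S.L1 K, e ∉ ({x, S.opp x} : Finset D) := by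
    by_contra hcon
    push Not at hcon
    have := card_le_card (show S.L1 K ⊆ ({x, S.opp x} : Finset D) from hcon)
    have h2 := card_le_two (a := x) (b := S.opp x)
    omega
  obtain ⟨y, hy, hy', hye⟩ := hex e he
  rw [mem_insert, mem_singleton, not_or] at he'
  have h1 : x ≠ y := by
    rintro rfl
    rcases hye with rfl | hye
    · exact he'.1 rfl
    · exact he'.2 (by rw [hye, S.opp_opp])
  have h2 : x ≠ S.opp y := by
    rintro rfl
    rcases hye with rfl | hye
    · exact he'.2 (by rw [S.opp_opp])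
    · exact he'.1 (by rw [hye, S.opp_opp])
  refine ⟨x, y, hx, hy, h1, h2, ?_⟩
  symm
  apply eq_of_subset_of_card_le
  · intro z hz
    simp only [mem_insert, mem_singleton] at hz
    rcases hz with rfl | rfl | rfl | rfl
    · exact hx'
    · exact (ho _).mpr hx'
    · exact hy'
    · exact (ho _).mpr hy'
  · rw [hc]
    have h3 : x ≠ S.opp x := (S.opp_ne x).symm
    have h4 : S.opp x ≠ y := by
      intro h5
      exact h2 (by rw [← h5, S.opp_opp])
    have h5 : S.opp x ≠ S.opp y := fun h6 => h1 (S.opp.injective h6)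
    have h6 : y ≠ S.opp y := (S.opp_ne y).symm
    rw [card_insert_of_notMem (by simp [h1, h2, h3]), card_insert_of_notMem (by simp [h4, h5]),
      card_insert_of_notMem (by simp [h6]), card_singleton]

private theorem T5b_f {K : Finset D} {τ : D → ℕ} (hτ : IsNext S.rot K (S.L1 K) τ) {d : D}
    (hg : T5bGood S d) (hd : d ∈ S.L1 K) (hd' : S.opp d ∈ S.L1 K) (hL : S.L1 K ⊆ K) :
    ((S.rot ^ (τ d)) d = S.opp d → S.turn d (τ d) = Real.pi) ∧
      ((S.rot ^ (τ (S.opp d))) (S.opp d) = d → S.turn (S.opp d) (τ (S.opp d)) = 3 * Real.pi) := by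
  obtain ⟨n, n', h1, h2, h3, h4, h5, h6, h7, h8⟩ := hg
  constructor
  · intro h
    have e1 := h5 _ (hτ.pos d (hL hd)) h
    have e2 : n = τ d := by
      rcases Nat.lt_or_ge n (τ d) with h9 | h9
      · exact absurd (h3 ▸ hd') (hτ.not_mem d (hL hd) n h1 h9)
      · omega
    rw [← e2]
    exact h7
  · intro h
    have e1 := h6 _ (hτ.pos _ (hL hd')) h
    have e2 : n' = τ (S.opp d) := by
      rcases Nat.lt_or_ge n' (τ (S.opp d)) with h9 | h9
      · exact absurd (h4.symm ▸ hd) (hτ.not_mem _ (hL hd') n' h2 h9)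
      · omega
    rw [← e2]
    exact h8

/-- Row T5b. Four loops `x`, `opp x`, `y`, `opp y` at the first vertex and no triangle with all
vertices the first vertex. Rename so that the angles from `x` to `opp x` and from `y` to `opp y` are
`π` (`Two.turn`). Let `F` be the first return map (`exists_isNext`, `K`, `L = L1 = B1`) and `f` the
angle from `b` to `F b`; `f > 0`, the sum of `f` is `4 * π` (`IsNext.sum`), `F` is injective. `F b ≠ b` and
`F` has no 2-cycle (otherwise already these angles add up to `4 * π`, `turn_full`); if `F b = opp b` then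
`f b` is `π` or `3 * π` as in `Two.turn`. The possibilities are `x → opp x → y → opp y → x`, or
`x → y → opp x → opp y → x`, or `x → opp y → opp x → y → x`. In the last two cases `kap` is constant by
`Two.kap_next` (`kap b = kap (opp (F b))`). In the first case `f x = f y = π`, so
`f (opp x) + f (opp y) = 2 * π`, `kap (opp x) = kap (opp y)`, and `Two.sum_kap` is
`(kap x - kap (opp x)) * V x + (kap y - kap (opp x)) * V y = 0`; if `V x`, `V y` are not parallel then
`kap` is constant, otherwise `f (opp x)` is a multiple of `π` (`det_V_turn`), so it is `π`. -/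
theorem Two.kap_or_par {K : Finset D} (hK : S.Two K) (hF : S.AllCylindersFlat) {sc : D → ℝ}
    (h : S.IsScale sc) (hc : (S.B1 K).card = 4) (hz : (S.Z1 K).card = 0) :
    (∀ b ∈ S.B1 K, ∀ c ∈ S.B1 K, S.kap sc b = S.kap sc c) ∨ ∃ x y, S.Par K x y := by
  obtain ⟨hBL, x, y, gx, gy, hxy, hxy', hL⟩ := T5b_names hK h hc hz
  have ho := hK.dvd.2.2.2.2
  have hLK : S.L1 K ⊆ K := filter_subset _ _
  have hx : x ∈ S.L1 K := by rw [hL]; simp
  have hy : y ∈ S.L1 K := by rw [hL]; simp
  have hx' : S.opp x ∈ S.L1 K := by rw [hL]; simp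
  have hy' : S.opp y ∈ S.L1 K := by rw [hL]; simp
  have n1 : x ≠ S.opp x := (S.opp_ne x).symm
  have n2 : S.opp x ≠ y := fun h5 => hxy' (by rw [← h5, S.opp_opp])
  have n3 : S.opp x ≠ S.opp y := fun h6 => hxy (S.opp.injective h6)
  have n4 : y ≠ S.opp y := (S.opp_ne y).symm
  obtain ⟨τ, hτ⟩ := exists_isNext S.rot K (S.L1 K) fun d hd => ⟨x, hx, hK.tr d hd x (hLK hx)⟩
  let e : Fin 4 → D := ![x, S.opp x, y, S.opp y]
  have e0 : e 0 = x := rfl
  have e1 : e 1 = S.opp x := rfl
  have e2 : e 2 = y := rfl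
  have e3 : e 3 = S.opp y := rfl
  have hemem : ∀ i, e i ∈ S.L1 K := by
    intro i
    fin_cases i
    · exact hx
    · exact hx'
    · exact hy
    · exact hy'
  have hesurj : ∀ d ∈ S.L1 K, ∃ i, d = e i := by
    intro d hd
    rw [hL] at hd
    simp only [mem_insert, mem_singleton] at hd
    rcases hd with rfl | rfl | rfl | rfl
    · exact ⟨0, rfl⟩
    · exact ⟨1, rfl⟩
    · exact ⟨2, rfl⟩
    · exact ⟨3, rfl⟩
  have hex : ∀ i, ∃ j, (S.rot ^ (τ (e i))) (e i) = e j :=
    fun i => hesurj _ (hτ.mem _ (hLK (hemem i)))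
  choose g hg using hex
  set f : Fin 4 → ℝ := fun i => S.turn (e i) (τ (e i)) with hf
  have hfpos : ∀ i, 0 < f i := by
    intro i
    rw [hf]
    have := turn_strictMono (S := S) (e i) (hτ.pos _ (hLK (hemem i)))
    rwa [turn_zero] at this
  have hsum : f 0 + f 1 + f 2 + f 3 = 4 * Real.pi := by
    have h1 := hτ.sum hLK hK.inv S.ang
    rw [hK.sum, hL, sum_insert (by simp [hxy, hxy', n1]), sum_insert (by simp [n2, n3]),
      sum_insert (by simp [n4]), sum_singleton] at h1
    rw [← h1]
    simp only [hf, e0, e1, e2, e3, Surface.turn]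
    ring
  have p0 := hfpos 0
  have p1 := hfpos 1
  have p2 := hfpos 2
  have p3 := hfpos 3
  have hlt : ∀ i, f i < 4 * Real.pi := by
    intro i
    fin_cases i <;> simp only [Fin.zero_eta, Fin.mk_one, Fin.reduceFinMk] <;> linarith
  have hlt2 : ∀ i j, i ≠ j → f i + f j < 4 * Real.pi := by
    intro i j hij
    fin_cases i <;> fin_cases j <;>
      first
        | exact absurd rfl hij
        | (simp only [Fin.zero_eta, Fin.mk_one, Fin.reduceFinMk]; linarith)
  have hginj : Function.Injective g := by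
    intro i j hij
    have h1 : e i = e j := hτ.inj hLK (hemem i) (hemem j) (by rw [hg, hg, hij])
    revert h1
    fin_cases i <;> fin_cases j <;> intro h1 <;>
      first
        | rfl
        | exact absurd h1 n1
        | exact absurd h1 hxy
        | exact absurd h1 hxy'
        | exact absurd h1 n2
        | exact absurd h1 n3
        | exact absurd h1 n4
        | exact absurd h1.symm n1
        | exact absurd h1.symm hxy
        | exact absurd h1.symm hxy'
        | exact absurd h1.symm n2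
        | exact absurd h1.symm n3
        | exact absurd h1.symm n4
  have hg1 : ∀ i, g i ≠ i := by
    intro i hi
    have h1 := hg i
    rw [hi] at h1
    have h2 := T5b_full hK (hLK (hemem i)) (hτ.pos _ (hLK (hemem i))) h1
    have h3 := hlt i
    simp only [hf] at h3
    linarith
  have hg2 : ∀ i, g (g i) ≠ i := by
    intro i hi
    have h1 : (S.rot ^ (τ (e i) + τ (e (g i)))) (e i) = e i := by
      rw [add_comm, pow_add, Equiv.Perm.mul_apply, hg i, hg (g i), hi]
    have h2 := T5b_full hK (hLK (hemem i))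
      (Nat.add_pos_left (hτ.pos _ (hLK (hemem i))) _) h1
    rw [turn_add, hg i] at h2
    have h3 := hlt2 i (g i) (hg1 i).symm
    simp only [hf] at h3
    linarith
  have hkap : ∀ i, S.kap sc (e i) = S.kap sc (S.opp (e (g i))) := by
    intro i
    refine (hK.kap_next hF h ?_ ?_ (hτ.pos _ (hLK (hemem i))) (hg i)
      (hτ.not_mem _ (hLK (hemem i)))).1
    · rw [hBL]; exact hemem i
    · rw [hBL]; exact (ho _).mpr (hemem _)
  have fx := T5b_f hτ gx hx hx' hLK
  have fy := T5b_f hτ gy hy hy' hLK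
  have hpi := Real.pi_pos
  have hconst : ∀ k : ℝ, S.kap sc x = k → S.kap sc (S.opp x) = k → S.kap sc y = k →
      S.kap sc (S.opp y) = k → ∀ b ∈ S.B1 K, ∀ c ∈ S.B1 K, S.kap sc b = S.kap sc c := by
    intro k k1 k2 k3 k4
    have : ∀ b ∈ S.B1 K, S.kap sc b = k := by
      intro b hb
      rw [hBL, hL] at hb
      simp only [mem_insert, mem_singleton] at hb
      rcases hb with rfl | rfl | rfl | rfl
      · exact k1
      · exact k2
      · exact k3
      · exact k4
    intro b hb c hc
    rw [this b hb, this c hc]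
  rcases T5b_comb g hginj hg1 hg2 with ⟨h0, h1, h2, h3⟩ | ⟨h0, h3⟩ | ⟨h0, h2, h1, h3⟩ |
    ⟨h2, h1⟩ | ⟨h0, h3, h1, h2⟩ | ⟨h3, h1⟩
  · -- the order `x, opp x, y, opp y`
    have f0 : f 0 = Real.pi := fx.1 (by have := hg 0; rwa [h0] at this)
    have f2 : f 2 = Real.pi := fy.1 (by have := hg 2; rwa [h2] at this)
    have hk3 : S.kap sc (S.opp x) = S.kap sc (S.opp y) := by
      have := hkap 1
      rwa [h1] at this
    have hVx : S.V sc (S.opp x) = -(S.V sc x) := by
      rw [h.V_opp, V, hK.scale hF h (hLK hx) (mem_filter.mp hx).2]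
    have hVy : S.V sc (S.opp y) = -(S.V sc y) := by
      rw [h.V_opp, V, hK.scale hF h (hLK hy) (mem_filter.mp hy).2]
    have hrel := hK.sum_kap hF h
    rw [hBL, hL, sum_insert (by simp [hxy, hxy', n1]), sum_insert (by simp [n2, n3]),
      sum_insert (by simp [n4]), sum_singleton, hVx, hVy, ← hk3] at hrel
    by_cases hdet : det (S.V sc x) (S.V sc y) = 0
    · right
      have hy1 : (S.rot ^ (τ (S.opp x))) (S.opp x) = y := by have := hg 1; rwa [h1] at this
      have hx1 : (S.rot ^ (τ (S.opp y))) (S.opp y) = x := by have := hg 3; rwa [h3] at this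
      have f1 : f 1 = Real.pi := by
        obtain ⟨r, hr, hr'⟩ := det_V_turn h (S.opp x) (τ (S.opp x))
        rw [hy1, hVx, det_neg_left, hdet, neg_zero] at hr'
        have hs : Real.sin (f 1) = 0 := by
          rcases mul_eq_zero.mp hr'.symm with h4 | h4
          · exact absurd h4 hr.ne'
          · exact h4
        obtain ⟨k, hk⟩ := Real.sin_eq_zero_iff.mp hs
        have h5 : (0 : ℝ) < k := by
          by_contra hcon
          push Not at hcon
          nlinarith
        have h6 : (k : ℝ) < 2 := by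
          by_contra hcon
          push Not at hcon
          nlinarith
        have h7 : k = 1 := by
          have h8 : 0 < k := by exact_mod_cast h5
          have h9 : k < 2 := by exact_mod_cast h6
          omega
        rw [h7] at hk
        push_cast at hk
        linarith
      have f3 : f 3 = Real.pi := by linarith
      refine ⟨x, y, ?_, hBL, hxy, ?_, ?_, ?_, ?_⟩
      · intro d
        rw [hL]
        simp only [mem_insert, mem_singleton]
      · exact ⟨_, hτ.pos _ (hLK hx), by have := hg 0; rwa [h0] at this,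
          hτ.not_mem _ (hLK hx), f0⟩
      · exact ⟨_, hτ.pos _ (hLK hx'), hy1, hτ.not_mem _ (hLK hx'), f1⟩
      · exact ⟨_, hτ.pos _ (hLK hy), by have := hg 2; rwa [h2] at this,
          hτ.not_mem _ (hLK hy), f2⟩
      · exact ⟨_, hτ.pos _ (hLK hy'), hx1, hτ.not_mem _ (hLK hy'), f3⟩
    · left
      have hrel' : ((S.kap sc x - S.kap sc (S.opp x) : ℝ) : ℂ) * S.V sc x +
          ((S.kap sc y - S.kap sc (S.opp x) : ℝ) : ℂ) * S.V sc y = 0 := by
        push_cast
        linear_combination hrel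
      have r1 : S.kap sc x - S.kap sc (S.opp x) = 0 := by
        have h4 := congrArg (fun z => det z (S.V sc y)) hrel'
        simp only [det_add_left, det_smul_left, det_self, det_zero_left, mul_zero,
          add_zero] at h4
        exact (mul_eq_zero.mp h4).resolve_right hdet
      have r2 : S.kap sc y - S.kap sc (S.opp x) = 0 := by
        have h4 := congrArg (fun z => det (S.V sc x) z) hrel'
        simp only [det_add_right, det_smul_right, det_self, det_zero_right, mul_zero,
          zero_add] at h4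
        exact (mul_eq_zero.mp h4).resolve_right hdet
      exact hconst (S.kap sc (S.opp x)) (by linarith) rfl (by linarith) hk3.symm
  · exfalso
    have f0 : f 0 = Real.pi := fx.1 (by have := hg 0; rwa [h0] at this)
    have f3 : f 3 = 3 * Real.pi := fy.2 (by have := hg 3; rwa [h3] at this)
    linarith
  · left
    have k0 := hkap 0
    have k1 := hkap 1
    have k2 := hkap 2
    have k3 := hkap 3
    rw [h0, e0, e2] at k0
    rw [h1, e1, e3, S.opp_opp] at k1
    rw [h2, e2, e1, S.opp_opp] at k2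
    rw [h3, e3, e0] at k3
    exact hconst (S.kap sc x) rfl (by rw [k1, k2]) k2 k0.symm
  · exfalso
    have f2 : f 2 = Real.pi := fy.1 (by have := hg 2; rwa [h2] at this)
    have f1 : f 1 = 3 * Real.pi := fx.2 (by have := hg 1; rwa [h1] at this)
    linarith
  · left
    have k0 := hkap 0
    have k1 := hkap 1
    have k2 := hkap 2
    have k3 := hkap 3
    rw [h0, e0, e3, S.opp_opp] at k0
    rw [h1, e1, e2] at k1
    rw [h2, e2, e0] at k2
    rw [h3, e3, e1, S.opp_opp] at k3
    exact hconst (S.kap sc x) rfl (by rw [k1, k3]) k0.symm k3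
  · exfalso
    have f3 : f 3 = 3 * Real.pi := fy.2 (by have := hg 3; rwa [h3] at this)
    have f1 : f 1 = 3 * Real.pi := fx.2 (by have := hg 1; rwa [h1] at this)
    linarith

end Surface

end MP28dde8T
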