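import Pool.Agent.Lib.MP_28dde8_gt.Tri.T5b

/-! # Row T6a: all loops are parallel -/

namespace MP28dde8T

open Finset

namespace Surface

variable {D : Type} [Fintype D] [DecidableEq D] {S : Surface D}

private theorem T6a_mem {K : Finset D} (hK : S.Two K) {b : D} (hb : b ∈ K) (i : ℕ) :
    (S.rot ^ i) b ∈ K := by
  induction i with
  | zero => simpa using hb
  | succ i ih =>
    rw [pow_succ', Equiv.Perm.mul_apply, hK.inv]
    exact ih

private theorem T6a_loop {K : Finset D} (hK : S.Two K) {b c : D} {n i : ℕ}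
    (hb : b ∈ K) (hr : S.Run K b c n) (h0 : 0 < i) (hi : i + 1 < n) :
    S.nxt ((S.rot ^ i) b) ∈ S.L1 Kᶜ := by
  have h1 := hr.not_mem i h0 (by omega)
  have h2 := hr.not_mem (i + 1) (by omega) hi
  have h3 := T6a_mem hK hb i
  have h4 := T6a_mem hK hb (i + 1)
  unfold L1 at h1 h2 ⊢
  rw [mem_filter] at h1 h2 ⊢
  have h5 : S.nxt ((S.rot ^ i) b) ∉ K := fun h => h1 ⟨h3, h⟩
  have h6 : S.nxt ((S.rot ^ (i + 1)) b) ∉ K := fun h => h2 ⟨h4, h⟩
  rw [mem_compl, mem_compl]
  refine ⟨h5, ?_⟩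
  rw [← S.opp_rot, hK.opp_mem]
  rw [pow_succ', Equiv.Perm.mul_apply] at h6
  exact h6

/-- Row T6a. In a run from `b`: for `0 < i`, `i + 1 < n` the side `nxt ((rot ^ i) b)` is a loop at the
second vertex. If it is parallel to `b` then it has the direction of `-vec b`: as
`V (rot g) = V g + t * V b` with `det (V g) (V (rot g)) > 0` and `det (V b) (V g) > 0`. -/
theorem Run.loop {K : Finset D} (hK : S.Two K) {sc : D → ℝ} (h : S.IsScale sc) {b c : D} {n i : ℕ}
    (hb : b ∈ K) (hr : S.Run K b c n) (h0 : 0 < i) (hi : i + 1 < n) :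
    S.nxt ((S.rot ^ i) b) ∈ S.L1 Kᶜ ∧
      (det (S.vec b) (S.vec (S.nxt ((S.rot ^ i) b))) = 0 →
        ∃ r : ℝ, 0 < r ∧ S.vec (S.nxt ((S.rot ^ i) b)) = -((r : ℂ) * S.vec b)) := by
  refine ⟨T6a_loop hK hb hr h0 hi, fun hd => ?_⟩
  obtain ⟨r, hr1⟩ := exists_smul_of_det (S.vec_ne b) hd
  have h1 := h.det_rot_pos ((S.rot ^ i) b)
  have h2 := h.V_rot_sub ((S.rot ^ i) b)
  have h3 : S.V sc (S.rot ((S.rot ^ i) b)) = S.V sc ((S.rot ^ i) b) +
      ((sc ((S.rot ^ i) b) : ℝ) : ℂ) * ((r : ℂ) * S.vec b) := by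
    rw [← hr1, ← h2]; ring
  rw [h3, det_add_right, det_self, det_smul_right, det_smul_right, zero_add] at h1
  obtain ⟨r', hr', h4⟩ := det_V_turn h b i
  have h5 : 0 < S.turn b i := by
    have := turn_strictMono (S := S) b h0
    rwa [turn_zero] at this
  have h6 : S.turn b i < Real.pi := by
    have := turn_strictMono (S := S) b (show i < n by omega)
    rwa [hr.turn] at this
  have h7 : 0 < det (S.V sc b) (S.V sc ((S.rot ^ i) b)) := by
    rw [h4]
    exact mul_pos hr' (Real.sin_pos_of_pos_of_lt_pi h5 h6)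
  have h8 : 0 < sc b * det (S.vec b) (S.V sc ((S.rot ^ i) b)) := by
    rw [← det_smul_left]
    exact h7
  have h9 : 0 < det (S.vec b) (S.V sc ((S.rot ^ i) b)) := (mul_pos_iff_of_pos_left (h.pos b)).1 h8
  rw [det_swap, mul_pos_iff_of_pos_left (h.pos _)] at h1
  have h10 : r < 0 := by
    by_contra hcon
    push Not at hcon
    nlinarith [mul_nonneg hcon h9.le]
  refine ⟨-r, by linarith, ?_⟩
  rw [hr1]
  push_cast
  ring

private theorem T6a_pi {K : Finset D} {sc : D → ℝ} (h : S.IsScale sc) {b c : D} {n : ℕ}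
    (hr : S.Run K b c n) : ∃ r : ℝ, 0 < r ∧ S.vec c = -((r : ℂ) * S.vec b) := by
  obtain ⟨r, h0, h1⟩ := V_turn h b n
  rw [hr.eq, hr.turn, Complex.exp_pi_mul_I] at h1
  unfold V at h1
  have hc := h.pos c
  have hb := h.pos b
  refine ⟨r * sc b / sc c, by positivity, ?_⟩
  have hc' : ((sc c : ℝ) : ℂ) ≠ 0 := by exact_mod_cast hc.ne'
  push_cast
  field_simp
  linear_combination h1

private theorem T6a_two {K : Finset D} {sc : D → ℝ} (h : S.IsScale sc) {a b c : D}
    (h1 : ∃ n, S.Run K a b n) (h2 : ∃ n, S.Run K b c n) :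
    ∃ r : ℝ, 0 < r ∧ S.vec c = (r : ℂ) * S.vec a := by
  obtain ⟨n, hn⟩ := h1
  obtain ⟨m, hm⟩ := h2
  obtain ⟨r, hr, h3⟩ := T6a_pi h hn
  obtain ⟨t, ht, h4⟩ := T6a_pi h hm
  refine ⟨t * r, by positivity, ?_⟩
  rw [h4, h3]
  push_cast
  ring

/-- Row T6a. All loops are parallel. By `Par` the loops at the second vertex are parallel to `w = vec p`,
in the same vertex `vec x`, `vec y` are positive multiples of each other (`V_turn`, `IsScale.V_opp`).
In the run from `x` to `opp x` all `V ((rot ^ i) x)`, `0 < i < n`, have the same `det w` (`V_rot_sub`,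
`Run.loop`), in particular `V (rot x)` and `V (nxt x)`, and `V (rot x) - V (nxt x) = V x`. -/
theorem Par.parallel {K : Finset D} (hK : S.Two K) (hF : S.AllCylindersFlat) {sc : D → ℝ}
    (h : S.IsScale sc) {x y p q : D} (h1 : S.Par K x y) (h2 : S.Par Kᶜ p q) :
    (∀ d ∈ S.L1 Kᶜ, det (S.vec x) (S.vec d) = 0) ∧
      (∃ r : ℝ, 0 < r ∧ S.vec y = (r : ℂ) * S.vec x) ∧
      ∃ r : ℝ, 0 < r ∧ S.vec q = (r : ℂ) * S.vec p := by
  have hy := T6a_two h h1.run₁ h1.run₂
  have hq := T6a_two h h2.run₁ h2.run₂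
  refine ⟨?_, hy, hq⟩
  -- the loops at the second vertex are parallel to `p`
  have hpar : ∀ d ∈ S.L1 Kᶜ, ∃ r : ℝ, S.vec d = (r : ℂ) * S.vec p := by
    intro d hd
    obtain ⟨r, _, hr⟩ := hq
    rw [h2.mem] at hd
    rcases hd with rfl | rfl | rfl | rfl
    · exact ⟨1, by push_cast; ring⟩
    · exact ⟨-S.rat p, by rw [S.glue]; push_cast; ring⟩
    · exact ⟨r, hr⟩
    · exact ⟨-(S.rat q * r), by rw [S.glue, hr]; push_cast; ring⟩
  have hxL : x ∈ S.L1 K := (h1.mem x).2 (Or.inl rfl)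
  have hx := hxL
  unfold L1 at hx
  rw [mem_filter] at hx
  obtain ⟨n, hn⟩ := h1.run₁
  have hn2 : 2 ≤ n := by
    by_contra hcon
    have h3 : n = 1 := by have := hn.pos; omega
    have h4 := hn.eq
    rw [h3, pow_one, S.rot_apply] at h4
    exact S.nxt_nxt_ne x (S.opp.injective h4)
  obtain ⟨m, rfl⟩ : ∃ m, n = m + 2 := ⟨n - 2, by omega⟩
  have hlast : (S.rot ^ (m + 1)) x = S.nxt x := by
    apply S.rot.injective
    rw [S.rot_nxt, ← hn.eq, pow_succ' S.rot (m + 1), Equiv.Perm.mul_apply]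
  have hconst : ∀ i, i ≤ m → det (S.vec p) (S.V sc ((S.rot ^ (i + 1)) x)) =
      det (S.vec p) (S.V sc (S.rot x)) := by
    intro i
    induction i with
    | zero => intro _; rw [zero_add, pow_one]
    | succ i ih =>
      intro hi
      rw [← ih (by omega)]
      have h3 := T6a_loop hK hx.1 hn (i := i + 1) (by omega) (by omega)
      obtain ⟨r, hr⟩ := hpar _ h3
      have h4 := h.V_rot_sub ((S.rot ^ (i + 1)) x)
      have h5 : S.V sc ((S.rot ^ (i + 1 + 1)) x) = S.V sc ((S.rot ^ (i + 1)) x) +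
          ((sc ((S.rot ^ (i + 1)) x) : ℝ) : ℂ) * ((r : ℂ) * S.vec p) := by
        rw [pow_succ' S.rot (i + 1), Equiv.Perm.mul_apply, ← hr, ← h4]; ring
      rw [h5, det_add_right, det_smul_right, det_smul_right, det_self]
      ring
  have h3 := hconst m le_rfl
  rw [hlast] at h3
  have h4 := h.V_rot_sub x
  have h5 : S.V sc (S.nxt x) = ((sc x : ℝ) : ℂ) * S.vec (S.nxt x) := by
    unfold V
    rw [hK.scale hF h hx.1 hx.2]
  have h6 : S.V sc (S.rot x) = S.V sc (S.nxt x) + ((sc x : ℝ) : ℂ) * S.vec x := by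
    rw [h5, ← h4]
    unfold V
    ring
  rw [h6, det_add_right, det_smul_right] at h3
  have h7 : sc x * det (S.vec p) (S.vec x) = 0 := by linarith
  have h8 : det (S.vec p) (S.vec x) = 0 := by
    rcases mul_eq_zero.1 h7 with h9 | h9
    · exact absurd h9 (h.pos x).ne'
    · exact h9
  intro d hd
  obtain ⟨r, hr⟩ := hpar d hd
  rw [hr, det_smul_right, det_swap, h8]
  ring

end Surface

end MP28dde8T
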