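import Pool.Agent.Lib.MP_28dde8_gt.Tri.T6a

/-! # Row T6b: a cylinder of two triangles -/

namespace MP28dde8T

open Finset

namespace Surface

variable {D : Type} [Fintype D] [DecidableEq D] {S : Surface D}

private theorem t6b_real {a : ℝ} {v : ℂ} (hv : v ≠ 0) (h : (a : ℂ) * v = 0) : a = 0 := by
  rcases mul_eq_zero.mp h with h1 | h1
  · exact_mod_cast h1
  · exact absurd h1 hv

private theorem t6b_last {b : D} {n : ℕ} (h : (S.rot ^ (n + 1)) b = S.opp b) :
    (S.rot ^ n) b = S.nxt b := by
  rw [pow_succ', Equiv.Perm.mul_apply, ← S.rot_nxt] at h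
  exact S.rot.injective h

/-- a run from `b` to `opp b` has length at least 3 -/
private theorem t6b_three_le {K : Finset D} {b : D} {n : ℕ} (hr : S.Run K b (S.opp b) n) :
    3 ≤ n := by
  have h0 := hr.pos
  have h1 := hr.eq
  by_contra hlt
  have h2 : n = 1 ∨ n = 2 := by omega
  rcases h2 with h2 | h2
  · subst h2
    have h3 := t6b_last (n := 0) h1
    rw [pow_zero, Equiv.Perm.one_apply] at h3
    exact S.nxt_ne b h3.symm
  · subst h2
    have h3 := t6b_last (n := 1) h1
    rw [pow_one, S.rot_apply] at h3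
    have h4 := congrArg S.opp h3
    rw [S.opp_opp] at h4
    exact S.opp_ne_nxt (S.nxt b) h4.symm

/-- among the loops at the second vertex only two have the direction of `-vec x` -/
private theorem t6b_pigeon {K : Finset D} {v : ℂ} (hv : v ≠ 0) {p q : D} (h2 : S.Par K p q)
    (hp : det v (S.vec p) = 0) (hq : ∃ r : ℝ, 0 < r ∧ S.vec q = (r : ℂ) * S.vec p) {a b c : D}
    (ha : a ∈ S.L1 K) (hb : b ∈ S.L1 K) (hc : c ∈ S.L1 K)
    (ha' : ∃ r : ℝ, 0 < r ∧ S.vec a = -((r : ℂ) * v))
    (hb' : ∃ r : ℝ, 0 < r ∧ S.vec b = -((r : ℂ) * v))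
    (hc' : ∃ r : ℝ, 0 < r ∧ S.vec c = -((r : ℂ) * v)) : a = b ∨ a = c ∨ b = c := by
  obtain ⟨s, hs⟩ := exists_smul_of_det hv hp
  obtain ⟨t, ht, hqt⟩ := hq
  have hs0 : s ≠ 0 := by
    intro h
    rw [h] at hs
    apply S.vec_ne p
    rw [hs]
    simp
  have hrp := S.rat_pos p
  have hrq := S.rat_pos q
  rcases lt_or_gt_of_ne hs0 with hneg | hpos
  · have key : ∀ d ∈ S.L1 K, (∃ r : ℝ, 0 < r ∧ S.vec d = -((r : ℂ) * v)) → d = p ∨ d = q := by
      intro d hd hd'
      obtain ⟨r, hr, hdr⟩ := hd'
      rcases (h2.mem d).mp hd with h | h | h | h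
      · exact Or.inl h
      · exfalso
        have e1 : ((r + S.rat p * (-s) : ℝ) : ℂ) * v = 0 := by
          have e2 := S.glue p
          rw [← h, hdr, hs] at e2
          push_cast
          linear_combination (-1 : ℂ) * e2
        have e3 := t6b_real hv e1
        have e4 : 0 < S.rat p * (-s) := mul_pos hrp (by linarith)
        linarith
      · exact Or.inr h
      · exfalso
        have e1 : ((r + S.rat q * (t * (-s)) : ℝ) : ℂ) * v = 0 := by
          have e2 := S.glue q
          rw [← h, hdr, hqt, hs] at e2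
          push_cast
          linear_combination (-1 : ℂ) * e2
        have e3 := t6b_real hv e1
        have e4 : 0 < S.rat q * (t * (-s)) := mul_pos hrq (mul_pos ht (by linarith))
        linarith
    rcases key a ha ha' with h3 | h3 <;> rcases key b hb hb' with h4 | h4 <;>
      rcases key c hc hc' with h5 | h5 <;> subst h3 <;> simp_all
  · have key : ∀ d ∈ S.L1 K, (∃ r : ℝ, 0 < r ∧ S.vec d = -((r : ℂ) * v)) →
        d = S.opp p ∨ d = S.opp q := by
      intro d hd hd'
      obtain ⟨r, hr, hdr⟩ := hd'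
      rcases (h2.mem d).mp hd with h | h | h | h
      · exfalso
        have e1 : ((r + s : ℝ) : ℂ) * v = 0 := by
          rw [h, hs] at hdr
          push_cast
          linear_combination hdr
        have e3 := t6b_real hv e1
        linarith
      · exact Or.inl h
      · exfalso
        have e1 : ((r + t * s : ℝ) : ℂ) * v = 0 := by
          rw [h, hqt, hs] at hdr
          push_cast
          linear_combination hdr
        have e3 := t6b_real hv e1
        have e4 : 0 < t * s := mul_pos ht hpos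
        linarith
      · exact Or.inr h
    rcases key a ha ha' with h3 | h3 <;> rcases key b hb hb' with h4 | h4 <;>
      rcases key c hc hc' with h5 | h5 <;> rw [h3, h4, h5] <;> simp

/-- Row T6b. The run from `x` to `opp x` has length 3, so the triangles of `x` and of `nxt (rot x)` share
two sides. Every run from `b` to `opp b` has length at least 3 (`opp_ne_nxt`). If the length were
`≥ 4` then `nxt (rot x)`, `nxt (rot (rot x))`, `nxt (rot y)` would be three different loops at the second
vertex with the direction of `-vec x`; but two of the four loops `p`, `opp p`, `q`, `opp q` have this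
direction. -/
theorem Par.pair {K : Finset D} (hK : S.Two K) (hF : S.AllCylindersFlat) {sc : D → ℝ}
    (h : S.IsScale sc) {x y p q : D} (h1 : S.Par K x y) (h2 : S.Par Kᶜ p q) :
    S.Pair x (S.nxt (S.rot x)) ∧ S.nxt (S.rot x) ∈ S.L1 Kᶜ := by
  obtain ⟨g1, ⟨t, ht, g2⟩, g3⟩ := Par.parallel hK hF h h1 h2
  obtain ⟨n, hn⟩ := h1.run₁
  obtain ⟨m, hm⟩ := h1.run₃
  have hn3 := t6b_three_le hn
  have hm3 := t6b_three_le hm
  have hx : x ∈ K := (mem_filter.mp ((h1.mem x).mpr (Or.inl rfl))).1
  have hy : y ∈ K := (mem_filter.mp ((h1.mem y).mpr (Or.inr (Or.inr (Or.inl rfl))))).1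
  have hyL : y ∈ S.L1 K := (h1.mem y).mpr (Or.inr (Or.inr (Or.inl rfl)))
  have hpL : p ∈ S.L1 Kᶜ := (h2.mem p).mpr (Or.inl rfl)
  have a1 := Run.loop hK h hx hn (i := 1) (by omega) (by omega)
  have c1 := Run.loop hK h hy hm (i := 1) (by omega) (by omega)
  rw [pow_one] at a1 c1
  refine ⟨?_, a1.1⟩
  have hn4 : n = 3 := by
    by_contra hne
    have b1 := Run.loop hK h hx hn (i := 2) (by omega) (by omega)
    have e2 : (S.rot ^ 2) x = S.rot (S.rot x) := by
      rw [pow_two, Equiv.Perm.mul_apply]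
    rw [e2] at b1
    have a2 := a1.2 (g1 _ a1.1)
    have b2 := b1.2 (g1 _ b1.1)
    have c2 := c1.2 (by rw [g2, det_smul_left, g1 _ c1.1, mul_zero])
    have c3 : ∃ r : ℝ, 0 < r ∧ S.vec (S.nxt (S.rot y)) = -((r : ℂ) * S.vec x) := by
      obtain ⟨r, hr, hr'⟩ := c2
      refine ⟨r * t, mul_pos hr ht, ?_⟩
      rw [hr', g2]
      push_cast
      ring
    rcases t6b_pigeon (S.vec_ne x) h2 (g1 p hpL) g3 a1.1 b1.1 c1.1 a2 b2 c3 with h5 | h5 | h5
    · exact S.rot_ne (S.rot x) (S.nxt.injective h5).symm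
    · exact h1.ne (S.rot.injective (S.nxt.injective h5))
    · have h6 := S.rot.injective (S.nxt.injective h5)
      have h7 := hn.not_mem 1 (by omega) (by omega)
      rw [pow_one, h6] at h7
      exact h7 hyL
  subst hn4
  have h3 := t6b_last (n := 2) hn.eq
  rw [pow_two, Equiv.Perm.mul_apply] at h3
  refine ⟨rfl, ?_, ?_⟩
  · rw [← h3, S.opp_rot]
  · rw [S.nxt_nxt_nxt, S.rot_apply]

end Surface

end MP28dde8T
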