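import Pool.Agent.Lib.MP_28dde8_gt.Tri.T6b

/-! # Row T6c: the fan -/

namespace MP28dde8T

open Finset

namespace Surface

variable {D : Type} [Fintype D] [DecidableEq D] {S : Surface D}

theorem T6c_mem_iff {K : Finset D} (hK : S.Two K) {x : D} (hx : x ∈ K) (e : D) :
    e ∈ K ↔ S.rot.SameCycle x e := by
  constructor
  · intro he
    exact hK.tr x hx e he
  · intro h
    by_contra he
    have key : ∀ (k : ℤ) (d : D), (S.rot ^ k) d ∈ K ↔ d ∈ K := by
      intro k
      induction k using Int.induction_on with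
      | zero => intro d; simp
      | succ n ih =>
        intro d
        rw [zpow_add_one, Equiv.Perm.mul_apply, ih, hK.inv]
      | pred n ih =>
        intro d
        rw [zpow_sub_one, Equiv.Perm.mul_apply, ih, ← hK.inv]
        simp
    obtain ⟨k, hk⟩ := h
    rw [← hk, key] at he
    exact he hx

/-- every side of `K` which is not a loop is in one of the four runs -/
theorem T6c_cover {K : Finset D} (hK : S.Two K) {x y : D} (h1 : S.Par K x y) {g : D} (hg : g ∈ K)
    (hg' : g ∉ S.L1 K) :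
    (∃ n i, S.Run K x (S.opp x) n ∧ 0 < i ∧ i < n ∧ (S.rot ^ i) x = g) ∨
      (∃ n i, S.Run K (S.opp x) y n ∧ 0 < i ∧ i < n ∧ (S.rot ^ i) (S.opp x) = g) ∨
      (∃ n i, S.Run K y (S.opp y) n ∧ 0 < i ∧ i < n ∧ (S.rot ^ i) y = g) ∨
      ∃ n i, S.Run K (S.opp y) x n ∧ 0 < i ∧ i < n ∧ (S.rot ^ i) (S.opp y) = g := by
  have hx : x ∈ K := (Finset.mem_filter.1 ((h1.mem x).2 (Or.inl rfl))).1
  have ne : ∀ b, b ∈ S.L1 K → ∀ i, (S.rot ^ i) b = g → 0 < i := by
    intro b hb i hi
    rcases Nat.eq_zero_or_pos i with rfl | h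
    · rw [pow_zero, Equiv.Perm.one_apply] at hi
      exact absurd (hi ▸ hb) hg'
    · exact h
  have m1 : x ∈ S.L1 K := (h1.mem x).2 (Or.inl rfl)
  have m2 : S.opp x ∈ S.L1 K := (h1.mem _).2 (Or.inr (Or.inl rfl))
  have m3 : y ∈ S.L1 K := (h1.mem y).2 (Or.inr (Or.inr (Or.inl rfl)))
  have m4 : S.opp y ∈ S.L1 K := (h1.mem _).2 (Or.inr (Or.inr (Or.inr rfl)))
  obtain ⟨n1, r1⟩ := h1.run₁
  obtain ⟨n2, r2⟩ := h1.run₂
  obtain ⟨n3, r3⟩ := h1.run₃
  obtain ⟨n4, r4⟩ := h1.run₄
  obtain ⟨N, hN, -, -, hcov, hturn⟩ := turn_full (T6c_mem_iff hK hx)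
  have e2 : (S.rot ^ (n1 + n2)) x = y := by
    rw [add_comm, pow_add, Equiv.Perm.mul_apply, r1.eq, r2.eq]
  have e3 : (S.rot ^ (n1 + n2 + n3)) x = S.opp y := by
    rw [add_comm, pow_add, Equiv.Perm.mul_apply, e2, r3.eq]
  have ht : S.turn x (n1 + n2 + n3 + n4) = 4 * Real.pi := by
    rw [turn_add, turn_add, turn_add, r1.eq, e2, e3, r1.turn, r2.turn, r3.turn, r4.turn]
    ring
  have hNn : N = n1 + n2 + n3 + n4 := by
    apply (turn_strictMono x).injective
    rw [ht, hturn, hK.sum]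
  obtain ⟨i, hi, hig⟩ := hcov g hg
  by_cases c1 : i < n1
  · exact Or.inl ⟨n1, i, r1, ne x m1 i hig, c1, hig⟩
  by_cases c2 : i < n1 + n2
  · right; left
    have h2 : (S.rot ^ (i - n1)) (S.opp x) = g := by
      rw [← r1.eq, ← Equiv.Perm.mul_apply, ← pow_add]
      rw [show i - n1 + n1 = i by omega]
      exact hig
    exact ⟨n2, i - n1, r2, ne _ m2 _ h2, by omega, h2⟩
  by_cases c3 : i < n1 + n2 + n3
  · right; right; left
    have h2 : (S.rot ^ (i - (n1 + n2))) y = g := by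
      rw [← e2, ← Equiv.Perm.mul_apply, ← pow_add]
      rw [show i - (n1 + n2) + (n1 + n2) = i by omega]
      exact hig
    exact ⟨n3, i - (n1 + n2), r3, ne _ m3 _ h2, by omega, h2⟩
  · right; right; right
    have h2 : (S.rot ^ (i - (n1 + n2 + n3))) (S.opp y) = g := by
      rw [← e3, ← Equiv.Perm.mul_apply, ← pow_add]
      rw [show i - (n1 + n2 + n3) + (n1 + n2 + n3) = i by omega]
      exact hig
    exact ⟨n4, i - (n1 + n2 + n3), r4, ne _ m4 _ h2, by omega, h2⟩

/-- the heights in a run do not change -/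
theorem T6c_height {K : Finset D} (hK : S.Two K) {sc : D → ℝ} (h : S.IsScale sc) {x b c : D} {n : ℕ}
    (hb : b ∈ K) (hr : S.Run K b c n)
    (hp : ∀ d ∈ S.L1 Kᶜ, det (S.vec x) (S.vec d) = 0) :
    ∀ j i, 0 < i → i + j < n → det (S.V sc x) (S.V sc ((S.rot ^ (i + j)) b)) =
      det (S.V sc x) (S.V sc ((S.rot ^ i) b)) := by
  intro j
  induction j with
  | zero => intro i _ _; rfl
  | succ j ih =>
    intro i h0 hj
    rw [← ih i h0 (by omega)]
    have h2 := (Run.loop hK h hb hr (i := i + j) (by omega) (by omega)).1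
    have h3 := h.V_rot_sub ((S.rot ^ (i + j)) b)
    have h4 : S.rot ((S.rot ^ (i + j)) b) = (S.rot ^ (i + (j + 1))) b := by
      rw [← add_assoc, pow_succ', Equiv.Perm.mul_apply]
    rw [h4] at h3
    have h5 : det (S.V sc x) (S.V sc ((S.rot ^ (i + (j + 1))) b) - S.V sc ((S.rot ^ (i + j)) b)) =
        0 := by
      rw [h3, V, det_smul_left, det_smul_right, hp _ h2]
      ring
    rw [det_sub_right] at h5
    linarith

/-- the sides of a run from `b` are on the left of `b` -/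
theorem T6c_pos {K : Finset D} {sc : D → ℝ} (h : S.IsScale sc) {b c : D} {n i : ℕ}
    (hr : S.Run K b c n) (h0 : 0 < i) (hi : i < n) :
    0 < det (S.V sc b) (S.V sc ((S.rot ^ i) b)) := by
  obtain ⟨r, hr0, hr1⟩ := det_V_turn h b i
  rw [hr1]
  have h1 : 0 < S.turn b i := by
    have := turn_strictMono (S := S) b h0
    rwa [turn_zero] at this
  have h2 : S.turn b i < Real.pi := by
    have := turn_strictMono (S := S) b hi
    rwa [hr.turn] at this
  exact mul_pos hr0 (Real.sin_pos_of_pos_of_lt_pi h1 h2)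

/-- a vector is not a positive and a negative multiple of the same vector -/
theorem T6c_sign {a : ℂ} (ha : a ≠ 0) {r s : ℝ} (hr : 0 < r) (hs : 0 < s)
    (h : (r : ℂ) * a = -((s : ℂ) * a)) : False := by
  have h1 : ((r + s : ℝ) : ℂ) * a = 0 := by
    push_cast
    linear_combination h
  rcases mul_eq_zero.mp h1 with h2 | h2
  · have h3 : r + s = 0 := by exact_mod_cast h2
    linarith
  · exact ha h2

/-- Row T6c. Let `p₀ = nxt (rot x)`, `g = nxt (nxt (opp p₀))`. `opp p₀ ∈ B1 Kᶜ`, so `g ∈ K`, `nxt g = opp p₀`,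
and `g`, `rot g` are in one of the four runs (`(rot ^ i) b = g` with `0 < i`, `i + 1 < n`). As `opp p₀`
has the direction of `vec x` it is not the run from `x` or `y` (`Run.loop`). In the run from `opp y` to
`x` we have the first case with `k = n - i`, in the run from `opp x` to `y` the second case with `k = i`
(heights: `V_rot_sub` and `Run.loop`); `det (V x) (V g) < 0` by `det_V_turn`. -/
theorem Par.fan {K : Finset D} (hK : S.Two K) (hF : S.AllCylindersFlat) {sc : D → ℝ}
    (h : S.IsScale sc) {x y p q g : D} (h1 : S.Par K x y) (h2 : S.Par Kᶜ p q)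
    (hg : g = S.nxt (S.nxt (S.opp (S.nxt (S.rot x))))) :
    det (S.V sc x) (S.V sc g) < 0 ∧ sc (S.nxt g) = S.kap sc (S.opp x) * sc g ∧
      ((∃ k, 1 < k ∧ (S.rot ^ k) g = x ∧
          ∀ i < k, det (S.V sc x) (S.V sc ((S.rot ^ i) g)) = det (S.V sc x) (S.V sc g)) ∨
        ∃ k, 0 < k ∧ (S.rot ^ k) (S.opp x) = g ∧ ∀ i, 0 < i → i ≤ k + 1 →
          det (S.V sc x) (S.V sc ((S.rot ^ i) (S.opp x))) = det (S.V sc x) (S.V sc g)) := by
  obtain ⟨hpair, hp0⟩ := Par.pair hK hF h h1 h2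
  obtain ⟨hpar, ⟨ry, hry, hvy⟩, -⟩ := Par.parallel hK hF h h1 h2
  set p0 := S.nxt (S.rot x) with hp0d
  have m1 : x ∈ S.L1 K := (h1.mem x).2 (Or.inl rfl)
  have m2 : S.opp x ∈ S.L1 K := (h1.mem _).2 (Or.inr (Or.inl rfl))
  have m3 : y ∈ S.L1 K := (h1.mem y).2 (Or.inr (Or.inr (Or.inl rfl)))
  have m4 : S.opp y ∈ S.L1 K := (h1.mem _).2 (Or.inr (Or.inr (Or.inr rfl)))
  have k1 : x ∈ K := (Finset.mem_filter.1 m1).1
  have k2 : S.opp x ∈ K := (Finset.mem_filter.1 m2).1
  have k3 : y ∈ K := (Finset.mem_filter.1 m3).1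
  have k4 : S.opp y ∈ K := (Finset.mem_filter.1 m4).1
  have b2 : S.opp x ∈ S.B1 K := h1.eq ▸ m2
  have b4 : S.opp y ∈ S.B1 K := h1.eq ▸ m4
  -- the loop `opp p0`
  have hp0' := Finset.mem_filter.1 hp0
  have hop : S.opp p0 ∈ S.L1 Kᶜ := by
    refine Finset.mem_filter.2 ⟨?_, ?_⟩
    · exact (hK.compl.opp_mem p0).2 hp0'.2
    · exact (hK.compl.nxt_opp_mem p0).2 hp0'.1
  have hoB : S.opp p0 ∈ S.B1 Kᶜ := h2.eq ▸ hop
  have hgK : g ∈ K := by
    have h3 := (Finset.mem_filter.1 hoB).2.2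
    rw [← hg, mem_compl, not_not] at h3
    exact h3
  have hng : S.nxt g = S.opp p0 := by rw [hg, S.nxt_nxt_nxt]
  have hgL : g ∉ S.L1 K := by
    intro hc
    have h3 := (Finset.mem_filter.1 hc).2
    rw [hng] at h3
    exact (mem_compl.1 (Finset.mem_filter.1 hop).1) h3
  have hrgL : S.rot g ∉ S.L1 K := by
    intro hc
    have h3 := (Finset.mem_filter.1 hc).2
    rw [S.rot_apply, hK.nxt_opp_mem, hng] at h3
    exact (mem_compl.1 (Finset.mem_filter.1 hop).2) h3
  -- the run from `x` has length 3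
  have hr1 : S.rot x = S.nxt (S.nxt p0) := by
    rw [S.rot_apply, hpair.2.2]
  have hr2 : S.rot (S.rot x) = S.nxt x := by
    conv_lhs => rw [hr1, S.rot_apply, S.nxt_nxt_nxt, ← hpair.2.1, S.opp_opp]
  have hr3 : (S.rot ^ 3) x = S.opp x := by
    rw [pow_succ, pow_succ, pow_one, Equiv.Perm.mul_apply, Equiv.Perm.mul_apply, hr2, S.rot_nxt]
  obtain ⟨n1, r1⟩ := h1.run₁
  have hn1 : n1 = 3 := by
    have u1 : n1 ≤ 3 := by
      by_contra hc
      exact r1.not_mem 3 (by norm_num) (by omega) (hr3 ▸ m2)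
    have u2 := r1.pos
    have u3 : n1 ≠ 1 := by
      intro hc
      have h3 := r1.eq
      rw [hc, pow_one] at h3
      have h4 := (Finset.mem_filter.1 (h3 ▸ m2)).2
      exact (mem_compl.1 hp0'.1) h4
    have u4 : n1 ≠ 2 := by
      intro hc
      have h3 := r1.eq
      rw [hc, pow_succ, pow_one, Equiv.Perm.mul_apply, hr2] at h3
      exact S.opp_ne_nxt x h3.symm
    omega
  have hvp0 : ∃ r : ℝ, 0 < r ∧ S.vec p0 = -((r : ℂ) * S.vec x) := by
    have h3 := (Run.loop hK h k1 r1 (i := 1) (by norm_num) (by omega)).2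
    rw [pow_one] at h3
    exact h3 (hpar p0 hp0)
  obtain ⟨s, hs, hvs⟩ := hvp0
  have hvo : S.vec (S.opp p0) = ((S.rat p0 * s : ℝ) : ℂ) * S.vec x := by
    rw [S.glue, hvs]
    push_cast
    ring
  have hrs : 0 < S.rat p0 * s := mul_pos (S.rat_pos p0) hs
  have hx0 := S.vec_ne x
  have hvox : S.vec (S.opp x) = -((S.rat x : ℂ) * S.vec x) := S.glue x
  have hvoy : S.vec (S.opp y) = -(((S.rat y * ry : ℝ) : ℂ) * S.vec x) := by
    rw [S.glue, hvy]
    push_cast
    ring
  have hry' : 0 < S.rat y * ry := mul_pos (S.rat_pos y) hry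
  -- a run containing `g` cannot start at `x` or `y`
  have hlast : ∀ b c n i, c ∈ S.L1 K → S.Run K b c n → i < n → (S.rot ^ i) b = g → i + 1 < n := by
    intro b c n i hc hr hi hig
    by_contra hcon
    have h3 : n = i + 1 := by omega
    have h4 := hr.eq
    rw [h3, pow_succ', Equiv.Perm.mul_apply, hig] at h4
    exact hrgL (h4 ▸ hc)
  rcases T6c_cover hK h1 hgK hgL with ⟨n, i, hr, h0, hi, hig⟩ | ⟨n, i, hr, h0, hi, hig⟩ |
    ⟨n, i, hr, h0, hi, hig⟩ | ⟨n, i, hr, h0, hi, hig⟩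
  · exfalso
    have hi' := hlast _ _ _ _ m2 hr hi hig
    have h3 := (Run.loop hK h k1 hr h0 hi').2
    rw [hig, hng] at h3
    obtain ⟨r, hr0, hr1⟩ := h3 (hpar _ hop)
    rw [hvo] at hr1
    exact T6c_sign hx0 hrs hr0 hr1
  · have hi' := hlast _ _ _ _ m3 hr hi hig
    have hkn := Two.kap_next hK hF h b2 b4 (hr.pos) hr.eq hr.not_mem
    refine ⟨?_, ?_, Or.inr ⟨i, h0, hig, ?_⟩⟩
    · have h3 := T6c_pos h hr h0 hi
      rw [hig] at h3
      rw [h.V_opp, det_neg_left, det_smul_left] at h3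
      rw [V, det_smul_left]
      have h4 := h.pos (S.nxt x)
      have h5 := h.pos x
      have h6 : det (S.vec x) (S.V sc g) < 0 := by
        by_contra hc
        push Not at hc
        have := mul_nonneg h4.le hc
        linarith
      exact mul_neg_of_pos_of_neg h5 h6
    · have h3 := hkn.2 i h0 hi
      rwa [hig] at h3
    · intro j hj0 hj
      have h3 := T6c_height hK h (x := x) k2 hr hpar
      rw [← hig]
      have h4 := h3 (j - 1) 1 (by norm_num) (by omega)
      have h5 := h3 (i - 1) 1 (by norm_num) (by omega)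
      rw [show 1 + (j - 1) = j by omega] at h4
      rw [show 1 + (i - 1) = i by omega] at h5
      rw [h4, h5]
  · exfalso
    have hi' := hlast _ _ _ _ m4 hr hi hig
    have h3 := (Run.loop hK h k3 hr h0 hi').2
    rw [hig, hng] at h3
    have h4 : det (S.vec y) (S.vec (S.opp p0)) = 0 := by
      rw [hvy, det_smul_left, hpar _ hop, mul_zero]
    obtain ⟨r, hr0, hr1⟩ := h3 h4
    rw [hvo, hvy] at hr1
    refine T6c_sign hx0 hrs (mul_pos hr0 hry) ?_
    rw [hr1]
    push_cast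
    ring
  · have hi' := hlast _ _ _ _ m1 hr hi hig
    have hkn := Two.kap_next hK hF h b4 b2 (hr.pos) hr.eq hr.not_mem
    refine ⟨?_, ?_, Or.inl ⟨n - i, by omega, ?_, ?_⟩⟩
    · have h3 := T6c_pos h hr h0 hi
      rw [hig] at h3
      rw [h.V_opp, hvy, det_neg_left, det_smul_left, det_smul_left] at h3
      rw [V, det_smul_left]
      have h4 := h.pos (S.nxt y)
      have h5 := h.pos x
      have h6 : det (S.vec x) (S.V sc g) < 0 := by
        by_contra hc
        push Not at hc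
        have := mul_nonneg h4.le (mul_nonneg hry.le hc)
        linarith
      exact mul_neg_of_pos_of_neg h5 h6
    · have h3 := hkn.2 i h0 hi
      rw [hig] at h3
      rw [h3, hkn.1]
    · rw [← hig, ← Equiv.Perm.mul_apply, ← pow_add]
      rw [show n - i + i = n by omega]
      exact hr.eq
    · intro j hj
      have h3 := T6c_height hK h (x := x) k4 hr hpar j i h0 (by omega)
      rw [← hig, ← Equiv.Perm.mul_apply, ← pow_add, add_comm j i]
      exact h3

end Surface

end MP28dde8T
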