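import Pool.Agent.Lib.MP_28dde8_gt.Tri.T6c

/-! # Row T6d: the exceptional case -/

namespace MP28dde8T

open Finset

namespace Surface

variable {D : Type} [Fintype D] [DecidableEq D] {S : Surface D}

/-- Row T6d. `geodesic_left`, `geodesic_right` give `sc (rot x) = sc g * rat p₀`; with
`sc (opp p₀) * rat p₀ = sc (nxt p₀) = sc p₀`, `nxt g = opp p₀` and `Two.kap_eq`. -/
theorem Par.kap_eq {K : Finset D} (hK : S.Two K) (hF : S.AllCylindersFlat) {sc : D → ℝ}
    (h : S.IsScale sc) {x y p q : D} (h1 : S.Par K x y) (h2 : S.Par Kᶜ p q) :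
    S.kap sc x = S.kap sc (S.opp x) := by
  have hx1 : x ∈ S.L1 K := (h1.mem x).mpr (Or.inl rfl)
  have hx2 : S.opp x ∈ S.L1 K := (h1.mem _).mpr (Or.inr (Or.inl rfl))
  have hxB : x ∈ S.B1 K := by rw [h1.eq]; exact hx1
  rw [L1, mem_filter] at hx1 hx2
  have hsx := hK.scale hF h hx1.1 hx1.2
  have hsx' := hK.scale hF h hx2.1 hx2.2
  obtain ⟨hpair, hp0⟩ := h1.pair hK hF h h2
  rw [L1, mem_filter] at hp0
  have hsp := hK.compl.scale hF h hp0.1 hp0.2
  obtain ⟨hneg, hkg, hor⟩ := Par.fan hK hF h h1 h2 rfl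
  have key : sc (S.rot x) = sc (S.nxt (S.nxt (S.opp (S.nxt (S.rot x))))) *
      S.rat (S.nxt (S.rot x)) := by
    rcases hor with ⟨k, hk, hgk, hh⟩ | ⟨k, hk, hgk, hh⟩
    · exact geodesic_left hF h hpair hsx rfl hk hgk hneg hh
    · exact geodesic_right hF h hpair hsx hsx' rfl hk hgk hneg hh
  obtain ⟨_, hkx, _, _⟩ := hK.kap_eq hF h hxB
  have hopp := h.opp (S.nxt (S.rot x))
  rw [S.nxt_nxt_nxt] at hkg
  have hpos := h.pos (S.rot x)
  have e : S.kap sc x * sc (S.rot x) = S.kap sc (S.opp x) * sc (S.rot x) := by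
    calc S.kap sc x * sc (S.rot x) = sc (S.nxt (S.rot x)) := hkx.symm
      _ = sc (S.opp (S.nxt (S.rot x))) * S.rat (S.nxt (S.rot x)) := by rw [hopp, hsp]
      _ = S.kap sc (S.opp x) * (sc (S.nxt (S.nxt (S.opp (S.nxt (S.rot x))))) *
          S.rat (S.nxt (S.rot x))) := by rw [hkg]; ring
      _ = S.kap sc (S.opp x) * sc (S.rot x) := by rw [← key]
  exact mul_right_cancel₀ hpos.ne' e

end Surface

end MP28dde8T
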